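import Mathlib
import Pool.Agent.Lib.P325f1f.Dich.Games

/-!
# Games on coverings of a fixed graph

`Game`, `Game.satFrac`, `Game.value`, `mix` are in `Pool/Agent/Lib/P325f1f/Dich/GameDefs.lean`.

The fixed bipartite multigraph `T` has left vertices `PL`, right vertices `PR` and edges `K`; the edge
`k` joins `s k` to `d k`.
-/

open Finset

namespace Pool.Agent.CovT

open Pool.Agent.P325f1f.Dich

section defs

variable {K V C : Type}

/-- A routing: for every `k` a permutation `g k` of `V` that keeps the cloud `cl v` of every `v`. -/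
structure Rout (K V C : Type) (cl : V → C) where
  /-- the permutations -/
  g : K → Equiv.Perm V
  /-- they keep the clouds -/
  keep : ∀ k v, cl (g k v) = cl v

/-- A slot: an edge, a point of the long code, a pattern of marks and new symbols, a number. -/
abbrev Slot (ι Λ Ω : Type) (t T : ℕ) : Type := ι × (Λ → Ω) × (Λ → Fin t × Ω) × Fin T

/-- The cloud of a half-edge `(b, h)`: the left end (`b = false`) or the right end (`b = true`) of the
edge of the slot `h`, and the point of the long code of `h`. -/
def cloud {U W ι Λ Ω : Type} {t T : ℕ} (src : ι → U) (dst : ι → W) (v : Bool × Slot ι Λ Ω t T) :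
    (U ⊕ W) × (Λ → Ω) :=
  (if v.1 then Sum.inr (dst v.2.1) else Sum.inl (src v.2.1), v.2.2.1)

/-- Exchange the symbol with the new symbol if the mark is `0`. -/
def exch {Ω : Type} {t : ℕ} (p : Ω × (Fin t × Ω)) : Ω × (Fin t × Ω) :=
  if p.2.1.val = 0 then (p.2.2, (p.2.1, p.1)) else p

theorem exch_exch {Ω : Type} {t : ℕ} (p : Ω × (Fin t × Ω)) : exch (exch p) = p := by
  obtain ⟨x, c, y⟩ := p
  unfold exch
  by_cases h : c.val = 0
  · simp [h]
  · simp [h]

/-- Carry a slot over the constraint of its edge: every coordinate with mark `0` is overwritten by the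
new symbol (the old symbol takes its place), the coordinates are permuted by the constraint `π e` of
the edge `e` and the permutation `σ` is applied to the symbols. -/
def carry {ι Λ Ω : Type} {t T : ℕ} (σ : Equiv.Perm Ω) (π : ι → Equiv.Perm Λ) :
    Equiv.Perm (Slot ι Λ Ω t T) where
  toFun h := (h.1, fun j => σ (exch (h.2.1 ((π h.1).symm j), h.2.2.1 ((π h.1).symm j))).1,
    fun j => (exch (h.2.1 ((π h.1).symm j), h.2.2.1 ((π h.1).symm j))).2, h.2.2.2)
  invFun h := (h.1, fun i => (exch (σ.symm (h.2.1 (π h.1 i)), h.2.2.1 (π h.1 i))).1,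
    fun i => (exch (σ.symm (h.2.1 (π h.1 i)), h.2.2.1 (π h.1 i))).2, h.2.2.2)
  left_inv h := by
    obtain ⟨e, x, s, i⟩ := h
    simp only [Equiv.symm_apply_apply, Prod.mk.eta, exch_exch]
  right_inv h := by
    obtain ⟨e, x, s, i⟩ := h
    simp only [Equiv.apply_symm_apply, Prod.mk.eta, exch_exch]

/-- The game on the covering of `T` given by the routing `r`: left vertices `PL × Slot`, right
vertices `PR × Slot`, edges `K × Slot`. The edge `(k, h)` joins `(s k, r.g k (false, h))` to
`(d k, r.g k (true, carry h))` and carries the constraint `σ k`. -/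
def coverGame {U W Λ ι Ω PL PR K : Type} {t T : ℕ} (s : K → PL) (d : K → PR)
    (σ : K → Equiv.Perm Ω) (I : Game U W Λ ι)
    (r : Rout K (Bool × Slot ι Λ Ω t T) ((U ⊕ W) × (Λ → Ω)) (cloud I.src I.dst)) :
    Game (PL × Slot ι Λ Ω t T) (PR × Slot ι Λ Ω t T) Ω (K × Slot ι Λ Ω t T) where
  src p := (s p.1, (r.g p.1 (false, p.2)).2)
  dst p := (d p.1, (r.g p.1 (true, carry (σ p.1) I.perm p.2)).2)
  perm p := σ p.1

end defs

section rout

variable {K V C : Type} {cl : V → C}

theorem Rout.ext' (r r' : Rout K V C cl) (h : r.g = r'.g) : r = r' := by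
  cases r; cases r'; cases h; rfl

noncomputable instance [Fintype K] [Fintype V] : Fintype (Rout K V C cl) := by
  classical
  exact Fintype.ofInjective (fun r : Rout K V C cl => r.g) (fun r r' h => Rout.ext' r r' h)

noncomputable instance : DecidableEq (Rout K V C cl) := Classical.decEq _

/-- The identity routing. -/
instance : Inhabited (Rout K V C cl) := ⟨⟨fun _ => 1, fun _ _ => rfl⟩⟩

/-- Compose the permutation of the colour `k` with the transposition of `a` and `b` (which must lie
in the same cloud, otherwise nothing changes). -/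
noncomputable def Rout.sw [DecidableEq K] [DecidableEq V] [DecidableEq C] (r : Rout K V C cl)
    (k : K) (a b : V) : Rout K V C cl :=
  if h : cl a = cl b then
    ⟨Function.update r.g k (Equiv.swap a b * r.g k), by
      intro k' v
      by_cases hk : k' = k
      · subst hk
        rw [Function.update_self, Equiv.Perm.mul_apply]
        rcases eq_or_ne (r.g k' v) a with h1 | h1
        · rw [h1, Equiv.swap_apply_left, ← h, ← h1, r.keep]
        · rcases eq_or_ne (r.g k' v) b with h2 | h2
          · rw [h2, Equiv.swap_apply_right, h, ← h2, r.keep]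
          · rw [Equiv.swap_apply_of_ne_of_ne h1 h2, r.keep]
      · rw [Function.update_of_ne hk, r.keep]⟩
  else r

/-- The other end of the edge of colour `k` at `v`: `Φ k` is the fixed base matching. -/
def nbr (Φ : K → V → V) (r : Rout K V C cl) (k : K) (v : V) : V := r.g k (Φ k ((r.g k).symm v))

theorem nbr_nbr (Φ : K → V → V) (hΦ : ∀ k v, Φ k (Φ k v) = v) (r : Rout K V C cl) (k : K) (v : V) :
    nbr Φ r k (nbr Φ r k v) = v := by
  unfold nbr
  rw [Equiv.symm_apply_apply, hΦ, Equiv.apply_symm_apply]

theorem nbr_ne (Φ : K → V → V) (hΦ : ∀ k v, Φ k v ≠ v) (r : Rout K V C cl) (k : K) (v : V) :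
    nbr Φ r k v ≠ v := by
  unfold nbr
  intro h
  apply hΦ k ((r.g k).symm v)
  rw [Equiv.eq_symm_apply]
  exact h

/-- The base matching on half-edges given by the permutations `φ k`. -/
def Phi {H : Type} (φ : K → Equiv.Perm H) (k : K) (v : Bool × H) : Bool × H :=
  if v.1 then (false, (φ k).symm v.2) else (true, φ k v.2)

theorem Phi_Phi {H : Type} (φ : K → Equiv.Perm H) (k : K) (v : Bool × H) :
    Phi φ k (Phi φ k v) = v := by
  obtain ⟨b, h⟩ := v
  cases b
  · simp [Phi]
  · simp [Phi]

theorem Phi_ne {H : Type} (φ : K → Equiv.Perm H) (k : K) (v : Bool × H) : Phi φ k v ≠ v := by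
  obtain ⟨b, h⟩ := v
  cases b
  · simp [Phi]
  · simp [Phi]

/-- The slot part of the image of the half-edge `(b, h)`. -/
def half {H : Type} {cl : Bool × H → C} (r : Rout K (Bool × H) C cl) (k : K) (b : Bool) (h : H) : H :=
  (r.g k (b, h)).2

/-- If the clouds know the side, routings keep the side. -/
theorem half_eq {H : Type} {cl : Bool × H → C} (hs : ∀ v v', cl v = cl v' → v.1 = v'.1)
    (r : Rout K (Bool × H) C cl) (k : K) (b : Bool) (h : H) : r.g k (b, h) = (b, half r k b h) := by
  have h1 := hs _ _ (r.keep k (b, h))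
  exact Prod.ext h1 rfl

theorem half_cl {H : Type} {cl : Bool × H → C} (hs : ∀ v v', cl v = cl v' → v.1 = v'.1)
    (r : Rout K (Bool × H) C cl) (k : K) (b : Bool) (h : H) : cl (b, half r k b h) = cl (b, h) := by
  rw [← half_eq hs, r.keep]

theorem half_inj {H : Type} {cl : Bool × H → C} (hs : ∀ v v', cl v = cl v' → v.1 = v'.1)
    (r : Rout K (Bool × H) C cl) (k : K) (b : Bool) : Function.Injective (half r k b) := by
  intro h h' hh
  have h1 : r.g k (b, h) = r.g k (b, h') := by rw [half_eq hs, half_eq hs, hh]
  exact congrArg Prod.snd ((r.g k).injective h1)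

theorem cloud_side {U W ι Λ Ω : Type} {t T : ℕ} (src : ι → U) (dst : ι → W)
    (v v' : Bool × Slot ι Λ Ω t T) (h : cloud src dst v = cloud src dst v') : v.1 = v'.1 := by
  have h1 := congrArg Prod.fst h
  obtain ⟨b, v⟩ := v
  obtain ⟨b', v'⟩ := v'
  cases b <;> cases b' <;> simp_all [cloud]

end rout

end Pool.Agent.CovT
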