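import Mathlib
import Pool.Agent.Lib.P325f1f.Dich.Forest

/-!
# Words and walks

`K` is a finite set of colours, `M k` an involution of `V` for every colour. The word `k :: l` acts
by `l` first and then by `M k` (`wact`, `Red` are in `Pool/Agent/Lib/P325f1f/Dich/Forest.lean`).
-/

open Finset

namespace Pool.Agent.CovT

open Pool.Agent.P325f1f.Dich

variable {V K : Type}

/-- The reduced words of length `m`. -/
noncomputable def words (K : Type) [Fintype K] : ℕ → Finset (List K)
  | 0 => {[]}
  | m + 1 => by
    classical
    exact (((univ : Finset K) ×ˢ words K m).image (fun p => p.1 :: p.2)).filter (fun l => Red l)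

/-- The walk of the word `l` from `v` stays inside the set `F` of darts `(k, v)`. -/
def InF (M : K → V → V) (F : Set (K × V)) : List K → V → Prop
  | [], _ => True
  | k :: l, v => InF M F l v ∧ (k, wact M l v) ∈ F

theorem mem_words [Fintype K] (m : ℕ) (l : List K) :
    l ∈ words K m ↔ l.length = m ∧ Red l := by
  classical
  induction m generalizing l with
  | zero =>
    rw [words, mem_singleton]
    constructor
    · rintro rfl
      exact ⟨rfl, trivial⟩
    · rintro ⟨h, _⟩
      exact List.length_eq_zero_iff.1 h
  | succ m ih =>
    rw [words, mem_filter, mem_image]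
    constructor
    · rintro ⟨⟨p, hp, rfl⟩, hr⟩
      rw [mem_product] at hp
      refine ⟨?_, hr⟩
      rw [List.length_cons, ((ih p.2).1 hp.2).1]
    · rintro ⟨h, hr⟩
      cases l with
      | nil => simp at h
      | cons k l =>
        refine ⟨⟨(k, l), ?_, rfl⟩, hr⟩
        rw [mem_product]
        refine ⟨mem_univ _, (ih l).2 ⟨by simpa using h, ?_⟩⟩
        cases l with
        | nil => trivial
        | cons a l => exact hr.2

theorem card_words_le [Fintype K] (m : ℕ) : (words K m).card ≤ Fintype.card K ^ m := by
  classical
  induction m with
  | zero => simp [words]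
  | succ m ih =>
    rw [words]
    refine (card_filter_le _ _).trans (card_image_le.trans ?_)
    rw [card_product, card_univ, pow_succ, mul_comm]
    exact Nat.mul_le_mul_right _ ih

end Pool.Agent.CovT
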