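import Mathlib
import Pool.Agent.Lib.CovT.Defs
import Pool.Agent.Lib.CovT.Walk

/-!
# CovT.UsedW (1.2 h): what a walk uses of the routing

`vis r l v`: the vertices of the walk of the word `l` from `v` (start and end included);
`used r l v k`: the ends of its edges of colour `k`; `SA r l v`: the walk does not meet itself.
The head of the list is the last letter.

* `unaff`: if `a`, `b` (in one cloud) are not in `used r l v k`, the walk for `r.sw k a b` is the same.
  Induction on `l`; for the last letter `k' ≠ k` nothing changes in `nbr`, for `k' = k` one has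
  `nbr (r.sw k a b) k u = swap a b (nbr r k (swap a b u))` (`nbr_sw`), and `u`, `nbr r k u` are both in
  `used`, hence not `a`, `b`.
* `used_closed`: `used r l v k` is closed under `nbr r k`.
* `used_red`: for a reduced word `k :: l` and `SA r l v` the last vertex `wact l v` is not in
  `used r l v k` (its only edge in the walk is the last one, whose colour is the head of `l`, `≠ k`;
  if `l = []` then `used = ∅`).
-/

set_option linter.unusedSectionVars false

open Finset

namespace Pool.Agent.CovT

open Pool.Agent.P325f1f.Dich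

variable {K V C : Type} [DecidableEq K] [DecidableEq V] [DecidableEq C] {cl : V → C}

/-- The visited vertices. -/
def vis (Φ : K → V → V) (r : Rout K V C cl) : List K → V → Finset V
  | [], v => {v}
  | k :: l, v => insert (wact (nbr Φ r) (k :: l) v) (vis Φ r l v)

/-- The ends of the edges of colour `k'` of the walk. -/
def used (Φ : K → V → V) (r : Rout K V C cl) : List K → V → K → Finset V
  | [], _, _ => ∅
  | k :: l, v, k' => if k = k' then
      insert (wact (nbr Φ r) (k :: l) v) (insert (wact (nbr Φ r) l v) (used Φ r l v k'))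
    else used Φ r l v k'

/-- The walk does not meet itself. -/
def SA (Φ : K → V → V) (r : Rout K V C cl) : List K → V → Prop
  | [], _ => True
  | k :: l, v => SA Φ r l v ∧ wact (nbr Φ r) (k :: l) v ∉ vis Φ r l v

theorem card_vis (Φ : K → V → V) (r : Rout K V C cl) (l : List K) (v : V) :
    (vis Φ r l v).card ≤ l.length + 1 := by
  induction l with
  | nil => simp [vis]
  | cons k l ih =>
    rw [vis, List.length_cons]
    exact (card_insert_le _ _).trans (Nat.succ_le_succ ih)

theorem mem_vis (Φ : K → V → V) (r : Rout K V C cl) (l : List K) (v : V) :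
    wact (nbr Φ r) l v ∈ vis Φ r l v := by
  cases l with
  | nil => exact mem_singleton_self _
  | cons k l => exact mem_insert_self _ _

theorem used_subset (Φ : K → V → V) (r : Rout K V C cl) (l : List K) (v : V) (k : K) :
    used Φ r l v k ⊆ vis Φ r l v := by
  induction l with
  | nil => exact empty_subset _
  | cons k' l ih =>
    rw [used, vis]
    split_ifs with h
    · intro u hu
      rw [mem_insert, mem_insert] at hu
      rcases hu with h1 | h1 | h1
      · rw [h1]; exact mem_insert_self _ _
      · rw [h1]; exact mem_insert_of_mem (mem_vis Φ r l v)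
      · exact mem_insert_of_mem (ih h1)
    · exact ih.trans (subset_insert _ _)

theorem nbr_sw (Φ : K → V → V) (r : Rout K V C cl) (k : K) (a b : V) (h : cl a = cl b) (v : V) :
    nbr Φ (r.sw k a b) k v = Equiv.swap a b (nbr Φ r k (Equiv.swap a b v)) := by
  unfold nbr Rout.sw
  rw [dif_pos h]
  simp only [Function.update_self]
  rfl

theorem nbr_sw_ne (Φ : K → V → V) (r : Rout K V C cl) (k k' : K) (hk : k' ≠ k) (a b : V) (v : V) :
    nbr Φ (r.sw k a b) k' v = nbr Φ r k' v := by
  unfold nbr Rout.sw
  split_ifs with h
  · simp only [Function.update_of_ne hk]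
  · rfl

theorem sw_sw (r : Rout K V C cl) (k : K) (a b : V) : (r.sw k a b).sw k a b = r := by
  unfold Rout.sw
  by_cases h : cl a = cl b
  · simp only [dif_pos h]
    refine Rout.ext' _ _ ?_
    simp only [Function.update_self, Function.update_idem, ← mul_assoc, Equiv.swap_mul_self,
      one_mul, Function.update_eq_self]
  · simp only [dif_neg h]

private theorem used_mono (Φ : K → V → V) (r : Rout K V C cl) (k1 : K) (l : List K) (v : V) (k : K) :
    used Φ r l v k ⊆ used Φ r (k1 :: l) v k := by
  rw [used]
  split_ifs
  · exact (subset_insert _ _).trans (subset_insert _ _)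
  · exact Subset.refl _

theorem unaff (Φ : K → V → V) (r : Rout K V C cl) (l : List K) (v : V) (k : K) (a b : V)
    (h : cl a = cl b) (ha : a ∉ used Φ r l v k) (hb : b ∉ used Φ r l v k) :
    wact (nbr Φ (r.sw k a b)) l v = wact (nbr Φ r) l v ∧
      vis Φ (r.sw k a b) l v = vis Φ r l v ∧
      (∀ k', used Φ (r.sw k a b) l v k' = used Φ r l v k') ∧
      (SA Φ (r.sw k a b) l v ↔ SA Φ r l v) := by
  induction l with
  | nil => exact ⟨rfl, rfl, fun _ => rfl, Iff.rfl⟩
  | cons k1 l ih =>
    obtain ⟨i1, i2, i3, i4⟩ := ih (fun h' => ha (used_mono Φ r k1 l v k h'))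
      (fun h' => hb (used_mono Φ r k1 l v k h'))
    have hw : wact (nbr Φ (r.sw k a b)) (k1 :: l) v = wact (nbr Φ r) (k1 :: l) v := by
      change nbr Φ (r.sw k a b) k1 (wact (nbr Φ (r.sw k a b)) l v) =
        nbr Φ r k1 (wact (nbr Φ r) l v)
      rw [i1]
      by_cases hk : k1 = k
      · subst hk
        rw [used, if_pos rfl, mem_insert, mem_insert, not_or, not_or] at ha hb
        rw [nbr_sw Φ r k1 a b h, Equiv.swap_apply_of_ne_of_ne (Ne.symm ha.2.1) (Ne.symm hb.2.1)]
        exact Equiv.swap_apply_of_ne_of_ne (Ne.symm ha.1) (Ne.symm hb.1)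
      · exact nbr_sw_ne Φ r k k1 hk a b _
    refine ⟨hw, ?_, ?_, ?_⟩
    · rw [vis, vis, hw, i2]
    · intro k'
      rw [used, used, hw, i1, i3 k']
    · rw [SA, SA, hw, i2, i4]

theorem used_closed (Φ : K → V → V) (hΦ : ∀ k v, Φ k (Φ k v) = v) (r : Rout K V C cl) (l : List K)
    (v : V) (k : K) (u : V) (hu : u ∈ used Φ r l v k) : nbr Φ r k u ∈ used Φ r l v k := by
  induction l with
  | nil => exact absurd hu (notMem_empty _)
  | cons k1 l ih =>
    rw [used] at hu ⊢
    split_ifs with h
    · rw [if_pos h, mem_insert, mem_insert] at hu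
      subst h
      have hw : wact (nbr Φ r) (k1 :: l) v = nbr Φ r k1 (wact (nbr Φ r) l v) := rfl
      rcases hu with h1 | h1 | h1
      · rw [h1, hw, nbr_nbr Φ hΦ]
        exact mem_insert_of_mem (mem_insert_self _ _)
      · rw [h1]
        exact mem_insert_self _ _
      · exact mem_insert_of_mem (mem_insert_of_mem (ih h1))
    · rw [if_neg h] at hu
      exact ih hu

theorem used_red (Φ : K → V → V) (hΦ : ∀ k v, Φ k (Φ k v) = v) (r : Rout K V C cl) (l : List K)
    (v : V) (k : K) (hred : Red (k :: l)) (hsa : SA Φ r l v) :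
    wact (nbr Φ r) l v ∉ used Φ r l v k := by
  have _ := hΦ
  cases l with
  | nil => exact notMem_empty _
  | cons k1 l =>
    have h1 : k ≠ k1 := hred.1
    rw [used, if_neg (Ne.symm h1)]
    exact fun h2 => hsa.2 (used_subset Φ r l v k h2)

end Pool.Agent.CovT
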