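import Mathlib
import Pool.Agent.Lib.CovT.UsedW

/-!
# CovT.AvoidW (1.5 h): random walks rarely meet themselves

`step_bad`: let `B` be the set of routings with `SA r l v` and `wact (k :: l) v ∈ vis r l v`.
For `r ∈ B` put `y = wact (nbr Φ r) (k :: l) v = nbr Φ r k u`, `u = wact (nbr Φ r) l v`, and take any
`c` in the cloud of `y` outside `vis r l v` (at least `T - (|l| + 1)` choices), `r' = r.sw k y c`.
`u ∉ used r l v k` by `used_red`, so `y ∉ used` (`used_closed` and `nbr_nbr`), `c ∉ vis ⊇ used`; by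
`unaff` the walk of `l` is the same for `r'`. Moreover `u ≠ y` (`nbr_ne`), `u ≠ c`, so by `nbr_sw`
`nbr Φ r' k u = swap y c (nbr Φ r k u) = c`. So `(r, c)` is determined by `r'` and
`y ∈ vis r' l v` (`c = nbr Φ r' k u`, `r = r'.sw k y c`), which gives
`|B| (T - (|l| + 1)) ≤ |Rout| (|l| + 1)`.

`card_not_SA`: union over the suffixes of the word: `∑_{j ≤ m} j / (T - j) ≤ m² / (T - m)`,
induction on `l` (`m = |l|`).
-/

open Finset

namespace Pool.Agent.CovT

open Pool.Agent.P325f1f.Dich

variable {K V C : Type} [Fintype K] [Fintype V] [DecidableEq K] [DecidableEq V] [DecidableEq C]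
  {cl : V → C}

omit [Fintype K] [Fintype V] in
/-- The switched routing sends the last vertex of the walk to the new end. -/
theorem sw_key (Φ : K → V → V) (hΦ : ∀ k v, Φ k (Φ k v) = v) (hΦ' : ∀ k v, Φ k v ≠ v)
    (l : List K) (k : K) (v : V) (hred : Red (k :: l)) (r : Rout K V C cl) (hsa : SA Φ r l v)
    (c : V) (hc : cl c = cl (nbr Φ r k (wact (nbr Φ r) l v))) (hcv : c ∉ vis Φ r l v) :
    wact (nbr Φ (r.sw k (nbr Φ r k (wact (nbr Φ r) l v)) c)) l v = wact (nbr Φ r) l v ∧
    vis Φ (r.sw k (nbr Φ r k (wact (nbr Φ r) l v)) c) l v = vis Φ r l v ∧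
    nbr Φ (r.sw k (nbr Φ r k (wact (nbr Φ r) l v)) c) k (wact (nbr Φ r) l v) = c := by
  have hu : wact (nbr Φ r) l v ∉ used Φ r l v k := used_red Φ hΦ r l v k hred hsa
  have hum : wact (nbr Φ r) l v ∈ vis Φ r l v := mem_vis Φ r l v
  generalize hu0 : wact (nbr Φ r) l v = u at hu hum hc ⊢
  have hy : nbr Φ r k u ∉ used Φ r l v k := by
    intro h
    apply hu
    have h2 := used_closed Φ hΦ r l v k _ h
    rwa [nbr_nbr Φ hΦ] at h2
  have hc2 : c ∉ used Φ r l v k := fun h => hcv (used_subset Φ r l v k h)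
  have hun := unaff Φ r l v k (nbr Φ r k u) c hc.symm hy hc2
  refine ⟨?_, hun.2.1, ?_⟩
  · rw [hun.1, hu0]
  · rw [nbr_sw Φ r k _ c hc.symm]
    have h1 : Equiv.swap (nbr Φ r k u) c u = u := by
      apply Equiv.swap_apply_of_ne_of_ne
      · exact (nbr_ne Φ hΦ' r k u).symm
      · intro h
        apply hcv
        rw [← h]
        exact hum
    rw [h1, Equiv.swap_apply_left]

open Classical in
theorem step_bad (Φ : K → V → V) (hΦ : ∀ k v, Φ k (Φ k v) = v) (hΦ' : ∀ k v, Φ k v ≠ v) (T : ℕ)
    (hT : ∀ v, T ≤ (univ.filter (fun v' => cl v' = cl v)).card) (l : List K) (k : K) (v : V)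
    (hred : Red (k :: l)) (hl : l.length + 1 < T) :
    ((univ.filter (fun r : Rout K V C cl => SA Φ r l v ∧
      wact (nbr Φ r) (k :: l) v ∈ vis Φ r l v)).card : ℝ) * (T - (l.length + 1)) ≤
      (l.length + 1) * Fintype.card (Rout K V C cl) := by
  set B := univ.filter (fun r : Rout K V C cl => SA Φ r l v ∧
      wact (nbr Φ r) (k :: l) v ∈ vis Φ r l v) with hB
  set y : Rout K V C cl → V := fun r => nbr Φ r k (wact (nbr Φ r) l v) with hy
  set D : Rout K V C cl → Finset V := fun r =>
    (univ.filter (fun v' => cl v' = cl (y r))) \ vis Φ r l v with hD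
  have hDcard : ∀ r, T - (l.length + 1) ≤ (D r).card := by
    intro r
    have h1 := Finset.le_card_sdiff (vis Φ r l v) (univ.filter (fun v' => cl v' = cl (y r)))
    have h2 := hT (y r)
    have h3 := card_vis Φ r l v
    simp only [hD]
    omega
  have hsig : (B.sigma D).card ≤ ((univ : Finset (Rout K V C cl)).sigma (fun r' => vis Φ r' l v)).card := by
    apply Finset.card_le_card_of_injOn (fun p => ⟨p.1.sw k (y p.1) p.2, y p.1⟩)
    · rintro ⟨r, c⟩ hp
      rw [Finset.mem_coe, Finset.mem_sigma] at hp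
      obtain ⟨hr, hc⟩ := hp
      simp only [hB, mem_filter, mem_univ, true_and] at hr
      simp only [hD, mem_sdiff, mem_filter, mem_univ, true_and] at hc
      have hk := sw_key Φ hΦ hΦ' l k v hred r hr.1 c hc.1 hc.2
      rw [Finset.mem_coe, Finset.mem_sigma]
      refine ⟨mem_univ _, ?_⟩
      show y r ∈ vis Φ (r.sw k (y r) c) l v
      simp only [hy]
      rw [hk.2.1]
      exact hr.2
    · rintro ⟨r1, c1⟩ hp1 ⟨r2, c2⟩ hp2 heq
      rw [Finset.mem_coe, Finset.mem_sigma] at hp1 hp2
      obtain ⟨hr1, hc1⟩ := hp1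
      obtain ⟨hr2, hc2⟩ := hp2
      simp only [hB, mem_filter, mem_univ, true_and] at hr1 hr2
      simp only [hD, mem_sdiff, mem_filter, mem_univ, true_and] at hc1 hc2
      have hk1 := sw_key Φ hΦ hΦ' l k v hred r1 hr1.1 c1 hc1.1 hc1.2
      have hk2 := sw_key Φ hΦ hΦ' l k v hred r2 hr2.1 c2 hc2.1 hc2.2
      simp only [Sigma.mk.injEq, heq_eq_eq] at heq
      obtain ⟨he1, he2⟩ := heq
      simp only [hy] at he1 he2
      -- the last vertices agree
      have hu : wact (nbr Φ r1) l v = wact (nbr Φ r2) l v := by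
        rw [← hk1.1, ← hk2.1, he1]
      have hcc : c1 = c2 := by
        rw [← hk1.2.2, ← hk2.2.2, he1, hu]
      have hrr : r1 = r2 := by
        rw [← sw_sw r1 k (nbr Φ r1 k (wact (nbr Φ r1) l v)) c1,
          ← sw_sw r2 k (nbr Φ r2 k (wact (nbr Φ r2) l v)) c2, he1, he2, hcc]
      subst hrr
      subst hcc
      rfl
  have h1 : B.card * (T - (l.length + 1)) ≤ (B.sigma D).card := by
    rw [Finset.card_sigma]
    calc B.card * (T - (l.length + 1)) = ∑ r ∈ B, (T - (l.length + 1)) := by
          rw [Finset.sum_const, smul_eq_mul]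
      _ ≤ ∑ r ∈ B, (D r).card := Finset.sum_le_sum (fun r _ => hDcard r)
  have h2 : ((univ : Finset (Rout K V C cl)).sigma (fun r' => vis Φ r' l v)).card ≤
      (l.length + 1) * Fintype.card (Rout K V C cl) := by
    rw [Finset.card_sigma]
    calc ∑ r' : Rout K V C cl, (vis Φ r' l v).card ≤ ∑ r' : Rout K V C cl, (l.length + 1) :=
          Finset.sum_le_sum (fun r _ => card_vis Φ r l v)
      _ = (l.length + 1) * Fintype.card (Rout K V C cl) := by
          rw [Finset.sum_const, smul_eq_mul, Finset.card_univ, mul_comm]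
  have h3 : B.card * (T - (l.length + 1)) ≤ (l.length + 1) * Fintype.card (Rout K V C cl) :=
    h1.trans (hsig.trans h2)
  have h4 : ((T - (l.length + 1) : ℕ) : ℝ) = (T : ℝ) - (l.length + 1) := by
    rw [Nat.cast_sub hl.le]
    push_cast
    ring
  rw [← h4]
  exact_mod_cast h3

open Classical in
theorem card_not_SA (Φ : K → V → V) (hΦ : ∀ k v, Φ k (Φ k v) = v) (hΦ' : ∀ k v, Φ k v ≠ v) (T : ℕ)
    (hT : ∀ v, T ≤ (univ.filter (fun v' => cl v' = cl v)).card) (l : List K) (v : V)
    (hred : Red l) (hl : l.length < T) :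
    ((univ.filter (fun r : Rout K V C cl => ¬ SA Φ r l v)).card : ℝ) ≤
      (l.length : ℝ) ^ 2 / (T - l.length) * Fintype.card (Rout K V C cl) := by
  induction l with
  | nil =>
    have h : (univ.filter (fun r : Rout K V C cl => ¬ SA Φ r [] v)) = ∅ := by
      rw [Finset.filter_eq_empty_iff]
      intro r _ h
      exact h trivial
    rw [h]
    simp
  | cons k l ih =>
    rw [List.length_cons] at hl
    have hred' : Red l := by
      cases l with
      | nil => trivial
      | cons a l => exact hred.2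
    have h1 := ih hred' (by omega)
    have h2 := step_bad Φ hΦ hΦ' T hT l k v hred hl
    set N : ℝ := (Fintype.card (Rout K V C cl) : ℝ) with hN
    have hN0 : 0 ≤ N := Nat.cast_nonneg _
    set b : ℝ := ((univ.filter (fun r : Rout K V C cl => SA Φ r l v ∧
      wact (nbr Φ r) (k :: l) v ∈ vis Φ r l v)).card : ℝ) with hb
    set a : ℝ := ((univ.filter (fun r : Rout K V C cl => ¬ SA Φ r l v)).card : ℝ) with ha
    have h3 : ((univ.filter (fun r : Rout K V C cl => ¬ SA Φ r (k :: l) v)).card : ℝ) ≤ a + b := by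
      rw [ha, hb]
      rw [← Nat.cast_add]
      apply Nat.cast_le.2
      refine le_trans (Finset.card_le_card ?_) (Finset.card_union_le _ _)
      intro r hr
      simp only [mem_filter, mem_univ, true_and, mem_union] at hr ⊢
      by_cases h : SA Φ r l v
      · right
        refine ⟨h, ?_⟩
        by_contra h'
        exact hr ⟨h, h'⟩
      · left
        exact h
    refine h3.trans ?_
    rw [List.length_cons]
    push_cast
    set m : ℝ := (l.length : ℝ) with hm
    have hm0 : 0 ≤ m := Nat.cast_nonneg _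
    have hTm : m + 1 < (T : ℝ) := by
      have : ((l.length + 1 : ℕ) : ℝ) < (T : ℝ) := Nat.cast_lt.2 hl
      push_cast at this
      exact this
    have hd : 0 < (T : ℝ) - (m + 1) := by linarith
    have hd' : 0 < (T : ℝ) - m := by linarith
    have hb2 : b ≤ (m + 1) / (T - (m + 1)) * N := by
      rw [div_mul_eq_mul_div, le_div_iff₀ hd]
      exact h2
    have ha2 : a ≤ m ^ 2 / (T - (m + 1)) * N := by
      refine h1.trans ?_
      apply mul_le_mul_of_nonneg_right _ hN0
      apply div_le_div_of_nonneg_left (by positivity) hd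
      linarith
    calc a + b ≤ m ^ 2 / (T - (m + 1)) * N + (m + 1) / (T - (m + 1)) * N := add_le_add ha2 hb2
      _ = (m ^ 2 + (m + 1)) / (T - (m + 1)) * N := by ring
      _ ≤ (m + 1) ^ 2 / (T - (m + 1)) * N := by
          apply mul_le_mul_of_nonneg_right _ hN0
          apply div_le_div_of_nonneg_right _ hd.le
          nlinarith

end Pool.Agent.CovT
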