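import Mathlib
import Pool.Agent.Lib.CovT.Defs
import Pool.Agent.Lib.P325d.Sound

/-!
# The first moment tests

Partial labelings `gL : PL → H → Option Ω`, `gR : PR → H → Option Ω` of the vertices of the covering.
The label frequencies `freq` are in `Pool/Agent/Lib/P325d/Profile.lean`, `Sat` in
`Pool/Agent/Lib/P325d/Moment.lean`, `cw` in `Pool/Agent/Lib/P325d/Sound.lean`.
-/

open Finset

namespace Pool.Agent.CovT

open Pool.Agent.P325f1f.Dich Pool.Agent.P325d

variable {K H C Ω PL PR : Type} [Fintype K] [Fintype H] [Fintype Ω] [Fintype PL] [Fintype PR]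
  [DecidableEq C] [DecidableEq Ω]

/-- The clouds of the slots on the side `b`. -/
def cs {H C : Type} (cl : Bool × H → C) (b : Bool) (h : H) : C := cl (b, h)

/-- The weight of a pair of partial labelings. -/
noncomputable def wt (cl : Bool × H → C) (gL : PL → H → Option Ω) (gR : PR → H → Option Ω) : ℝ :=
  (∏ p, ∏ h, freq (cs cl false) (gL p) (cs cl false h) (gL p h)) *
    ∏ p, ∏ h, freq (cs cl true) (gR p) (cs cl true h) (gR p h)

/-- The expected number of satisfied edges if all labels are resampled inside their clouds. -/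
noncomputable def dens (cl : Bool × H → C) (s : K → PL) (d : K → PR) (σ : K → Equiv.Perm Ω)
    (φ : K → Equiv.Perm H) (gL : PL → H → Option Ω) (gR : PR → H → Option Ω) : ℝ :=
  ∑ q : K × H, ∑ ω, freq (cs cl false) (gL (s q.1)) (cs cl false q.2) (some ω) *
    freq (cs cl true) (gR (d q.1)) (cs cl true (φ q.1 q.2)) (some (σ q.1 ω))

open Classical in
/-- The test for light labels. -/
noncomputable def testL (cl : Bool × H → C) (s : K → PL) (d : K → PR) (σ : K → Equiv.Perm Ω)
    (φ : K → Equiv.Perm H) (gL : PL → H → Option Ω) (gR : PR → H → Option Ω)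
    (r : Rout K (Bool × H) C cl) : ℝ :=
  ∏ q : K × H, (1 + if Sat (σ q.1) (gL (s q.1) (half r q.1 false q.2))
      (gR (d q.1) (half r q.1 true (φ q.1 q.2))) then
    (min (freq (cs cl false) (gL (s q.1)) (cs cl false q.2) (gL (s q.1) (half r q.1 false q.2)))
      (freq (cs cl true) (gR (d q.1)) (cs cl true (φ q.1 q.2))
        (gR (d q.1) (half r q.1 true (φ q.1 q.2)))))⁻¹ else 0)

open Classical in
/-- The test for heavy labels. -/
noncomputable def testH (s : K → PL) (d : K → PR) (σ : K → Equiv.Perm Ω)
    (φ : K → Equiv.Perm H) (gL : PL → H → Option Ω) (gR : PR → H → Option Ω) (B : ℝ)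
    {cl : Bool × H → C} (r : Rout K (Bool × H) C cl) : ℝ :=
  ∏ q : K × H, (1 + if Sat (σ q.1) (gL (s q.1) (half r q.1 false q.2))
      (gR (d q.1) (half r q.1 true (φ q.1 q.2))) then B else 0)

/-- The number of possible positions. -/
noncomputable def total (K : Type) [Fintype K] (cl : Bool × H → C) (φ : K → Equiv.Perm H) : ℝ :=
  ∏ q : K × H, ((num (cs cl false) (cs cl false q.2) : ℝ) *
    (num (cs cl true) (cs cl true (φ q.1 q.2)) : ℝ))

/-- A routing passes both tests for all partial labelings. -/
def Good {cl : Bool × H → C} (s : K → PL) (d : K → PR) (σ : K → Equiv.Perm Ω)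
    (φ : K → Equiv.Perm H) (Kc δ : ℝ) (r : Rout K (Bool × H) C cl) : Prop :=
  ∀ (gL : PL → H → Option Ω) (gR : PR → H → Option Ω),
    wt cl gL gR * testL cl s d σ φ gL gR r < Real.exp Kc ∧
    (dens cl s d σ φ gL gR ≤ δ * (Fintype.card K * Fintype.card H) →
      wt cl gL gR * testH s d σ φ gL gR (1 / δ) r < Real.exp Kc)

/-- Erase the labels that are not kept: `kp c a` says that the label `a` is kept in the cloud `c`. -/
noncomputable def er {H C Ω : Type} (c0 : H → C) (kp : C → Ω → Prop) (x : H → Ω) (h : H) : Option Ω := by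
  classical
  exact if kp (c0 h) (x h) then some (x h) else none

end Pool.Agent.CovT
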