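import Mathlib
import Pool.Agent.Lib.CovT.Tests
import Pool.Agent.Lib.P325d.Count

/-!
# CovT.CountT (0.8 h): the number of routings

`P325d.one_side` (file `Pool/Agent/Lib/P325d/Count.lean`) applied to `S := Bool × H`, `f := cl`:
`∏ v, num cl (cl v) ≤ exp (2 |H|) * #{g : Perm (Bool × H) // cl ∘ g = cl}`. `Rout` is equivalent to
`K → {g : Perm (Bool × H) // cl ∘ g = cl}`, so `|Rout| = (#{g // ..}) ^ |K|`. Finally
`total K cl φ = (∏ v, num cl (cl v)) ^ |K|`: for fixed `k` the product over `h` of
`num (cs cl false) (cs cl false h) * num (cs cl true) (cs cl true (φ k h))` is, by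
`Equiv.prod_comp (φ k)`, the product over `v : Bool × H` of `num cl (cl v)`, because
`num cl (cl (b, h)) = num (cs cl b) (cs cl b h)` by `hs` (clouds know the side).
-/

open Finset

namespace Pool.Agent.CovT

open Pool.Agent.P325f1f.Dich Pool.Agent.P325d

variable {K H C : Type} [Fintype K] [Fintype H] [Fintype C] [DecidableEq C] [DecidableEq H]

/-- Routings are families of stabilising permutations. -/
def CountT_equiv {K V C : Type} (cl : V → C) :
    Rout K V C cl ≃ (K → {g : Equiv.Perm V // cl ∘ g = cl}) where
  toFun r := fun k => ⟨r.g k, funext (r.keep k)⟩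
  invFun p := ⟨fun k => (p k).1, fun k v => congrFun (p k).2 v⟩
  left_inv r := by cases r; rfl
  right_inv p := by rfl

/-- The number of half-edges of a cloud. -/
theorem CountT_num {H C : Type} [Fintype H] [DecidableEq C] {cl : Bool × H → C}
    (hs : ∀ v v', cl v = cl v' → v.1 = v'.1) (b : Bool) (h : H) :
    num cl (cl (b, h)) = num (cs cl b) (cs cl b h) := by
  classical
  unfold num
  have e : (univ.filter (fun v : Bool × H => cl v = cl (b, h))) =
      (univ.filter (fun h' : H => cs cl b h' = cs cl b h)).image (fun h' => (b, h')) := by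
    ext v
    simp only [mem_filter, mem_univ, true_and, mem_image]
    constructor
    · intro hv
      have h1 : v.1 = b := hs _ _ hv
      refine ⟨v.2, ?_, Prod.ext h1.symm rfl⟩
      have h2 : (b, v.2) = v := Prod.ext h1.symm rfl
      show cl (b, v.2) = cl (b, h)
      rw [h2, hv]
    · rintro ⟨h', h1, rfl⟩
      exact h1
  rw [e, card_image_of_injective _ (fun a a' h => (Prod.mk.inj h).2)]

theorem total_le {cl : Bool × H → C} (hs : ∀ v v', cl v = cl v' → v.1 = v'.1)
    (φ : K → Equiv.Perm H) :
    total K cl φ ≤ Real.exp (2 * (Fintype.card K * Fintype.card H)) *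
      (Fintype.card (Rout K (Bool × H) C cl) : ℝ) := by
  classical
  have h1 := one_side cl
  have h2 : (Fintype.card (Bool × H) : ℝ) = 2 * Fintype.card H := by
    rw [Fintype.card_prod, Fintype.card_bool]
    push_cast
    ring
  rw [h2] at h1
  have h3 : (Fintype.card (Rout K (Bool × H) C cl) : ℝ) =
      (Fintype.card {g : Equiv.Perm (Bool × H) // cl ∘ g = cl} : ℝ) ^ Fintype.card K := by
    rw [Fintype.card_congr (CountT_equiv cl), Fintype.card_fun]
    push_cast
    rfl
  have h4 : total K cl φ = (∏ v : Bool × H, (num cl (cl v) : ℝ)) ^ Fintype.card K := by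
    unfold total
    rw [Fintype.prod_prod_type, ← card_univ, ← prod_const]
    refine prod_congr rfl (fun k _ => ?_)
    rw [prod_mul_distrib, Equiv.prod_comp (φ k)
      (fun h => (num (cs cl true) (cs cl true h) : ℝ)), Fintype.prod_prod_type,
      Fintype.prod_bool, mul_comm]
    congr 1
    · exact prod_congr rfl (fun h _ => by rw [CountT_num hs])
    · exact prod_congr rfl (fun h _ => by rw [CountT_num hs])
  have h5 : Real.exp (2 * (Fintype.card K * Fintype.card H)) =
      Real.exp (2 * Fintype.card H) ^ Fintype.card K := by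
    rw [← Real.exp_nat_mul]
    congr 1
    ring
  rw [h3, h4, h5, ← mul_pow]
  exact pow_le_pow_left₀ (prod_nonneg (fun _ _ => Nat.cast_nonneg _)) h1 _

end Pool.Agent.CovT
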