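import Mathlib
import Pool.Agent.Lib.CovT.Tests

/-!
# CovT.MomentT (1.5 h): first moment bounds for random routings

Adapt `Pool/Agent/Lib/P325d/Moment.lean` (`routing_sum`, `slot_sum`, `pair_sum`, `moment_light`,
`moment_heavy`, the lemmas `sum_sat`, `sum_min_le` there are reusable) to routings `Rout`.

* `rout_sum`: the map `r ↦ (q ↦ (half r q.1 false q.2, half r q.1 true (φ q.1 q.2)))` is injective
  on `Rout` (it determines `r.g`, because `φ q.1` is surjective and `half_eq`), its values lie in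
  the product over `q` of `{y | cl (false, y) = cl (false, q.2)} × {y | cl (true, y) =
  cl (true, φ q.1 q.2)}` by `half_cl`; then `Finset.prod_univ_sum` and
  `sum_le_sum_of_subset_of_nonneg`, exactly as in `P325d.routing_sum`.
* `sum over y with c0 y = c of f (g y) = num c0 c * sum over a of freq c0 g c a * f a`
  (proof as `P325d.slot_sum`, simpler: no factor `d`).
* `momentL`: every factor is at most `3 *` (number of positions): `sum_sat` and `sum_min_le`.
* `momentH`: every factor is `(number of positions) * (1 + B * dens_q)`, `1 + u ≤ exp u`.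
-/

open Finset

namespace Pool.Agent.CovT

open Pool.Agent.P325f1f.Dich Pool.Agent.P325d

variable {K H C Ω PL PR : Type} [Fintype K] [Fintype H] [Fintype Ω] [Fintype PL] [Fintype PR]
  [DecidableEq C] [DecidableEq Ω]

namespace MomentTAux

theorem slot_sumT {c0 : H → C} {A : Type} [Fintype A] [DecidableEq A] (g : H → A) (c : C) (f : A → ℝ) :
    ∑ y ∈ univ.filter (fun y => c0 y = c), f (g y) =
      (num c0 c : ℝ) * ∑ a, freq c0 g c a * f a := by
  rw [← Finset.sum_fiberwise _ (fun y : H => g y), mul_sum]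
  refine sum_congr rfl (fun a _ => ?_)
  rw [filter_filter]
  have h1 : ∀ y ∈ univ.filter (fun y : H => c0 y = c ∧ g y = a), f (g y) = f a := by
    intro y hy
    rw [(mem_filter.1 hy).2.2]
  rw [sum_congr rfl h1, sum_const, nsmul_eq_mul]
  have h2 : (univ.filter (fun y : H => c0 y = c ∧ g y = a)).card = cnt c0 g c a := rfl
  rw [h2]
  unfold freq
  rcases Nat.eq_zero_or_pos (num c0 c) with h0 | hpos
  · have h4 : cnt c0 g c a = 0 := Nat.le_zero.1 (h0 ▸ cnt_le_num _ _ _ _)
    rw [h0, h4]
    simp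
  · have : ((num c0 c : ℕ) : ℝ) ≠ 0 := by positivity
    field_simp

end MomentTAux

theorem rout_sum {cl : Bool × H → C} (hs : ∀ v v', cl v = cl v' → v.1 = v'.1)
    (φ : K → Equiv.Perm H) (F : K × H → H → H → ℝ) (hF : ∀ q y y', 0 ≤ F q y y') :
    ∑ r : Rout K (Bool × H) C cl, ∏ q : K × H,
      F q (half r q.1 false q.2) (half r q.1 true (φ q.1 q.2)) ≤
    ∏ q : K × H, ∑ y ∈ univ.filter (fun y => cs cl false y = cs cl false q.2),
      ∑ y' ∈ univ.filter (fun y' => cs cl true y' = cs cl true (φ q.1 q.2)), F q y y' := by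
  classical
  have h0 : ∀ q : K × H, ∑ y ∈ univ.filter (fun y => cs cl false y = cs cl false q.2),
      ∑ y' ∈ univ.filter (fun y' => cs cl true y' = cs cl true (φ q.1 q.2)), F q y y' =
      ∑ z ∈ (univ.filter (fun y => cs cl false y = cs cl false q.2)) ×ˢ
        (univ.filter (fun y' => cs cl true y' = cs cl true (φ q.1 q.2))), F q z.1 z.2 := by
    intro q
    rw [Finset.sum_product]
  rw [prod_congr rfl (fun q _ => h0 q), Finset.prod_univ_sum]
  let e : Rout K (Bool × H) C cl → (K × H → H × H) :=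
    fun r q => (half r q.1 false q.2, half r q.1 true (φ q.1 q.2))
  have he : Function.Injective e := by
    intro r r' hr
    apply Rout.ext'
    funext k
    ext1 v
    obtain ⟨b, h⟩ := v
    rw [half_eq hs, half_eq hs]
    congr 1
    cases b
    · exact congrArg Prod.fst (congrFun hr (k, h))
    · have h1 := congrArg Prod.snd (congrFun hr (k, (φ k).symm h))
      have h2 : half r k true (φ k ((φ k).symm h)) = half r' k true (φ k ((φ k).symm h)) := h1
      rwa [Equiv.apply_symm_apply] at h2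
  have h1 : ∑ r : Rout K (Bool × H) C cl, ∏ q : K × H,
      F q (half r q.1 false q.2) (half r q.1 true (φ q.1 q.2)) =
      ∑ x ∈ univ.image e, ∏ q, F q (x q).1 (x q).2 := by
    rw [sum_image (fun a _ b _ hab => he hab)]
  rw [h1]
  refine sum_le_sum_of_subset_of_nonneg ?_ (fun x _ _ => prod_nonneg (fun q _ => hF _ _ _))
  intro x hx
  obtain ⟨r, _, rfl⟩ := mem_image.1 hx
  rw [Fintype.mem_piFinset]
  intro q
  simp only [mem_product, mem_filter, mem_univ, true_and, e]
  exact ⟨half_cl hs r q.1 false q.2, half_cl hs r q.1 true (φ q.1 q.2)⟩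

namespace MomentTAux

omit [Fintype K] in
theorem pair_sumT {cl : Bool × H → C} (φ : K → Equiv.Perm H) (q : K × H) (a0 b0 : H → Option Ω)
    (G : Option Ω → Option Ω → ℝ) :
    ∑ y ∈ univ.filter (fun y => cs cl false y = cs cl false q.2),
      ∑ y' ∈ univ.filter (fun y' => cs cl true y' = cs cl true (φ q.1 q.2)), G (a0 y) (b0 y') =
      ((num (cs cl false) (cs cl false q.2) : ℝ) * (num (cs cl true) (cs cl true (φ q.1 q.2)) : ℝ)) *
      ∑ a, freq (cs cl false) a0 (cs cl false q.2) a *
        ∑ b, freq (cs cl true) b0 (cs cl true (φ q.1 q.2)) b * G a b := by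
  have h1 : ∀ y ∈ univ.filter (fun y => cs cl false y = cs cl false q.2),
      ∑ y' ∈ univ.filter (fun y' => cs cl true y' = cs cl true (φ q.1 q.2)), G (a0 y) (b0 y') =
      (fun a => (num (cs cl true) (cs cl true (φ q.1 q.2)) : ℝ) *
        ∑ b, freq (cs cl true) b0 (cs cl true (φ q.1 q.2)) b * G a b) (a0 y) := by
    intro y _
    exact slot_sumT b0 (cs cl true (φ q.1 q.2)) (fun b => G (a0 y) b)
  rw [sum_congr rfl h1, slot_sumT a0 (cs cl false q.2)
    (fun a => (num (cs cl true) (cs cl true (φ q.1 q.2)) : ℝ) *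
        ∑ b, freq (cs cl true) b0 (cs cl true (φ q.1 q.2)) b * G a b), mul_assoc]
  congr 1
  rw [mul_sum]
  refine sum_congr rfl (fun a _ => ?_)
  ring

omit [Fintype K] in
theorem pair_cardT {cl : Bool × H → C} (φ : K → Equiv.Perm H) (q : K × H) :
    ∑ y ∈ univ.filter (fun y => cs cl false y = cs cl false q.2),
      ∑ y' ∈ univ.filter (fun y' => cs cl true y' = cs cl true (φ q.1 q.2)), (1 : ℝ) =
      (num (cs cl false) (cs cl false q.2) : ℝ) * (num (cs cl true) (cs cl true (φ q.1 q.2)) : ℝ) := by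
  simp only [sum_const, nsmul_eq_mul, mul_one]
  rfl

end MomentTAux

open MomentTAux

theorem momentL {cl : Bool × H → C} (hs : ∀ v v', cl v = cl v' → v.1 = v'.1)
    (s : K → PL) (d : K → PR) (σ : K → Equiv.Perm Ω) (φ : K → Equiv.Perm H)
    (gL : PL → H → Option Ω) (gR : PR → H → Option Ω) :
    ∑ r : Rout K (Bool × H) C cl, testL cl s d σ φ gL gR r ≤
      3 ^ (Fintype.card K * Fintype.card H) * total K cl φ := by
  classical
  set G : K × H → Option Ω → Option Ω → ℝ := fun q a b =>
    (if Sat (σ q.1) a b then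
      (min (freq (cs cl false) (gL (s q.1)) (cs cl false q.2) a)
        (freq (cs cl true) (gR (d q.1)) (cs cl true (φ q.1 q.2)) b))⁻¹ else 0) with hG
  have hG0 : ∀ q a b, 0 ≤ G q a b := by
    intro q a b
    rw [hG]
    dsimp only
    split_ifs
    · exact inv_nonneg.2 (le_min (freq_nonneg _ _ _ _) (freq_nonneg _ _ _ _))
    · exact le_rfl
  have hkey := rout_sum hs φ (fun q y y' => 1 + G q (gL (s q.1) y) (gR (d q.1) y'))
    (fun q y y' => by linarith [hG0 q (gL (s q.1) y) (gR (d q.1) y')])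
  have e0 : ∀ r : Rout K (Bool × H) C cl, testL cl s d σ φ gL gR r =
      ∏ q : K × H, (1 + G q (gL (s q.1) (half r q.1 false q.2)) (gR (d q.1) (half r q.1 true (φ q.1 q.2)))) := by
    intro r
    unfold testL
    refine prod_congr rfl (fun q _ => ?_)
    rw [hG]
  rw [sum_congr rfl (fun r _ => e0 r)]
  refine hkey.trans ?_
  have h3 : (3 : ℝ) ^ (Fintype.card K * Fintype.card H) = ∏ _q : K × H, (3 : ℝ) := by
    rw [prod_const, card_univ, Fintype.card_prod]
  rw [h3, total, ← prod_mul_distrib]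
  refine prod_le_prod (fun q _ => sum_nonneg (fun y _ => sum_nonneg fun y' _ => by
    linarith [hG0 q (gL (s q.1) y) (gR (d q.1) y')])) (fun q _ => ?_)
  simp only [sum_add_distrib]
  rw [pair_cardT φ q, pair_sumT φ q (gL (s q.1)) (gR (d q.1)) (G q)]
  have h4 : ∑ a, freq (cs cl false) (gL (s q.1)) (cs cl false q.2) a *
        ∑ b, freq (cs cl true) (gR (d q.1)) (cs cl true (φ q.1 q.2)) b * G q a b ≤ 2 := by
    rw [hG]
    dsimp only
    rw [sum_sat (σ q.1) _ _ (fun a b =>
      (min (freq (cs cl false) (gL (s q.1)) (cs cl false q.2) a)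
        (freq (cs cl true) (gR (d q.1)) (cs cl true (φ q.1 q.2)) b))⁻¹)]
    exact sum_min_le (σ q.1) _ _ (fun a => freq_nonneg _ _ _ _) (fun a => freq_nonneg _ _ _ _)
      (sum_freq_le_one _ _ _) (sum_freq_le_one _ _ _)
  have h5 : (0 : ℝ) ≤ (num (cs cl false) (cs cl false q.2) : ℝ) *
      (num (cs cl true) (cs cl true (φ q.1 q.2)) : ℝ) := by positivity
  nlinarith [mul_le_mul_of_nonneg_left h4 h5]

theorem momentH {cl : Bool × H → C} (hs : ∀ v v', cl v = cl v' → v.1 = v'.1)
    (s : K → PL) (d : K → PR) (σ : K → Equiv.Perm Ω) (φ : K → Equiv.Perm H)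
    (gL : PL → H → Option Ω) (gR : PR → H → Option Ω) (B : ℝ) (hB : 0 ≤ B) :
    ∑ r : Rout K (Bool × H) C cl, testH s d σ φ gL gR B r ≤
      Real.exp (B * dens cl s d σ φ gL gR) * total K cl φ := by
  classical
  set G : K × H → Option Ω → Option Ω → ℝ := fun q a b =>
    (if Sat (σ q.1) a b then B else 0) with hG
  have hG0 : ∀ q a b, 0 ≤ G q a b := by
    intro q a b
    rw [hG]
    dsimp only
    split_ifs
    · exact hB
    · exact le_rfl
  set R : K × H → ℝ := fun q => ∑ ω, freq (cs cl false) (gL (s q.1)) (cs cl false q.2) (some ω) *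
    freq (cs cl true) (gR (d q.1)) (cs cl true (φ q.1 q.2)) (some (σ q.1 ω)) with hR
  have hkey := rout_sum hs φ (fun q y y' => 1 + G q (gL (s q.1) y) (gR (d q.1) y'))
    (fun q y y' => by linarith [hG0 q (gL (s q.1) y) (gR (d q.1) y')])
  have e0 : ∀ r : Rout K (Bool × H) C cl, testH s d σ φ gL gR B r =
      ∏ q : K × H, (1 + G q (gL (s q.1) (half r q.1 false q.2)) (gR (d q.1) (half r q.1 true (φ q.1 q.2)))) := by
    intro r
    unfold testH
    refine prod_congr rfl (fun q _ => ?_)
    rw [hG]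
  rw [sum_congr rfl (fun r _ => e0 r)]
  refine hkey.trans ?_
  have h3 : Real.exp (B * dens cl s d σ φ gL gR) = ∏ q : K × H, Real.exp (B * R q) := by
    rw [← Real.exp_sum]
    congr 1
    rw [dens, mul_sum]
  rw [h3, total, ← prod_mul_distrib]
  refine prod_le_prod (fun q _ => sum_nonneg (fun y _ => sum_nonneg fun y' _ => by
    linarith [hG0 q (gL (s q.1) y) (gR (d q.1) y')])) (fun q _ => ?_)
  simp only [sum_add_distrib]
  rw [pair_cardT φ q, pair_sumT φ q (gL (s q.1)) (gR (d q.1)) (G q)]
  have h4 : ∑ a, freq (cs cl false) (gL (s q.1)) (cs cl false q.2) a *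
        ∑ b, freq (cs cl true) (gR (d q.1)) (cs cl true (φ q.1 q.2)) b * G q a b = B * R q := by
    rw [hG]
    dsimp only
    rw [sum_sat (σ q.1) _ _ (fun a b => B), hR]
    dsimp only
    rw [mul_sum]
    exact sum_congr rfl (fun ω _ => mul_comm _ _)
  rw [h4]
  have h5 : (0 : ℝ) ≤ (num (cs cl false) (cs cl false q.2) : ℝ) *
      (num (cs cl true) (cs cl true (φ q.1 q.2)) : ℝ) := by positivity
  have h6 := Real.add_one_le_exp (B * R q)
  nlinarith [mul_le_mul_of_nonneg_left h6 h5]

end Pool.Agent.CovT
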