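import Mathlib
import Pool.Agent.Lib.CovT.MomentT
import Pool.Agent.Lib.CovT.CountT

/-!
# CovT.BadT (1 h): most routings are good

Adapt the proof of `P325d.card_bad` (file `Pool/Agent/Lib/P325d/Union.lean`), which is the same
argument with one more union (over all constraints), not needed here. The indicator of a bad routing
is at most `exp (-Kc) * ∑ gL, ∑ gR, wt gL gR * (testL r + [dens ≤ δ |K| |H|] testH (1/δ) r)`. Sum
over `r`: `momentL` (`3 ≤ exp 2`), `momentH` (`exp (1/δ * dens) ≤ exp (|K| |H|)`), then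
`total_le`. The sum of `wt` over all `gL`, `gR` factorises (`Finset.prod_univ_sum`,
`Fintype.piFinset_univ`) into `|PL|` factors `≤ exp |H|` and `|PR|` factors `≤ exp |H|` (`hL`, `hR`).
Total: `exp (-Kc) * 2 * exp ((|PL| + |PR|) |H|) * exp (2 |K| |H|) * exp (2 |K| |H|) * |Rout|`, and
`2 ≤ exp 1`.
-/

open Finset

namespace Pool.Agent.CovT

open Pool.Agent.P325f1f.Dich Pool.Agent.P325d

variable {K H C Ω PL PR : Type} [Fintype K] [Fintype H] [Fintype Ω] [Fintype PL] [Fintype PR]
  [Fintype C] [DecidableEq C] [DecidableEq Ω] [DecidableEq H] [DecidableEq PL] [DecidableEq PR]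

theorem wt_nonneg' (cl : Bool × H → C) (gL : PL → H → Option Ω) (gR : PR → H → Option Ω) :
    0 ≤ wt cl gL gR := by
  unfold wt
  exact mul_nonneg (prod_nonneg fun _ _ => prod_nonneg fun _ _ => freq_nonneg _ _ _ _)
    (prod_nonneg fun _ _ => prod_nonneg fun _ _ => freq_nonneg _ _ _ _)

theorem testL_nonneg' {cl : Bool × H → C} (s : K → PL) (d : K → PR) (σ : K → Equiv.Perm Ω)
    (φ : K → Equiv.Perm H) (gL : PL → H → Option Ω) (gR : PR → H → Option Ω)
    (r : Rout K (Bool × H) C cl) : 0 ≤ testL cl s d σ φ gL gR r := by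
  unfold testL
  refine prod_nonneg fun q _ => ?_
  split_ifs
  · exact add_nonneg zero_le_one (inv_nonneg.2 (le_min (freq_nonneg _ _ _ _) (freq_nonneg _ _ _ _)))
  · norm_num

theorem testH_nonneg' {cl : Bool × H → C} (s : K → PL) (d : K → PR) (σ : K → Equiv.Perm Ω)
    (φ : K → Equiv.Perm H) (gL : PL → H → Option Ω) (gR : PR → H → Option Ω) (B : ℝ) (hB : 0 ≤ B)
    (r : Rout K (Bool × H) C cl) : 0 ≤ testH s d σ φ gL gR B r := by
  unfold testH
  refine prod_nonneg fun q _ => ?_
  split_ifs
  · exact add_nonneg zero_le_one hB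
  · norm_num

theorem total_nonneg' (cl : Bool × H → C) (φ : K → Equiv.Perm H) : 0 ≤ total K cl φ := by
  unfold total
  exact prod_nonneg fun _ _ => mul_nonneg (Nat.cast_nonneg _) (Nat.cast_nonneg _)

/-- the sum of the weights of all pairs of labelings -/
theorem sum_wt (cl : Bool × H → C)
    (hL : ∑ g : H → Option Ω, ∏ h, freq (cs cl false) g (cs cl false h) (g h) ≤
      Real.exp (Fintype.card H))
    (hR : ∑ g : H → Option Ω, ∏ h, freq (cs cl true) g (cs cl true h) (g h) ≤
      Real.exp (Fintype.card H)) :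
    ∑ gL : PL → H → Option Ω, ∑ gR : PR → H → Option Ω, wt cl gL gR ≤
      Real.exp ((Fintype.card PL + Fintype.card PR) * Fintype.card H) := by
  have h1 : ∑ gL : PL → H → Option Ω, ∑ gR : PR → H → Option Ω, wt cl gL gR =
      (∑ gL : PL → H → Option Ω, ∏ p, ∏ h, freq (cs cl false) (gL p) (cs cl false h) (gL p h)) *
      ∑ gR : PR → H → Option Ω, ∏ p, ∏ h, freq (cs cl true) (gR p) (cs cl true h) (gR p h) := by
    rw [sum_mul_sum]
    rfl
  have h2 : ∑ gL : PL → H → Option Ω, ∏ p, ∏ h, freq (cs cl false) (gL p) (cs cl false h)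
      (gL p h) = (∑ g : H → Option Ω, ∏ h, freq (cs cl false) g (cs cl false h) (g h)) ^
        Fintype.card PL := by
    have := Finset.prod_univ_sum (fun _ : PL => (univ : Finset (H → Option Ω)))
      (fun _ g => ∏ h, freq (cs cl false) g (cs cl false h) (g h))
    rw [Fintype.piFinset_univ, prod_const, card_univ] at this
    exact this.symm
  have h3 : ∑ gR : PR → H → Option Ω, ∏ p, ∏ h, freq (cs cl true) (gR p) (cs cl true h)
      (gR p h) = (∑ g : H → Option Ω, ∏ h, freq (cs cl true) g (cs cl true h) (g h)) ^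
        Fintype.card PR := by
    have := Finset.prod_univ_sum (fun _ : PR => (univ : Finset (H → Option Ω)))
      (fun _ g => ∏ h, freq (cs cl true) g (cs cl true h) (g h))
    rw [Fintype.piFinset_univ, prod_const, card_univ] at this
    exact this.symm
  have h4 : 0 ≤ ∑ g : H → Option Ω, ∏ h, freq (cs cl false) g (cs cl false h) (g h) :=
    sum_nonneg fun _ _ => prod_nonneg fun _ _ => freq_nonneg _ _ _ _
  have h5 : 0 ≤ ∑ g : H → Option Ω, ∏ h, freq (cs cl true) g (cs cl true h) (g h) :=
    sum_nonneg fun _ _ => prod_nonneg fun _ _ => freq_nonneg _ _ _ _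
  rw [h1, h2, h3]
  calc _ ≤ Real.exp (Fintype.card H) ^ Fintype.card PL * Real.exp (Fintype.card H) ^
        Fintype.card PR := mul_le_mul (pow_le_pow_left₀ h4 hL _) (pow_le_pow_left₀ h5 hR _)
          (pow_nonneg h5 _) (pow_nonneg (Real.exp_pos _).le _)
    _ = _ := by
        rw [← Real.exp_nat_mul, ← Real.exp_nat_mul, ← Real.exp_add]
        congr 1
        ring

open Classical in
theorem card_not_good {cl : Bool × H → C} (hs : ∀ v v', cl v = cl v' → v.1 = v'.1)
    (s : K → PL) (d : K → PR) (σ : K → Equiv.Perm Ω) (φ : K → Equiv.Perm H) (Kc δ : ℝ)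
    (hδ : 0 < δ)
    (hL : ∑ g : H → Option Ω, ∏ h, freq (cs cl false) g (cs cl false h) (g h) ≤
      Real.exp (Fintype.card H))
    (hR : ∑ g : H → Option Ω, ∏ h, freq (cs cl true) g (cs cl true h) (g h) ≤
      Real.exp (Fintype.card H)) :
    ((univ.filter (fun r : Rout K (Bool × H) C cl => ¬ Good s d σ φ Kc δ r)).card : ℝ) ≤
      Real.exp (1 + (4 * Fintype.card K + Fintype.card PL + Fintype.card PR) * Fintype.card H - Kc) *
        Fintype.card (Rout K (Bool × H) C cl) := by
  set X : ℝ := Fintype.card K * Fintype.card H with hX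
  have hX0 : 0 ≤ X := by positivity
  have hinv : 0 ≤ 1 / δ := by positivity
  set maj : (PL → H → Option Ω) → (PR → H → Option Ω) → Rout K (Bool × H) C cl → ℝ :=
    fun gL gR r => wt cl gL gR * (testL cl s d σ φ gL gR r +
      (if dens cl s d σ φ gL gR ≤ δ * X then testH s d σ φ gL gR (1 / δ) r else 0)) with hmaj
  have hmaj0 : ∀ gL gR r, 0 ≤ maj gL gR r := by
    intro gL gR r
    rw [hmaj]
    refine mul_nonneg (wt_nonneg' _ _ _) (add_nonneg (testL_nonneg' _ _ _ _ _ _ _) ?_)
    split_ifs
    · exact testH_nonneg' _ _ _ _ _ _ _ hinv _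
    · exact le_rfl
  have h1 : ∀ r : Rout K (Bool × H) C cl, (if ¬ Good s d σ φ Kc δ r then (1 : ℝ) else 0) ≤
      (Real.exp Kc)⁻¹ * ∑ gL, ∑ gR, maj gL gR r := by
    intro r
    have hsum0 : 0 ≤ ∑ gL, ∑ gR, maj gL gR r :=
      sum_nonneg (fun _ _ => sum_nonneg (fun _ _ => hmaj0 _ _ _))
    split_ifs with hb
    · exact mul_nonneg (inv_nonneg.2 (Real.exp_pos _).le) hsum0
    · unfold Good at hb
      push Not at hb
      obtain ⟨gL, gR, h⟩ := hb
      have h2 : Real.exp Kc ≤ maj gL gR r := by
        rw [hmaj]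
        dsimp only
        rw [mul_add]
        by_cases hlt : wt cl gL gR * testL cl s d σ φ gL gR r < Real.exp Kc
        · obtain ⟨hv, h⟩ := h hlt
          rw [if_pos hv]
          have : 0 ≤ wt cl gL gR * testL cl s d σ φ gL gR r :=
            mul_nonneg (wt_nonneg' _ _ _) (testL_nonneg' _ _ _ _ _ _ _)
          linarith
        · have : 0 ≤ wt cl gL gR * (if dens cl s d σ φ gL gR ≤ δ * X then
              testH s d σ φ gL gR (1 / δ) r else 0) := by
            refine mul_nonneg (wt_nonneg' _ _ _) ?_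
            split_ifs
            · exact testH_nonneg' _ _ _ _ _ _ _ hinv _
            · exact le_rfl
          linarith
      have h3 : maj gL gR r ≤ ∑ gL, ∑ gR, maj gL gR r := by
        calc maj gL gR r ≤ ∑ gR, maj gL gR r :=
              Finset.single_le_sum (f := fun gR => maj gL gR r)
                (fun _ _ => hmaj0 _ _ _) (mem_univ gR)
          _ ≤ ∑ gL, ∑ gR, maj gL gR r :=
              Finset.single_le_sum (f := fun gL => ∑ gR, maj gL gR r)
                (fun _ _ => sum_nonneg (fun _ _ => hmaj0 _ _ _)) (mem_univ gL)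
      rw [inv_mul_eq_div, le_div_iff₀ (Real.exp_pos _), one_mul]
      exact h2.trans h3
  have h4 : ((univ.filter (fun r : Rout K (Bool × H) C cl => ¬ Good s d σ φ Kc δ r)).card : ℝ) =
      ∑ r : Rout K (Bool × H) C cl, (if ¬ Good s d σ φ Kc δ r then (1 : ℝ) else 0) := by
    rw [Finset.sum_boole]
  have htot := total_nonneg' (K := K) cl φ
  have h5 : ∀ gL gR, ∑ r : Rout K (Bool × H) C cl, maj gL gR r ≤
      wt cl gL gR * (2 * Real.exp (2 * X) * total K cl φ) := by
    intro gL gR
    rw [hmaj]
    dsimp only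
    rw [← mul_sum, sum_add_distrib]
    refine mul_le_mul_of_nonneg_left ?_ (wt_nonneg' _ _ _)
    have h6 : ∑ r : Rout K (Bool × H) C cl, testL cl s d σ φ gL gR r ≤
        Real.exp (2 * X) * total K cl φ := by
      refine (momentL hs s d σ φ gL gR).trans ?_
      refine mul_le_mul_of_nonneg_right ?_ htot
      have h7 : (3 : ℝ) ≤ Real.exp 2 := by
        have := Real.add_one_le_exp (2 : ℝ)
        linarith
      calc (3 : ℝ) ^ (Fintype.card K * Fintype.card H)
          ≤ (Real.exp 2) ^ (Fintype.card K * Fintype.card H) :=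
            pow_le_pow_left₀ (by norm_num) h7 _
        _ = Real.exp (2 * X) := by
            rw [← Real.exp_nat_mul]
            congr 1
            rw [hX]
            push_cast
            ring
    have h8 : ∑ r : Rout K (Bool × H) C cl, (if dens cl s d σ φ gL gR ≤ δ * X then
        testH s d σ φ gL gR (1 / δ) r else 0) ≤ Real.exp (2 * X) * total K cl φ := by
      by_cases hv : dens cl s d σ φ gL gR ≤ δ * X
      · simp only [if_pos hv]
        refine (momentH hs s d σ φ gL gR (1 / δ) hinv).trans ?_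
        refine mul_le_mul_of_nonneg_right ?_ htot
        apply Real.exp_le_exp.2
        have e : 1 / δ * dens cl s d σ φ gL gR ≤ 1 / δ * (δ * X) :=
          mul_le_mul_of_nonneg_left hv hinv
        have e2 : 1 / δ * (δ * X) = X := by field_simp
        linarith
      · simp only [if_neg hv, sum_const_zero]
        positivity
    linarith
  have h9 := sum_wt (PL := PL) (PR := PR) cl hL hR
  have hroute := total_le (K := K) hs φ
  rw [← hX] at hroute
  set R : ℝ := (Fintype.card (Rout K (Bool × H) C cl) : ℝ) with hRdef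
  have hR0 : 0 ≤ R := Nat.cast_nonneg _
  calc ((univ.filter (fun r : Rout K (Bool × H) C cl => ¬ Good s d σ φ Kc δ r)).card : ℝ)
      = ∑ r : Rout K (Bool × H) C cl, (if ¬ Good s d σ φ Kc δ r then (1 : ℝ) else 0) := h4
    _ ≤ ∑ r : Rout K (Bool × H) C cl, (Real.exp Kc)⁻¹ * ∑ gL, ∑ gR, maj gL gR r :=
        sum_le_sum (fun r _ => h1 r)
    _ = (Real.exp Kc)⁻¹ * ∑ gL, ∑ gR, ∑ r : Rout K (Bool × H) C cl, maj gL gR r := by
        rw [← mul_sum]
        congr 1
        rw [sum_comm]
        refine sum_congr rfl (fun gL _ => ?_)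
        rw [sum_comm]
    _ ≤ (Real.exp Kc)⁻¹ * ((∑ gL : PL → H → Option Ω, ∑ gR : PR → H → Option Ω, wt cl gL gR) *
        (2 * Real.exp (2 * X) * total K cl φ)) := by
        refine mul_le_mul_of_nonneg_left ?_ (inv_nonneg.2 (Real.exp_pos _).le)
        rw [sum_mul]
        refine sum_le_sum (fun gL _ => ?_)
        rw [sum_mul]
        exact sum_le_sum (fun gR _ => h5 gL gR)
    _ ≤ (Real.exp Kc)⁻¹ * (Real.exp ((Fintype.card PL + Fintype.card PR) * Fintype.card H) *
        (Real.exp 1 * Real.exp (2 * X) * (Real.exp (2 * X) * R))) := by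
        refine mul_le_mul_of_nonneg_left ?_ (inv_nonneg.2 (Real.exp_pos _).le)
        have h2e : (2 : ℝ) ≤ Real.exp 1 := by
          have := Real.add_one_le_exp (1 : ℝ)
          linarith
        refine mul_le_mul h9 ?_ (by positivity) (Real.exp_pos _).le
        exact mul_le_mul (mul_le_mul_of_nonneg_right h2e (Real.exp_pos _).le) hroute htot
          (by positivity)
    _ = Real.exp (1 + (4 * Fintype.card K + Fintype.card PL + Fintype.card PR) *
          Fintype.card H - Kc) * R := by
        rw [← Real.exp_neg]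
        have : Real.exp (1 + (4 * Fintype.card K + Fintype.card PL + Fintype.card PR) *
          Fintype.card H - Kc) = Real.exp (-Kc) *
          (Real.exp ((Fintype.card PL + Fintype.card PR) * Fintype.card H) *
            (Real.exp 1 * Real.exp (2 * X) * Real.exp (2 * X))) := by
          simp only [← Real.exp_add]
          congr 1
          rw [hX]
          ring
        rw [this]
        ring

end Pool.Agent.CovT
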