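import Mathlib
import Pool.Agent.Lib.CovT.Conc

/-!
# CovT.ConcP (1.8 h): exponential moments of functions of permutations

`Y f` = permutations `g` of `S` with `f (g x) = f x`. If `Z (swap a b * g)` differs from `Z g` by at
most `c` (for `f a = f b`, `g ∈ Y f`) then the mean of `exp (λ (Z - mean))` is at most
`exp (4 λ² c² |S|)`.

Proof: `exp_moment` of `Conc.lean` for one colour (`K = Unit`).
-/

open Finset

namespace Pool.Agent.CovT

theorem exp_le_add_exp_sq (x : ℝ) : Real.exp x ≤ x + Real.exp (x ^ 2) := by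
  have h1 : x ^ 2 + 1 ≤ Real.exp (x ^ 2) := Real.add_one_le_exp (x ^ 2)
  rcases lt_or_ge x (-1) with h | h
  · have h2 : Real.exp x ≤ 1 := Real.exp_le_one_iff.2 (by linarith)
    nlinarith
  · rcases lt_or_ge 1 x with h' | h'
    · have h2 : Real.exp x ≤ Real.exp (x ^ 2) := Real.exp_le_exp.2 (by nlinarith)
      linarith
    · have h2 := Real.abs_exp_sub_one_sub_id_le (abs_le.2 ⟨h, h'⟩)
      have h3 := (abs_le.1 h2).2
      linarith

/-- The permutations that keep `f`. -/
def Yg {S C : Type} (f : S → C) : Type := {g : Equiv.Perm S // ∀ x, f (g x) = f x}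

noncomputable instance {S C : Type} [Fintype S] (f : S → C) : Fintype (Yg f) := by
  classical
  exact Fintype.ofInjective (fun g : Yg f => g.1) (fun _ _ h => Subtype.ext h)

/-- Multiply by a transposition inside a fibre. -/
def Yg.sw {S C : Type} [DecidableEq S] {f : S → C} (g : Yg f) (a b : S) (h : f a = f b) : Yg f :=
  ⟨Equiv.swap a b * g.1, by
    intro v
    rw [Equiv.Perm.mul_apply]
    rcases eq_or_ne (g.1 v) a with h1 | h1
    · rw [h1, Equiv.swap_apply_left, ← h, ← h1, g.2]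
    · rcases eq_or_ne (g.1 v) b with h2 | h2
      · rw [h2, Equiv.swap_apply_right, h, ← h2, g.2]
      · rw [Equiv.swap_apply_of_ne_of_ne h1 h2, g.2]⟩

theorem sum_Yg {S C : Type} [Fintype S] [DecidableEq S] (f : S → C)
    (F : (Unit → Equiv.Perm S) → ℝ) :
    ∑ y : Yg f, F (fun _ => y.1) = ∑ g ∈ keepSet (fun _ : Unit => f), F g := by
  refine Finset.sum_bij (fun y _ => fun _ => y.1) ?_ ?_ ?_ ?_
  · intro y _
    rw [mem_keepSet]
    exact fun _ z => y.2 z
  · intro y _ y' _ h
    exact Subtype.ext (congrFun h ())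
  · intro g hg
    rw [mem_keepSet] at hg
    exact ⟨⟨g (), fun z => hg () z⟩, Finset.mem_univ _, rfl⟩
  · intro y _
    rfl

open Classical in
theorem mgf_aux (S C : Type) [Fintype S] [DecidableEq S] (f : S → C) (Z : Yg f → ℝ) (c : ℝ)
    (hc : 0 ≤ c) (hZ : ∀ (g : Yg f) (a b : S) (h : f a = f b), |Z (g.sw a b h) - Z g| ≤ c)
    (μ : ℝ) (hμ : ∑ g, Z g = μ * Fintype.card (Yg f)) (t : ℝ) :
    ∑ g, Real.exp (t * Z g) ≤ (Fintype.card (Yg f) : ℝ) * Real.exp (t * μ) *
      Real.exp (Fintype.card S * (t ^ 2 * c ^ 2 / 2)) := by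
  set Z' : (Unit → Equiv.Perm S) → ℝ :=
    fun g => if h : ∀ x, f (g () x) = f x then Z ⟨g (), h⟩ else 0 with hZ'
  have hZ1 : ∀ y : Yg f, Z' (fun _ => y.1) = Z y := by
    intro y
    simp only [hZ']
    rw [dif_pos y.2]
    rfl
  have hlip : SwapLip (fun _ : Unit => f) Z' c := by
    intro g hg k x y hxy
    have hg' : ∀ z, f (g () z) = f z := fun z => hg () z
    have h1 : Z' g = Z ⟨g (), hg'⟩ := by
      simp only [hZ']
      rw [dif_pos hg']
    have h2 : (sw k x y * g) () = Equiv.swap x y * g () := by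
      rw [Pi.mul_apply]
      congr 1
    have h3 : Z' (sw k x y * g) = Z (Yg.sw ⟨g (), hg'⟩ x y hxy) := by
      have h4 : ∀ z, f ((sw k x y * g) () z) = f z := by
        intro z
        rw [h2]
        exact (Yg.sw (⟨g (), hg'⟩ : Yg f) x y hxy).2 z
      simp only [hZ']
      rw [dif_pos h4]
      congr 1
    rw [h1, h3]
    exact hZ _ x y hxy
  have hcard : (Fintype.card (Yg f) : ℝ) = ((keepSet (fun _ : Unit => f)).card : ℝ) := by
    have h1 := sum_Yg f (fun _ => 1)
    simp only [Finset.sum_const, nsmul_eq_mul, mul_one, Finset.card_univ] at h1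
    exact h1
  have hpos : (0 : ℝ) < Fintype.card (Yg f) := by
    have hne : Nonempty (Yg f) := ⟨⟨1, fun _ => rfl⟩⟩
    exact_mod_cast Fintype.card_pos
  have hmean : (∑ g ∈ keepSet (fun _ : Unit => f), Z' g) /
      ((keepSet (fun _ : Unit => f)).card : ℝ) = μ := by
    rw [← sum_Yg, Finset.sum_congr rfl fun y _ => hZ1 y, hμ, ← hcard]
    field_simp
  have h1 := exp_moment (fun _ : Unit => f) c t hc univ Z' hlip
  rw [← keepSet_eq, hmean, ← hcard, Finset.card_univ, Fintype.card_prod, Fintype.card_unit,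
    one_mul, ← sum_Yg f (fun g => Real.exp (t * Z' g))] at h1
  simp only [hZ1] at h1
  exact h1

theorem mgf_perm (S C : Type) [Fintype S] [DecidableEq S] (f : S → C) (Z : Yg f → ℝ) (c : ℝ)
    (hc : 0 ≤ c) (hZ : ∀ (g : Yg f) (a b : S) (h : f a = f b), |Z (g.sw a b h) - Z g| ≤ c)
    (μ : ℝ) (hμ : ∑ g, Z g = μ * Fintype.card (Yg f)) (t : ℝ) :
    ∑ g, Real.exp (t * (Z g - μ)) ≤
      Real.exp (4 * t ^ 2 * c ^ 2 * Fintype.card S) * Fintype.card (Yg f) := by
  have h1 := mgf_aux S C f Z c hc hZ μ hμ t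
  have h2 : ∀ g, Real.exp (t * (Z g - μ)) = Real.exp (t * Z g) * Real.exp (-(t * μ)) := by
    intro g
    rw [← Real.exp_add]
    congr 1
    ring
  rw [Finset.sum_congr rfl fun g _ => h2 g, ← Finset.sum_mul]
  calc (∑ g, Real.exp (t * Z g)) * Real.exp (-(t * μ))
      ≤ ((Fintype.card (Yg f) : ℝ) * Real.exp (t * μ) *
        Real.exp (Fintype.card S * (t ^ 2 * c ^ 2 / 2))) * Real.exp (-(t * μ)) :=
        mul_le_mul_of_nonneg_right h1 (Real.exp_pos _).le
    _ = Real.exp (Fintype.card S * (t ^ 2 * c ^ 2 / 2)) * Fintype.card (Yg f) := by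
        have h3 : Real.exp (t * μ) * Real.exp (-(t * μ)) = 1 := by
          rw [← Real.exp_add, add_neg_cancel, Real.exp_zero]
        linear_combination ((Fintype.card (Yg f) : ℝ) *
          Real.exp (Fintype.card S * (t ^ 2 * c ^ 2 / 2))) * h3
    _ ≤ _ := by
        refine mul_le_mul_of_nonneg_right (Real.exp_le_exp.2 ?_) (Nat.cast_nonneg _)
        have h3 : 0 ≤ (Fintype.card S : ℝ) * (t ^ 2 * c ^ 2) := by positivity
        linarith

end Pool.Agent.CovT
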