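import Mathlib
import Pool.Agent.Lib.CovT.Defs
import Pool.Agent.Lib.CovT.ConcP

/-!
# CovT.ConcR (1.2 h): concentration for routings

`Rout K V C cl` is equivalent to `Yg (fun x : K × V => (x.1, cl x.2))`: `r ↦ ((k, v) ↦ (k, r.g k v))`
(the inverse: a permutation `g` of `K × V` that keeps `(k, cl v)` maps `{k} × V` to itself, so
`v ↦ (g (k, v)).2` is a permutation of `V`). Under this equivalence `r.sw k a b` corresponds to
`g.sw (k, a) (k, b)`; transpositions of `(k, a)`, `(k', b)` with `k = k'`, `cl a = cl b` are the only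
ones inside a fibre. Then `mgf_perm` and Markov (Chernoff) with `t = x / (8 c² |K| |V|)`:
`#{Z ≥ μ' + x} ≤ exp (-t x) ∑ exp (t (Z - μ'))` with `μ' = mean ≤ μ`, exponent
`-t x + 4 t² c² |K||V| = -x² / (16 c² |K||V|)`. (If `K` or `V` is empty the right side is `1 * card`,
`x^2/0 = 0`: trivial. If `c > 0` all is fine.)
-/

open Finset

namespace Pool.Agent.CovT

namespace ConcRAux

variable {K V C : Type} {cl : V → C}

/-- the fibre function -/
def ff (cl : V → C) (x : K × V) : K × C := (x.1, cl x.2)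

/-- the permutation of `K × V` given by a routing -/
def toY (r : Rout K V C cl) : Yg (ff (K := K) cl) :=
  ⟨⟨fun x => (x.1, r.g x.1 x.2), fun x => (x.1, (r.g x.1).symm x.2),
    fun x => by simp, fun x => by simp⟩, fun x => Prod.ext rfl (r.keep x.1 x.2)⟩

theorem toY_apply (r : Rout K V C cl) (x : K × V) : (toY r).1 x = (x.1, r.g x.1 x.2) := rfl

theorem fst_eq (g : Yg (ff (K := K) cl)) (x : K × V) : (g.1 x).1 = x.1 := by
  have h : ff cl (g.1 x) = ff cl x := g.2 x
  unfold ff at h
  exact (Prod.mk.inj h).1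

theorem fst_symm (g : Yg (ff (K := K) cl)) (x : K × V) : (g.1.symm x).1 = x.1 := by
  have h := fst_eq g (g.1.symm x)
  rw [Equiv.apply_symm_apply] at h
  exact h.symm

/-- the routing given by a permutation -/
def ofY (g : Yg (ff (K := K) cl)) : Rout K V C cl where
  g k := ⟨fun v => (g.1 (k, v)).2, fun v => (g.1.symm (k, v)).2, fun v => by
      have h : ((k, (g.1 (k, v)).2) : K × V) = g.1 (k, v) := Prod.ext (fst_eq g (k, v)).symm rfl
      simp only [h, Equiv.symm_apply_apply],
    fun v => by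
      have h : ((k, (g.1.symm (k, v)).2) : K × V) = g.1.symm (k, v) :=
        Prod.ext (fst_symm g (k, v)).symm rfl
      simp only [h, Equiv.apply_symm_apply]⟩
  keep k v := by
    have h : ff cl (g.1 (k, v)) = ff cl (k, v) := g.2 (k, v)
    unfold ff at h
    exact (Prod.mk.inj h).2

/-- the equivalence -/
def eqv : Rout K V C cl ≃ Yg (ff (K := K) cl) where
  toFun := toY
  invFun := ofY
  left_inv r := Rout.ext' _ _ (by
    funext k
    ext v
    rfl)
  right_inv g := by
    apply Subtype.ext
    apply Equiv.ext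
    intro x
    exact Prod.ext (fst_eq g x).symm rfl

theorem toY_sw [DecidableEq K] [DecidableEq V] [DecidableEq C] (r : Rout K V C cl) (k : K)
    (a b : V) (h : cl a = cl b) (h' : ff (K := K) cl (k, a) = ff cl (k, b)) :
    toY (r.sw k a b) = (toY r).sw (k, a) (k, b) h' := by
  apply Subtype.ext
  apply Equiv.ext
  intro x
  obtain ⟨k', v⟩ := x
  have h1 : ((toY r).sw (k, a) (k, b) h').1 (k', v) =
      Equiv.swap (k, a) (k, b) (k', r.g k' v) := rfl
  rw [h1, toY_apply]
  unfold Rout.sw
  rw [dif_pos h]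
  by_cases hk : k' = k
  · subst hk
    simp only [Function.update_self, Equiv.Perm.mul_apply]
    rcases eq_or_ne (r.g k' v) a with h2 | h2
    · rw [h2, Equiv.swap_apply_left, Equiv.swap_apply_left]
    · rcases eq_or_ne (r.g k' v) b with h3 | h3
      · rw [h3, Equiv.swap_apply_right, Equiv.swap_apply_right]
      · rw [Equiv.swap_apply_of_ne_of_ne h2 h3, Equiv.swap_apply_of_ne_of_ne]
        · intro h4
          exact h2 (congrArg Prod.snd h4)
        · intro h4
          exact h3 (congrArg Prod.snd h4)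
  · simp only [Function.update_of_ne hk]
    rw [Equiv.swap_apply_of_ne_of_ne]
    · intro h4
      exact hk (congrArg Prod.fst h4)
    · intro h4
      exact hk (congrArg Prod.fst h4)

end ConcRAux

open ConcRAux

open Classical in
theorem conc {K V C : Type} [Fintype K] [Fintype V] [DecidableEq K] [DecidableEq V] [DecidableEq C]
    (cl : V → C) (Z : Rout K V C cl → ℝ) (c : ℝ) (hc : 0 < c)
    (hZ : ∀ (r : Rout K V C cl) (k : K) (a b : V), cl a = cl b → |Z (r.sw k a b) - Z r| ≤ c)
    (μ : ℝ) (hμ : ∑ r, Z r ≤ μ * Fintype.card (Rout K V C cl)) (x : ℝ) (hx : 0 ≤ x) :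
    ((univ.filter (fun r => μ + x ≤ Z r)).card : ℝ) ≤
      Real.exp (-(x ^ 2 / (16 * c ^ 2 * (Fintype.card K * Fintype.card V)))) *
        Fintype.card (Rout K V C cl) := by
  set S := Fintype.card (K × V) with hS
  have hcard : (S : ℝ) = (Fintype.card K : ℝ) * Fintype.card V := by
    rw [hS, Fintype.card_prod]
    push_cast
    rfl
  have hN : Fintype.card (Yg (ff (K := K) cl)) = Fintype.card (Rout K V C cl) :=
    (Fintype.card_congr eqv).symm
  have hpos : 0 < Fintype.card (Rout K V C cl) := Fintype.card_pos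
  have hposR : (0 : ℝ) < Fintype.card (Rout K V C cl) := by exact_mod_cast hpos
  set μ' : ℝ := (∑ r, Z r) / Fintype.card (Rout K V C cl) with hμ'
  have hμle : μ' ≤ μ := by
    rw [hμ', div_le_iff₀ hposR]
    exact hμ
  have hZ' : ∀ (g : Yg (ff (K := K) cl)) (a b : K × V) (h : ff (K := K) cl a = ff cl b),
      |Z (eqv.symm (g.sw a b h)) - Z (eqv.symm g)| ≤ c := by
    intro g a b h
    obtain ⟨r, rfl⟩ := eqv.surjective g
    obtain ⟨k, a⟩ := a
    obtain ⟨k', b⟩ := b
    have hk : k = k' := congrArg Prod.fst h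
    subst hk
    have hab : cl a = cl b := congrArg Prod.snd h
    have h1 : eqv (r.sw k a b) = (eqv r).sw (k, a) (k, b) h := toY_sw r k a b hab h
    rw [← h1, Equiv.symm_apply_apply, Equiv.symm_apply_apply]
    exact hZ r k a b hab
  have hsumY : ∀ F : Rout K V C cl → ℝ, ∑ g : Yg (ff (K := K) cl), F (eqv.symm g) = ∑ r, F r :=
    fun F => Equiv.sum_comp eqv.symm F
  have hmgf : ∀ t : ℝ, ∑ r, Real.exp (t * (Z r - μ')) ≤
      Real.exp (4 * t ^ 2 * c ^ 2 * S) * Fintype.card (Rout K V C cl) := by
    intro t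
    have h1 := mgf_perm (K × V) (K × C) (ff (K := K) cl) (fun g => Z (eqv.symm g)) c hc.le hZ' μ'
      (by
        rw [hsumY Z, hN, hμ']
        field_simp) t
    rw [hN] at h1
    have h2 := hsumY fun r => Real.exp (t * (Z r - μ'))
    rw [← h2]
    exact h1
  have hcardle : ((univ.filter (fun r => μ + x ≤ Z r)).card : ℝ) ≤
      Fintype.card (Rout K V C cl) := by
    exact_mod_cast Finset.card_le_univ _
  rcases Nat.eq_zero_or_pos S with h0 | h0
  · rw [← hcard, h0]
    simpa using hcardle
  have hSR : (0 : ℝ) < S := by exact_mod_cast h0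
  set t : ℝ := x / (8 * c ^ 2 * S) with ht
  have ht0 : 0 ≤ t := by positivity
  have h1 : ((univ.filter (fun r => μ + x ≤ Z r)).card : ℝ) ≤
      ∑ r, Real.exp (t * (Z r - μ')) * Real.exp (-(t * x)) := by
    rw [Finset.card_eq_sum_ones, Nat.cast_sum]
    refine le_trans (Finset.sum_le_sum (f := fun _ => ((1 : ℕ) : ℝ))
      (g := fun r => Real.exp (t * (Z r - μ')) * Real.exp (-(t * x))) ?_)
      (Finset.sum_le_sum_of_subset_of_nonneg (Finset.filter_subset _ _) fun _ _ _ => by positivity)
    intro r hr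
    rw [Finset.mem_filter] at hr
    rw [← Real.exp_add, Nat.cast_one]
    apply Real.one_le_exp
    have h2 : x ≤ Z r - μ' := by linarith [hr.2]
    have h3 := mul_le_mul_of_nonneg_left h2 ht0
    linarith
  refine h1.trans ?_
  rw [← Finset.sum_mul]
  have h2 := mul_le_mul_of_nonneg_right (hmgf t) (Real.exp_nonneg (-(t * x)))
  refine h2.trans (le_of_eq ?_)
  rw [mul_right_comm, ← Real.exp_add]
  congr 2
  rw [← hcard, ht]
  have hc' : c ≠ 0 := hc.ne'
  field_simp
  ring

end Pool.Agent.CovT
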