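import Mathlib
import Pool.Agent.Lib.P325f1f.Dich.Tree

/-!
# Choice of the constants
-/

open Finset

namespace Pool.Agent.CovT

open Pool.Agent.P325f1f.Dich

theorem wact_map {A B V : Type} (f : A → B) (M : B → V → V) (l : List A) (v : V) :
    wact M (l.map f) v = wact (fun a => M (f a)) l v := by
  induction l with
  | nil => rfl
  | cons a l ih =>
    show M (f a) (wact M (l.map f) v) = M (f a) (wact (fun a => M (f a)) l v)
    rw [ih]

theorem red_map {A B : Type} (f : A → B) (hf : Function.Injective f) (l : List A) (h : Red l) :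
    Red (l.map f) := by
  induction l with
  | nil => trivial
  | cons a l ih =>
    cases l with
    | nil => trivial
    | cons b l => exact ⟨fun h' => h.1 (hf h'), ih h.2⟩

/-- Involutions without short relations, indexed by an arbitrary finite type. -/
theorem exists_sigma (K : Type) [Fintype K] (N : ℕ) : ∃ (Ω : Type) (_ : Fintype Ω) (_ : Nonempty Ω)
    (σ : K → Equiv.Perm Ω), (∀ k ω, σ k (σ k ω) = ω) ∧
      ∀ l : List K, l ≠ [] → l.length ≤ N → Red l →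
        ∀ ω, wact (fun k ω => σ k ω) l ω ≠ ω := by
  obtain ⟨Ω, h1, h2, σ, h3, h4⟩ := exists_girth (Fintype.card K) N
  refine ⟨Ω, h1, h2, fun k => σ (Fintype.equivFin K k), fun k ω => h3 _ _, ?_⟩
  intro l hl hlN hr ω
  have h5 := h4 (l.map (Fintype.equivFin K)) (by simpa using hl) (by simpa using hlN)
    (red_map _ (Fintype.equivFin K).injective l hr) ω
  rwa [wact_map] at h5

theorem exists_m (Q κ k : ℝ) (hκ : 0 < κ) (hk : 0 < k) :
    ∃ m : ℕ, Q < κ * (2 : ℝ) ^ ((m : ℝ) * κ / k) := by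
  have h1 : 0 < κ / k := by positivity
  have h2 : (1 : ℝ) < (2 : ℝ) ^ (κ / k) := Real.one_lt_rpow (by norm_num) h1
  obtain ⟨m, hm⟩ := pow_unbounded_of_one_lt (Q / κ) h2
  refine ⟨m, ?_⟩
  have h3 : (2 : ℝ) ^ ((m : ℝ) * κ / k) = ((2 : ℝ) ^ (κ / k)) ^ m := by
    rw [← Real.rpow_natCast, ← Real.rpow_mul (by norm_num)]
    congr 1
    ring
  rw [h3]
  rw [div_lt_iff₀ hκ] at hm
  linarith

theorem large_Td (q T : ℕ) (hT : 2 ^ (q + 1) * (q + 2).factorial ≤ T) :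
    1 ≤ T ∧ (∀ y : ℕ, T ≤ y → ((y : ℝ) + 1) ^ (q + 1) ≤ Real.exp y) ∧
      (q.factorial : ℝ) ≤ Real.exp T := by
  have h0 : 1 ≤ 2 ^ (q + 1) * (q + 2).factorial :=
    Nat.one_le_iff_ne_zero.2 (mul_ne_zero (by positivity) (Nat.factorial_ne_zero _))
  refine ⟨h0.trans hT, fun y hy => ?_, ?_⟩
  · have h1 : (1 : ℝ) ≤ y := by exact_mod_cast h0.trans (hT.trans hy)
    have h2 : (2 : ℝ) ^ (q + 1) * (q + 2).factorial ≤ y := by exact_mod_cast hT.trans hy
    have hf : (0 : ℝ) < (q + 2).factorial := by exact_mod_cast Nat.factorial_pos _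
    have h3 := Real.pow_div_factorial_le_exp (y : ℝ) (by linarith) (q + 2)
    refine le_trans ?_ h3
    rw [le_div_iff₀ hf]
    calc ((y : ℝ) + 1) ^ (q + 1) * (q + 2).factorial
        ≤ (2 * y) ^ (q + 1) * (q + 2).factorial := by
          apply mul_le_mul_of_nonneg_right _ hf.le
          exact pow_le_pow_left₀ (by linarith) (by linarith) _
      _ = (y : ℝ) ^ (q + 1) * (2 ^ (q + 1) * (q + 2).factorial) := by
          rw [mul_pow]; ring
      _ ≤ (y : ℝ) ^ (q + 1) * y := mul_le_mul_of_nonneg_left h2 (by positivity)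
      _ = (y : ℝ) ^ (q + 2) := by ring
  · have h4 : (q.factorial : ℝ) ≤ T := by
      have h5 : q.factorial ≤ (q + 2).factorial := Nat.factorial_le (by omega)
      have h6 : (q + 2).factorial ≤ 2 ^ (q + 1) * (q + 2).factorial :=
        Nat.le_mul_of_pos_left _ (by positivity)
      exact_mod_cast h5.trans (h6.trans hT)
    have := Real.add_one_le_exp (T : ℝ)
    linarith

theorem exists_Td (q : ℕ) : ∃ T₀ : ℕ, ∀ T : ℕ, T₀ ≤ T →
    1 ≤ T ∧ (∀ y : ℕ, T ≤ y → ((y : ℝ) + 1) ^ (q + 1) ≤ Real.exp y) ∧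
      (q.factorial : ℝ) ≤ Real.exp T :=
  ⟨2 ^ (q + 1) * (q + 2).factorial, fun T hT => large_Td q T hT⟩

theorem exists_T0 (q m : ℕ) (ε A B c : ℝ) (hε : 0 < ε) (hA : 0 < A) (hc : 0 < c) :
    ∃ T₀ : ℕ, ∀ T : ℕ, T₀ ≤ T → 1 ≤ T ∧
      (∀ y : ℕ, T ≤ y → ((y : ℝ) + 1) ^ (q + 1) ≤ Real.exp y) ∧ m + 1 < T ∧
      2 * ((m + 1 : ℕ) : ℝ) ^ 3 / (T - ((m + 1 : ℕ) : ℝ)) ≤ ε / 2 ∧ B ≤ A * T ∧ 2 ≤ c * T := by
  obtain ⟨T1, hT1⟩ := exists_Td q
  obtain ⟨T2, hT2⟩ := exists_nat_ge (4 * ((m + 1 : ℕ) : ℝ) ^ 3 / ε + ((m + 1 : ℕ) : ℝ))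
  obtain ⟨T3, hT3⟩ := exists_nat_ge (B / A)
  obtain ⟨T4, hT4⟩ := exists_nat_ge (2 / c)
  refine ⟨T1 + (T2 + m + 2) + T3 + T4, fun T hT => ?_⟩
  have h1 := hT1 T (by omega)
  have hm1 : m + 1 < T := by omega
  have hm2 : (((m + 1 : ℕ) : ℝ)) < T := by exact_mod_cast hm1
  refine ⟨h1.1, h1.2.1, hm1, ?_, ?_, ?_⟩
  · have h2 : (T2 : ℝ) ≤ T := by exact_mod_cast (by omega : T2 ≤ T)
    have h3 : 4 * ((m + 1 : ℕ) : ℝ) ^ 3 / ε ≤ T - ((m + 1 : ℕ) : ℝ) := by linarith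
    rw [div_le_iff₀ (by linarith)]
    rw [div_le_iff₀ hε] at h3
    linarith
  · have h2 : (T3 : ℝ) ≤ T := by exact_mod_cast (by omega : T3 ≤ T)
    have h3 : B / A ≤ T := hT3.trans h2
    rw [div_le_iff₀ hA] at h3
    linarith
  · have h2 : (T4 : ℝ) ≤ T := by exact_mod_cast (by omega : T4 ≤ T)
    have h3 : 2 / c ≤ T := hT4.trans h2
    rw [div_le_iff₀ hc] at h3
    linarith

theorem factorial_le_exp (n : ℕ) : (n.factorial : ℝ) ≤ Real.exp (4 ^ n) := by
  have h1 : (n.factorial : ℝ) ≤ (n : ℝ) ^ n := by exact_mod_cast Nat.factorial_le_pow n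
  refine h1.trans ?_
  have h2 : (n : ℝ) ≤ Real.exp n := by
    have := Real.add_one_le_exp (n : ℝ)
    linarith
  have h3 : (n : ℝ) ^ n ≤ (Real.exp n) ^ n := pow_le_pow_left₀ (Nat.cast_nonneg _) h2 _
  refine h3.trans ?_
  rw [← Real.exp_nat_mul]
  apply Real.exp_le_exp.2
  have h4 : n < 2 ^ n := Nat.lt_two_pow_self
  have h5 : (n : ℝ) ≤ 2 ^ n := by exact_mod_cast h4.le
  have h6 : (4 : ℝ) ^ n = 2 ^ n * 2 ^ n := by
    rw [← mul_pow]
    norm_num
  rw [h6]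
  exact mul_le_mul h5 h5 (Nat.cast_nonneg _) (by positivity)

/-- The final estimate. -/
theorem final_le (k P b n B : ℝ) (hk : 1 ≤ k) (hP : 0 ≤ P) (hb : 0 < b) (hn : 0 < n)
    (W0 L : ℝ) (hW0 : W0 = 8 * (4 * k + 2 * P + 4) / (b * k))
    (hL : L = 16 * ((4 * k + P + 4) + P * (W0 + 1)) / (b * k))
    (h1 : B ≤ P * n + ((4 * k + P + 4) * n + P * n) / W0 + b * k / 8 * n +
      2 * (((4 * k + P + 4) * n + P * n * (W0 + 1)) / Real.log (1 + 1 / Real.exp (-L)))) :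
    B ≤ (P / k + b) * (k * n) := by
  have hk0 : 0 < k := by linarith
  have hW0p : 0 < W0 := by rw [hW0]; positivity
  have hLp : 0 < L := by rw [hL]; positivity
  have hlog : L ≤ Real.log (1 + 1 / Real.exp (-L)) := by
    rw [Real.le_log_iff_exp_le (by positivity), Real.exp_neg]
    rw [one_div, inv_inv]
    linarith [Real.exp_pos L]
  have h2 : ((4 * k + P + 4) * n + P * n) / W0 = b * k / 8 * n := by
    rw [hW0]; field_simp; ring
  have h3 : ((4 * k + P + 4) * n + P * n * (W0 + 1)) / Real.log (1 + 1 / Real.exp (-L)) ≤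
      b * k / 16 * n := by
    have h4 : ((4 * k + P + 4) * n + P * n * (W0 + 1)) / Real.log (1 + 1 / Real.exp (-L)) ≤
        ((4 * k + P + 4) * n + P * n * (W0 + 1)) / L :=
      div_le_div_of_nonneg_left (by positivity) hLp hlog
    refine h4.trans (le_of_eq ?_)
    have h5 : (4 * k + P + 4) * n + P * n * (W0 + 1) = ((4 * k + P + 4) + P * (W0 + 1)) * n := by
      ring
    have : (0 : ℝ) < (4 * k + P + 4) + P * (W0 + 1) := by positivity
    rw [h5, hL]
    field_simp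
  rw [h2] at h1
  have h6 : (P / k + b) * (k * n) = P * n + b * k * n := by
    field_simp
  rw [h6]
  have h7 : 0 < b * k * n := by positivity
  linarith

end Pool.Agent.CovT
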