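import Mathlib
import Pool.Agent.Lib.CovT.Tests

/-!
# CovT.DensA (0.8 h): the density as an expectation over the long code

`dens` is the sum over `k`, `e`, `x`, `s`, `i` of a term that does not depend on the number `i`; turn
the sums over `x : Λ → Ω`, `s : Λ → Fin t × Ω` into expectations
(`Fintype.expect_eq_sum_div_card`). By definition `cs (cloud src dst) false (e, x, s, i) =
(Sum.inl (src e), x)` and the cloud on the right of `carry σ π (e, x, s, i)` is
`(Sum.inr (dst e), fun j => σ (mix x s ((π e).symm j)))`, since `(exch (x l, s l)).1 = mix x s l`.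
-/

open Finset
open scoped BigOperators

namespace Pool.Agent.CovT

open Pool.Agent.P325f1f.Dich Pool.Agent.P325d

variable {U W Λ ι Ω PL PR K : Type} {t T : ℕ} [Fintype ι] [Fintype Λ] [Fintype Ω] [Fintype K]
  [DecidableEq U] [DecidableEq W] [DecidableEq Ω] [DecidableEq Λ]

theorem exch_mix (x : Λ → Ω) (s : Λ → Fin t × Ω) (l : Λ) : (exch (x l, s l)).1 = mix x s l := by
  unfold exch mix
  split_ifs <;> rfl

/-- Sums of a term that does not depend on the number, as expectations. -/
theorem DensA_sum {X M : Type} [Fintype X] [Fintype M] (T : ℕ) (G : X → M → ℝ) :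
    ∑ x, ∑ m, ∑ _i : Fin T, G x m =
      ((T : ℝ) * Fintype.card X * Fintype.card M) * 𝔼 x, 𝔼 m, G x m := by
  have h1 : ∀ x, ∑ m, G x m = (Fintype.card M : ℝ) * 𝔼 m, G x m :=
    fun x => (Fintype.card_mul_expect _).symm
  have h2 : ∑ x, 𝔼 m, G x m = (Fintype.card X : ℝ) * 𝔼 x, 𝔼 m, G x m :=
    (Fintype.card_mul_expect _).symm
  simp only [sum_const, card_univ, Fintype.card_fin, nsmul_eq_mul]
  calc ∑ x, ∑ m, (T : ℝ) * G x m = ∑ x, (T : ℝ) * ((Fintype.card M : ℝ) * 𝔼 m, G x m) :=
        sum_congr rfl (fun x _ => by rw [← mul_sum, h1])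
    _ = (T : ℝ) * ((Fintype.card M : ℝ) * ∑ x, 𝔼 m, G x m) := by
        rw [mul_sum, mul_sum]
    _ = _ := by
        rw [h2]
        ring

theorem dens_eq (I : Game U W Λ ι) (s : K → PL) (d : K → PR) (σ : K → Equiv.Perm Ω)
    (gL : PL → Slot ι Λ Ω t T → Option Ω) (gR : PR → Slot ι Λ Ω t T → Option Ω) :
    dens (cloud I.src I.dst) s d σ (fun k => carry (σ k) I.perm) gL gR =
      ((T : ℝ) * Fintype.card (Λ → Ω) * Fintype.card (Λ → Fin t × Ω)) *
      ∑ k, ∑ e, 𝔼 x : Λ → Ω, 𝔼 m : Λ → Fin t × Ω, ∑ ω,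
        freq (cs (cloud I.src I.dst) false) (gL (s k)) (Sum.inl (I.src e), x) (some ω) *
        freq (cs (cloud I.src I.dst) true) (gR (d k))
          (Sum.inr (I.dst e), fun j => σ k (mix x m ((I.perm e).symm j))) (some (σ k ω)) := by
  have key : ∀ (k : K) (e : ι) (x : Λ → Ω) (m : Λ → Fin t × Ω) (i : Fin T),
      (∑ ω, freq (cs (cloud I.src I.dst) false) (gL (s k))
          (cs (cloud I.src I.dst) false (e, x, m, i)) (some ω) *
        freq (cs (cloud I.src I.dst) true) (gR (d k))
          (cs (cloud I.src I.dst) true (carry (σ k) I.perm (e, x, m, i))) (some (σ k ω))) =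
      ∑ ω, freq (cs (cloud I.src I.dst) false) (gL (s k)) (Sum.inl (I.src e), x) (some ω) *
        freq (cs (cloud I.src I.dst) true) (gR (d k))
          (Sum.inr (I.dst e), fun j => σ k (mix x m ((I.perm e).symm j))) (some (σ k ω)) := by
    intro k e x m i
    have e1 : cs (cloud I.src I.dst) false (e, x, m, i) = (Sum.inl (I.src e), x) := rfl
    have e2 : cs (cloud I.src I.dst) true (carry (σ k) I.perm (e, x, m, i)) =
        (Sum.inr (I.dst e), fun j => σ k (mix x m ((I.perm e).symm j))) := by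
      refine Prod.ext rfl ?_
      funext j
      show σ k (exch (x ((I.perm e).symm j), m ((I.perm e).symm j))).1 = _
      rw [exch_mix]
    rw [e1, e2]
  unfold dens
  rw [Fintype.sum_prod_type, mul_sum]
  refine sum_congr rfl (fun k _ => ?_)
  rw [Fintype.sum_prod_type, mul_sum]
  refine sum_congr rfl (fun e _ => ?_)
  rw [← DensA_sum, Fintype.sum_prod_type]
  refine sum_congr rfl (fun x _ => ?_)
  rw [Fintype.sum_prod_type]
  refine sum_congr rfl (fun m _ => ?_)
  exact sum_congr rfl (fun i _ => key k e x m i)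

end Pool.Agent.CovT
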