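import Mathlib
import Pool.Agent.Lib.P325f1f.Dich.Games

/-!
# CovT.DensB (2 h): light labels of fractional tables

Fractional tables `A u : Ω → (Λ → Ω) → ℝ` (nonnegative, summing to `1` over `ω`). If at one end only
the labels of mean `≤ (θ²)^(4t)` are counted, the acceptance of the long code test is at most
`3 θ + M * value`.

Proof: `P325f1f.Dich.sound_gen` (file `Games.lean`) is the same argument for 0/1 tables; use
`light`, `card_big`, `JJ_move`, `mean_move`, `noise`, `params`, `exists_sys`, `exists_enum`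
(`Light.lean`, `Noise.lean`, `Games.lean`). For the edge `e` put `g ω x = B (dst e) (τ ω)
(fun i => τ (x ((perm e).symm i)))`; then `𝔼 x, 𝔼 s, A ω x * g ω (mix x s) = ∑ α, (1-1/t)^|supp α| *
(coef (A ω) α * coef (g ω) α)` (`noise`). If no coordinate `i` has `τ' ≤ JJ Φ D (A (src e)) i` and
`τ' ≤ JJ Φ D g i` then `light` (with `L` the light labels) bounds the sum over the light labels by
`2 θ + θ² / 2 ≤ 3 θ` (for the light labels on the right use `light` with the roles exchanged,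
`mul_comm`, the mean of `g ω` is the mean of `B (dst e) (τ ω)` by `mean_move`). Otherwise the sum is at
most `1` and the edge is decoded from the lists `{i | τ' ≤ JJ Φ D (A u) i}`, of size at most
`k = ⌈D / τ'⌉₊` (`card_big`), exactly as in `sound_gen`: the number of such edges is at most
`k² * value * |ι|` (`JJ_move`: `JJ Φ D g i = JJ Φ D (B (dst e)) (perm e i)`).
-/

open Finset
open scoped BigOperators

namespace Pool.Agent.CovT

open Pool.Agent.P325f1f.Dich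

/-- Decoding from short lists. -/
theorem densB_dec {U W Λ ι : Type} [Fintype ι] [DecidableEq Λ] [Nonempty Λ] [Nonempty ι]
    (I : Game U W Λ ι) (k : ℕ) (LU : U → Finset Λ) (LW : W → Finset Λ)
    (hLUc : ∀ u, (LU u).card ≤ k) (hLWc : ∀ w, (LW w).card ≤ k)
    (F : ι → ℝ) (hF : ∀ e, (∃ i ∈ LU (I.src e), I.perm e i ∈ LW (I.dst e)) → F e ≤ 1)
    (hF' : ∀ e, (¬ ∃ i ∈ LU (I.src e), I.perm e i ∈ LW (I.dst e)) → F e ≤ 0) :
    ∑ e, F e ≤ (k : ℝ) * k * I.value * Fintype.card ι := by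
  classical
  choose fU hfU using fun u => exists_enum (Classical.arbitrary Λ) k (LU u) (hLUc u)
  choose fW hfW using fun w => exists_enum (Classical.arbitrary Λ) k (LW w) (hLWc w)
  have hpt : ∀ e, F e ≤ ∑ j : Fin k, ∑ j' : Fin k,
      if I.perm e (fU (I.src e) j) = fW (I.dst e) j' then (1 : ℝ) else 0 := by
    intro e
    have hnn : ∀ j j' : Fin k, (0 : ℝ) ≤
        if I.perm e (fU (I.src e) j) = fW (I.dst e) j' then (1 : ℝ) else 0 := by
      intro j j'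
      split_ifs <;> norm_num
    by_cases hd : ∃ i ∈ LU (I.src e), I.perm e i ∈ LW (I.dst e)
    · refine (hF e hd).trans ?_
      obtain ⟨i, hi, hi'⟩ := hd
      obtain ⟨j, hj⟩ := hfU _ i hi
      obtain ⟨j', hj'⟩ := hfW _ _ hi'
      have h1 : (1 : ℝ) ≤ ∑ j' : Fin k,
          if I.perm e (fU (I.src e) j) = fW (I.dst e) j' then (1 : ℝ) else 0 := by
        refine le_trans (le_of_eq ?_) (Finset.single_le_sum (f := fun j' =>
          if I.perm e (fU (I.src e) j) = fW (I.dst e) j' then (1 : ℝ) else 0)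
          (fun j' _ => hnn j j') (mem_univ j'))
        rw [if_pos (by rw [hj, hj'])]
      exact h1.trans (Finset.single_le_sum (f := fun j => ∑ j' : Fin k,
        if I.perm e (fU (I.src e) j) = fW (I.dst e) j' then (1 : ℝ) else 0)
        (fun j _ => Finset.sum_nonneg (fun j' _ => hnn j j')) (mem_univ j))
    · exact (hF' e hd).trans
        (Finset.sum_nonneg (fun j _ => Finset.sum_nonneg (fun j' _ => hnn j j')))
  have hι : (0 : ℝ) < Fintype.card ι := by exact_mod_cast Fintype.card_pos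
  refine (Finset.sum_le_sum (fun e _ => hpt e)).trans ?_
  rw [Finset.sum_comm]
  have hjj : ∀ j j' : Fin k, (∑ e, if I.perm e (fU (I.src e) j) = fW (I.dst e) j' then
      (1 : ℝ) else 0) ≤ I.value * Fintype.card ι := by
    intro j j'
    have h1 := le_value I (fun u => fU u j) (fun w => fW w j')
    rw [satFrac_eq, Fintype.expect_eq_sum_div_card, div_le_iff₀ hι] at h1
    exact h1
  have h2 : ∀ j : Fin k, (∑ e, ∑ j' : Fin k,
      if I.perm e (fU (I.src e) j) = fW (I.dst e) j' then (1 : ℝ) else 0) ≤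
      k * (I.value * Fintype.card ι) := by
    intro j
    rw [Finset.sum_comm]
    refine (Finset.sum_le_sum (fun j' _ => hjj j j')).trans (le_of_eq ?_)
    rw [Finset.sum_const, Finset.card_univ, Fintype.card_fin, nsmul_eq_mul]
  refine (Finset.sum_le_sum (fun j _ => h2 j)).trans (le_of_eq ?_)
  rw [Finset.sum_const, Finset.card_univ, Fintype.card_fin, nsmul_eq_mul]
  ring

/-- The acceptance of a pair of fractional tables on light labels. -/
theorem densB_pair {Ω Λ : Type} [Fintype Ω] [DecidableEq Ω] {o : Ω} [Fintype Λ] [DecidableEq Λ]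
    (Φ : Sys Ω o) (D : ℕ) {h g : Ω → (Λ → Ω) → ℝ} (h0 : ∀ ω x, 0 ≤ h ω x)
    (hs : ∀ x, ∑ ω, h ω x = 1) (g0 : ∀ ω x, 0 ≤ g ω x)
    (gs : ∀ x, ∑ ω, g ω x = 1) (t : ℕ) (ht : 1 ≤ t) (θ : ℝ) (hθ : 0 < θ) (hθ1 : θ ≤ 1)
    (L : Finset Ω)
    (τ τ' : ℝ) (hτ0 : 0 < τ) (hτ' : τ' ≤ τ) (hτ'0 : 0 ≤ τ')
    (hD : (1 / 2) ^ D ≤ (θ ^ 2) ^ t)
    (hτD : (1 + Fintype.card Ω : ℝ) ^ D * τ ≤ 15 * (θ ^ 2) ^ (4 * t))
    (hsm : D / τ * τ' + (1 - 1 / (t : ℝ)) ^ (2 * D) ≤ (θ ^ 2) ^ 2 / 4)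
    (hL : (∀ ω ∈ L, (𝔼 x, h ω x) ≤ (θ ^ 2) ^ (4 * t)) ∨
      (∀ ω ∈ L, (𝔼 x, g ω x) ≤ (θ ^ 2) ^ (4 * t))) :
    (∑ ω ∈ L, (𝔼 x : Λ → Ω, 𝔼 m : Λ → Fin t × Ω, h ω x * g ω (mix x m)) ≤ 1) ∧
    ((∀ i, JJ Φ D h i < τ' ∨ JJ Φ D g i < τ') →
      ∑ ω ∈ L, (𝔼 x : Λ → Ω, 𝔼 m : Λ → Fin t × Ω, h ω x * g ω (mix x m)) ≤ 3 * θ) := by
  have hne : Nonempty (Fin t × Ω) := ⟨(⟨0, ht⟩, o)⟩
  have hneO : Nonempty Ω := ⟨o⟩
  constructor
  · have hbd : ∀ ω, (𝔼 x : Λ → Ω, 𝔼 m : Λ → Fin t × Ω, h ω x * g ω (mix x m)) ≤ 𝔼 x, h ω x := by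
      intro ω
      refine Finset.expect_le_expect (fun x _ => ?_)
      refine Finset.expect_le Finset.univ_nonempty (fun s _ => ?_)
      have e1 := le_one_of_sum g0 gs ω (mix x s)
      calc h ω x * _ ≤ h ω x * 1 := mul_le_mul_of_nonneg_left e1 (h0 ω x)
        _ = h ω x := mul_one _
    refine (Finset.sum_le_sum (fun ω _ => hbd ω)).trans ?_
    rw [← sum_expect Φ hs]
    exact Finset.sum_le_sum_of_subset_of_nonneg (Finset.subset_univ _)
      (fun ω _ _ => Finset.expect_nonneg (fun x _ => h0 ω x))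
  · intro hno
    have e1 : ∀ ω, (𝔼 x : Λ → Ω, 𝔼 m : Λ → Fin t × Ω, h ω x * g ω (mix x m)) =
        ∑ α, (1 - 1 / (t : ℝ)) ^ (supp o α).card *
          ((Φ.pi Λ).coef (h ω) α * (Φ.pi Λ).coef (g ω) α) := by
      intro ω
      rw [← noise Φ t ht]
      rfl
    simp_rw [e1]
    have e2 : 2 * θ + θ ^ 2 / 2 ≤ 3 * θ := by nlinarith
    rcases hL with hL | hL
    · exact (light Φ D h0 hs g0 gs t ht θ hθ L hL τ τ' hτ0 hτ' hτ'0 hD hτD hsm hno).trans e2
    · refine le_trans (le_of_eq ?_) ((light Φ D g0 gs h0 hs t ht θ hθ L hL τ τ' hτ0 hτ' hτ'0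
        hD hτD hsm (fun i => (hno i).symm)).trans e2)
      refine Finset.sum_congr rfl (fun ω _ => Finset.sum_congr rfl (fun α _ => ?_))
      rw [mul_comm ((Φ.pi Λ).coef (h ω) α)]

theorem edge_light (Ω : Type) [Fintype Ω] [Nonempty Ω] [DecidableEq Ω] (t : ℕ) (ht : 1 ≤ t) (θ : ℝ)
    (hθ0 : 0 < θ) (hθ1 : θ ≤ 1) :
    ∃ M : ℝ, 0 ≤ M ∧ ∀ (U W Λ ι : Type) [Fintype Λ] [DecidableEq Λ] [Nonempty Λ] [Fintype ι]
      [Nonempty ι] (I : Game U W Λ ι) (τ : Equiv.Perm Ω)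
      (A : U → Ω → (Λ → Ω) → ℝ) (B : W → Ω → (Λ → Ω) → ℝ),
      (∀ u ω x, 0 ≤ A u ω x) → (∀ u x, ∑ ω, A u ω x = 1) →
      (∀ w ω x, 0 ≤ B w ω x) → (∀ w x, ∑ ω, B w ω x = 1) →
      (∀ L : U → Finset Ω, (∀ u, ∀ ω ∈ L u, (𝔼 x, A u ω x) ≤ (θ ^ 2) ^ (4 * t)) →
        ∑ e, ∑ ω ∈ L (I.src e), (𝔼 x : Λ → Ω, 𝔼 m : Λ → Fin t × Ω, A (I.src e) ω x *
          B (I.dst e) (τ ω) (fun j => τ (mix x m ((I.perm e).symm j)))) ≤
        (3 * θ + M * I.value) * Fintype.card ι) ∧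
      (∀ L : W → Finset Ω, (∀ w, ∀ ω ∈ L w, (𝔼 x, B w ω x) ≤ (θ ^ 2) ^ (4 * t)) →
        ∑ e, ∑ ω ∈ univ.filter (fun ω => τ ω ∈ L (I.dst e)),
          (𝔼 x : Λ → Ω, 𝔼 m : Λ → Fin t × Ω, A (I.src e) ω x *
          B (I.dst e) (τ ω) (fun j => τ (mix x m ((I.perm e).symm j)))) ≤
        (3 * θ + M * I.value) * Fintype.card ι) := by
  classical
  obtain ⟨o⟩ := ‹Nonempty Ω›
  have hneO : Nonempty Ω := ⟨o⟩
  obtain ⟨Φ⟩ := exists_sys o
  obtain ⟨D, κ, κ', hκ'0, hκκ', p1, p2, p3⟩ :=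
    params t (Fintype.card Ω) ht (θ ^ 2) (by positivity)
  set k : ℕ := ⌈(D : ℝ) / κ'⌉₊ with hk
  refine ⟨(k : ℝ) * k, by positivity, ?_⟩
  intro U W Λ ι _ _ _ _ _ I τ A B hA0 hA1 hB0 hB1
  -- the lists
  set LU : U → Finset Λ := fun u => univ.filter (fun i => κ' ≤ JJ Φ D (A u) i) with hLU
  set LW : W → Finset Λ := fun w => univ.filter (fun i => κ' ≤ JJ Φ D (B w) i) with hLW
  have hLUc : ∀ u, (LU u).card ≤ k := by
    intro u
    have h1 := card_big Φ D (h := A u) (hA0 u) (hA1 u) hκ'0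
    have h2 : ((LU u).card : ℝ) ≤ (k : ℝ) := h1.trans (Nat.le_ceil _)
    exact_mod_cast h2
  have hLWc : ∀ w, (LW w).card ≤ k := by
    intro w
    have h1 := card_big Φ D (h := B w) (hB0 w) (hB1 w) hκ'0
    have h2 : ((LW w).card : ℝ) ≤ (k : ℝ) := h1.trans (Nat.le_ceil _)
    exact_mod_cast h2
  -- the general statement
  have main : ∀ T : ι → Finset Ω,
      (∀ e, (∀ ω ∈ T e, (𝔼 x, A (I.src e) ω x) ≤ (θ ^ 2) ^ (4 * t)) ∨
        (∀ ω ∈ T e, (𝔼 x, B (I.dst e) (τ ω) x) ≤ (θ ^ 2) ^ (4 * t))) →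
      ∑ e, ∑ ω ∈ T e, (𝔼 x : Λ → Ω, 𝔼 m : Λ → Fin t × Ω, A (I.src e) ω x *
          B (I.dst e) (τ ω) (fun j => τ (mix x m ((I.perm e).symm j)))) ≤
        (3 * θ + (k : ℝ) * k * I.value) * Fintype.card ι := by
    intro T hT
    have hpair : ∀ e, _ := fun e => densB_pair Φ D (h := A (I.src e))
      (g := fun ω x => B (I.dst e) (τ ω) (fun j => τ (x ((I.perm e).symm j))))
      (hA0 _) (hA1 _) (fun ω x => hB0 _ _ _) (fun x => by
        rw [Equiv.sum_comp τ (fun ω => B (I.dst e) ω (fun j => τ (x ((I.perm e).symm j))))]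
        exact hB1 _ _) t ht θ hθ0 hθ1 (T e) κ κ' (hκ'0.trans_le hκκ') hκκ' hκ'0.le p1 p2 p3 (by
        rcases hT e with h1 | h1
        · exact Or.inl h1
        · refine Or.inr (fun ω hω => ?_)
          rw [mean_move τ (I.perm e) (B (I.dst e) (τ ω))]
          exact h1 ω hω)
    have hdec := densB_dec I k LU LW hLUc hLWc (fun e => (∑ ω ∈ T e,
      (𝔼 x : Λ → Ω, 𝔼 m : Λ → Fin t × Ω, A (I.src e) ω x *
          B (I.dst e) (τ ω) (fun j => τ (mix x m ((I.perm e).symm j))))) - 3 * θ)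
      (fun e _ => by
        have := (hpair e).1
        linarith)
      (fun e hd => by
        have := (hpair e).2 (by
          intro i
          by_contra hcon
          push Not at hcon
          apply hd
          refine ⟨i, ?_, ?_⟩
          · rw [hLU, Finset.mem_filter]
            exact ⟨mem_univ _, hcon.1⟩
          · rw [hLW, Finset.mem_filter]
            refine ⟨mem_univ _, ?_⟩
            rw [← JJ_move Φ D τ τ (I.perm e) (B (I.dst e)) i]
            exact hcon.2)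
        linarith)
    rw [Finset.sum_sub_distrib, Finset.sum_const, Finset.card_univ, nsmul_eq_mul] at hdec
    linarith
  refine ⟨fun L hL => main (fun e => L (I.src e)) (fun e => Or.inl (hL _)), fun L hL =>
    main (fun e => univ.filter (fun ω => τ ω ∈ L (I.dst e))) (fun e => Or.inr (fun ω hω =>
      hL _ _ (Finset.mem_filter.1 hω).2))⟩

end Pool.Agent.CovT
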