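import Mathlib
import Pool.Agent.Lib.CovT.Tests

/-!
# CovT.KeepT (0.8 h): erasing labels

Adapt `cut_freq`, `cut_wt` of `Pool/Agent/Lib/P325d/Sound.lean` to an arbitrary predicate `kp c a`
(the label `a` is kept in the cloud `c`) instead of `cw ≤ R`. The kept labels keep their frequency
(the predicate depends only on the cloud and the label); the erased label `none` costs at most
`exp (-|H|)` (`P325d.none_prod`).
-/

open Finset

namespace Pool.Agent.CovT

open Pool.Agent.P325f1f.Dich Pool.Agent.P325d

variable {H C Ω : Type} [Fintype H] [DecidableEq C] [DecidableEq Ω]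

theorem er_pos (c0 : H → C) (kp : C → Ω → Prop) (x : H → Ω) (h : H) (hk : kp (c0 h) (x h)) :
    er c0 kp x h = some (x h) := by
  classical
  unfold er
  exact if_pos hk

theorem er_neg (c0 : H → C) (kp : C → Ω → Prop) (x : H → Ω) (h : H) (hk : ¬ kp (c0 h) (x h)) :
    er c0 kp x h = none := by
  classical
  unfold er
  exact if_neg hk

theorem er_freq (c0 : H → C) (kp : C → Ω → Prop) (x : H → Ω) (h : H) (hk : kp (c0 h) (x h)) :
    freq c0 (er c0 kp x) (c0 h) (some (x h)) = freq c0 x (c0 h) (x h) := by
  unfold freq
  congr 2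
  unfold cnt
  congr 1
  ext h'
  simp only [mem_filter, mem_univ, true_and]
  constructor
  · rintro ⟨h1, h2⟩
    refine ⟨h1, ?_⟩
    by_cases h3 : kp (c0 h') (x h')
    · rw [er_pos c0 kp x h' h3] at h2
      exact Option.some_injective _ h2
    · rw [er_neg c0 kp x h' h3] at h2
      cases h2
  · rintro ⟨h1, h2⟩
    refine ⟨h1, ?_⟩
    have h3 : kp (c0 h') (x h') := by rw [h1, h2]; exact hk
    rw [er_pos c0 kp x h' h3, h2]

/-- The frequency of a label after erasing: unchanged if the label is kept, zero otherwise. -/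
theorem er_freq' (c0 : H → C) (kp : C → Ω → Prop) (x : H → Ω) (c : C) (a : Ω) [Decidable (kp c a)] :
    freq c0 (er c0 kp x) c (some a) = if kp c a then freq c0 x c a else 0 := by
  have key : cnt c0 (er c0 kp x) c (some a) = if kp c a then cnt c0 x c a else 0 := by
    unfold cnt
    split_ifs with hk
    · congr 1
      ext h'
      simp only [mem_filter, mem_univ, true_and]
      constructor
      · rintro ⟨h1, h2⟩
        refine ⟨h1, ?_⟩
        by_cases h3 : kp (c0 h') (x h')
        · rw [er_pos c0 kp x h' h3] at h2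
          exact Option.some_injective _ h2
        · rw [er_neg c0 kp x h' h3] at h2
          cases h2
      · rintro ⟨h1, h2⟩
        refine ⟨h1, ?_⟩
        have h3 : kp (c0 h') (x h') := by rw [h1, h2]; exact hk
        rw [er_pos c0 kp x h' h3, h2]
    · rw [card_eq_zero, filter_eq_empty_iff]
      rintro h' - ⟨h1, h2⟩
      by_cases h3 : kp (c0 h') (x h')
      · rw [er_pos c0 kp x h' h3] at h2
        have h4 : x h' = a := Option.some_injective _ h2
        rw [h1, h4] at h3
        exact hk h3
      · rw [er_neg c0 kp x h' h3] at h2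
        cases h2
  unfold freq
  rw [key]
  split_ifs with hk
  · rfl
  · simp

open Classical in
theorem er_wt [Fintype C] (c0 : H → C) (kp : C → Ω → Prop) (x : H → Ω) :
    Real.exp (-(∑ h ∈ univ.filter (fun h => kp (c0 h) (x h)), cw c0 x h) - Fintype.card H) ≤
      ∏ h, freq c0 (er c0 kp x) (c0 h) (er c0 kp x h) := by
  rw [sub_eq_add_neg, Real.exp_add,
    ← Finset.prod_filter_mul_prod_filter_not univ (fun h => kp (c0 h) (x h))]
  refine mul_le_mul ?_ ?_ (Real.exp_pos _).le (prod_nonneg (fun _ _ => freq_nonneg _ _ _ _))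
  · rw [← sum_neg_distrib, Real.exp_sum]
    refine le_of_eq (prod_congr rfl (fun c hc => ?_))
    have h := (mem_filter.1 hc).2
    rw [exp_neg_cw, er_pos c0 kp x c h, er_freq c0 kp x c h]
  · have h1 := none_prod c0 (er c0 kp x) none
    refine h1.trans (le_of_eq ?_)
    refine prod_congr ?_ (fun _ _ => rfl)
    ext c
    simp only [mem_filter, mem_univ, true_and]
    by_cases h : kp (c0 c) (x c)
    · rw [er_pos c0 kp x c h]
      simp [h]
    · rw [er_neg c0 kp x c h]
      simp [h]

end Pool.Agent.CovT
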