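import Mathlib
import Pool.Agent.Lib.CovT.DensA
import Pool.Agent.Lib.CovT.DensB
import Pool.Agent.Lib.CovT.KeepT

/-!
# CovT.DensC (1.3 h): the density of the edges with a light label is small

`nmean b x a ω`: the mean over the points `z` of the long code of the frequency of `ω` in the cloud
`(a, z)`. `dens_light`: if all labels kept on one side are light (`nmean ≤ (θ²)^(4t)`), the density of
the erased labelings is at most `(3 θ + M value) |K| |Slot|`.

Proof: `dens_eq`; by `er_freq'` the frequency of `some ω` after erasing is at most the frequency of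
`ω` before, and zero if `ω` is not kept, in particular it is at most `[ω light] * freq`. For fixed `k`
apply `edge_light` with `A u ω z = freq (cs cl false) (x (s k)) (Sum.inl u, z) ω` if `u` has an edge
(then the cloud is not empty: `T ≥ 1`, `t ≥ 1`, and `sum_freq` gives the sum `1`), and
`A u ω z = 1 / |Ω|` otherwise; similarly `B`. `L u` = the light labels if `u` has an edge, else `∅`.
`|Slot| = |ι| * |Λ → Ω| * |Λ → Fin t × Ω| * T`.
-/

open Finset
open scoped BigOperators

namespace Pool.Agent.CovT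

open Pool.Agent.P325f1f.Dich Pool.Agent.P325d

/-- The mean frequency of the label `ω` in the clouds over the node `a`. -/
noncomputable def nmean {U W Λ ι Ω : Type} {t T : ℕ} [Fintype ι] [Fintype Λ] [Fintype Ω]
    [DecidableEq U] [DecidableEq W] [DecidableEq Ω] (src : ι → U) (dst : ι → W) (b : Bool)
    (x : Slot ι Λ Ω t T → Ω) (a : U ⊕ W) (ω : Ω) : ℝ := by
  classical
  exact 𝔼 z : Λ → Ω, freq (cs (cloud src dst) b) x (a, z) ω

/-- At most `1 / η` labels are heavy at a node. -/
theorem heavy_card {U W Λ ι Ω : Type} {t T : ℕ} [Fintype ι] [Fintype Λ] [Fintype Ω]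
    [DecidableEq U] [DecidableEq W] [DecidableEq Ω] (src : ι → U) (dst : ι → W) (b : Bool)
    (x : Slot ι Λ Ω t T → Ω) (a : U ⊕ W) (η : ℝ) (hη : 0 < η) :
    ((univ.filter (fun ω => η < nmean src dst b x a ω)).card : ℝ) ≤ 1 / η := by
  classical
  have h1 : ∑ ω, nmean src dst b x a ω ≤ 1 := by
    unfold nmean
    rw [← Finset.expect_sum_comm]
    rcases isEmpty_or_nonempty (Λ → Ω) with h | h
    · rw [Finset.univ_eq_empty, Finset.expect_empty]
      exact zero_le_one
    · refine (Finset.expect_le_expect (g := fun _ => (1 : ℝ)) fun z _ => ?_).trans ?_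
      · exact sum_freq_le_one _ _ _
      · rw [Finset.expect_const Finset.univ_nonempty]
  have h0 : ∀ ω, 0 ≤ nmean src dst b x a ω := by
    intro ω
    unfold nmean
    exact Finset.expect_nonneg fun z _ => freq_nonneg _ _ _ _
  rw [le_div_iff₀ hη]
  calc ((univ.filter (fun ω => η < nmean src dst b x a ω)).card : ℝ) * η
      = ∑ _ω ∈ univ.filter (fun ω => η < nmean src dst b x a ω), η := by
        rw [sum_const, nsmul_eq_mul]
    _ ≤ ∑ ω ∈ univ.filter (fun ω => η < nmean src dst b x a ω), nmean src dst b x a ω :=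
        sum_le_sum fun ω hω => (mem_filter.1 hω).2.le
    _ ≤ ∑ ω, nmean src dst b x a ω :=
        sum_le_sum_of_subset_of_nonneg (filter_subset _ _) fun ω _ _ => h0 ω
    _ ≤ 1 := h1

namespace DensCAux

section tables

variable {U W Λ ι Ω : Type} {t T : ℕ} [Fintype ι] [Fintype Λ] [Fintype Ω] [DecidableEq Λ]
    [DecidableEq U] [DecidableEq W] [DecidableEq Ω]

theorem nmean_eq (src : ι → U) (dst : ι → W) (b : Bool) (x : Slot ι Λ Ω t T → Ω)
    (n : U ⊕ W) (ω : Ω) :
    nmean src dst b x n ω = 𝔼 z : Λ → Ω, freq (cs (cloud src dst) b) x (n, z) ω := by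
  have key : ∀ d d' : DecidableEq Λ,
      (let _ := d; 𝔼 z : Λ → Ω, freq (cs (cloud src dst) b) x (n, z) ω) =
      (let _ := d'; 𝔼 z : Λ → Ω, freq (cs (cloud src dst) b) x (n, z) ω) := by
    intro d d'
    obtain rfl : d = d' := Subsingleton.elim _ _
    rfl
  exact key _ _

open Classical in
/-- the table of label frequencies of the nodes with an edge -/
noncomputable def tab (src : ι → U) (dst : ι → W) (b : Bool) (x : Slot ι Λ Ω t T → Ω)
    (n : U ⊕ W) (P : Prop) (ω : Ω) (z : Λ → Ω) : ℝ :=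
  if P then freq (cs (cloud src dst) b) x (n, z) ω else 1 / (Fintype.card Ω : ℝ)

theorem tab_nonneg (src : ι → U) (dst : ι → W) (b : Bool) (x : Slot ι Λ Ω t T → Ω)
    (n : U ⊕ W) (P : Prop) (ω : Ω) (z : Λ → Ω) : 0 ≤ tab src dst b x n P ω z := by
  unfold tab
  split_ifs
  · exact freq_nonneg _ _ _ _
  · positivity

theorem tab_sum [Nonempty Ω] (ht : 1 ≤ t) (hT : 1 ≤ T) (src : ι → U) (dst : ι → W) (b : Bool)
    (x : Slot ι Λ Ω t T → Ω) (n : U ⊕ W) (P : Prop)
    (hP : P → ∃ e : ι, (if b then Sum.inr (dst e) else Sum.inl (src e)) = n) (z : Λ → Ω) :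
    ∑ ω, tab src dst b x n P ω z = 1 := by
  unfold tab
  by_cases h : P
  · simp only [if_pos h]
    obtain ⟨e, rfl⟩ := hP h
    exact sum_freq (cs (cloud src dst) b) x
      ((e, z, (fun _ => (⟨0, ht⟩, Classical.arbitrary Ω)), ⟨0, hT⟩) : Slot ι Λ Ω t T)
  · simp only [if_neg h]
    rw [sum_const, card_univ, nsmul_eq_mul]
    have : (Fintype.card Ω : ℝ) ≠ 0 := by exact_mod_cast Fintype.card_ne_zero
    field_simp

end tables

end DensCAux

open DensCAux

open Classical in
theorem dens_light (Ω : Type) [Fintype Ω] [Nonempty Ω] [DecidableEq Ω] (t : ℕ) (ht : 1 ≤ t) (θ : ℝ)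
    (hθ0 : 0 < θ) (hθ1 : θ ≤ 1) :
    ∃ M : ℝ, 0 ≤ M ∧ ∀ (U W Λ ι PL PR K : Type) [DecidableEq U] [DecidableEq W]
      [Fintype Λ] [DecidableEq Λ] [Nonempty Λ] [Fintype ι] [Nonempty ι] [Fintype K]
      (I : Game U W Λ ι) (T : ℕ) (_ : 1 ≤ T) (s : K → PL) (d : K → PR) (σ : K → Equiv.Perm Ω)
      (x : PL → Slot ι Λ Ω t T → Ω) (y : PR → Slot ι Λ Ω t T → Ω)
      (kL : PL → (U ⊕ W) × (Λ → Ω) → Ω → Prop) (kR : PR → (U ⊕ W) × (Λ → Ω) → Ω → Prop),
      ((∀ p c a, kL p c a → nmean I.src I.dst false (x p) c.1 a ≤ (θ ^ 2) ^ (4 * t)) ∨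
        (∀ p c a, kR p c a → nmean I.src I.dst true (y p) c.1 a ≤ (θ ^ 2) ^ (4 * t))) →
      dens (cloud I.src I.dst) s d σ (fun k => carry (σ k) I.perm)
        (fun p => er (cs (cloud I.src I.dst) false) (kL p) (x p))
        (fun p => er (cs (cloud I.src I.dst) true) (kR p) (y p)) ≤
      (3 * θ + M * I.value) * (Fintype.card K * Fintype.card (Slot ι Λ Ω t T)) := by
  obtain ⟨M, hM, hedge⟩ := edge_light Ω t ht θ hθ0 hθ1
  refine ⟨M, hM, ?_⟩
  intro U W Λ ι PL PR K _ _ _ _ _ _ _ _ I T hT s d σ x y kL kR hlr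
  rw [dens_eq]
  set c : ℝ := 3 * θ + M * I.value with hc
  -- the bound for one `k`
  have hk : ∀ k : K, ∑ e, 𝔼 z : Λ → Ω, 𝔼 m : Λ → Fin t × Ω, ∑ ω,
        freq (cs (cloud I.src I.dst) false) (er (cs (cloud I.src I.dst) false) (kL (s k)) (x (s k)))
          (Sum.inl (I.src e), z) (some ω) *
        freq (cs (cloud I.src I.dst) true) (er (cs (cloud I.src I.dst) true) (kR (d k)) (y (d k)))
          (Sum.inr (I.dst e), fun j => σ k (mix z m ((I.perm e).symm j))) (some (σ k ω)) ≤
      c * Fintype.card ι := by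
    intro k
    obtain ⟨A, hA⟩ : ∃ A : U → Ω → (Λ → Ω) → ℝ, A = fun u ω z =>
      tab I.src I.dst false (x (s k)) (Sum.inl u) (∃ e, I.src e = u) ω z := ⟨_, rfl⟩
    obtain ⟨B, hB⟩ : ∃ B : W → Ω → (Λ → Ω) → ℝ, B = fun w ω z =>
      tab I.src I.dst true (y (d k)) (Sum.inr w) (∃ e, I.dst e = w) ω z := ⟨_, rfl⟩
    have hA0 : ∀ u ω z, 0 ≤ A u ω z := fun u ω z => by rw [hA]; exact tab_nonneg _ _ _ _ _ _ _ _
    have hB0 : ∀ u ω z, 0 ≤ B u ω z := fun u ω z => by rw [hB]; exact tab_nonneg _ _ _ _ _ _ _ _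
    have hA1 : ∀ u z, ∑ ω, A u ω z = 1 := by
      intro u z
      rw [hA]
      refine tab_sum ht hT _ _ _ _ _ _ ?_ z
      rintro ⟨e, rfl⟩
      exact ⟨e, rfl⟩
    have hB1 : ∀ u z, ∑ ω, B u ω z = 1 := by
      intro u z
      rw [hB]
      refine tab_sum ht hT _ _ _ _ _ _ ?_ z
      rintro ⟨e, rfl⟩
      exact ⟨e, rfl⟩
    have hAe : ∀ e ω z, A (I.src e) ω z = freq (cs (cloud I.src I.dst) false) (x (s k)) (Sum.inl (I.src e), z) ω := by
      intro e ω z
      rw [hA]
      simp only [tab]
      rw [if_pos ⟨e, rfl⟩]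
    have hBe : ∀ e ω z, B (I.dst e) ω z = freq (cs (cloud I.src I.dst) true) (y (d k)) (Sum.inr (I.dst e), z) ω := by
      intro e ω z
      rw [hB]
      simp only [tab]
      rw [if_pos ⟨e, rfl⟩]
    obtain ⟨hL, hR⟩ := hedge U W Λ ι I (σ k) A B hA0 hA1 hB0 hB1
    have hFL : ∀ e z ω, freq (cs (cloud I.src I.dst) false)
        (er (cs (cloud I.src I.dst) false) (kL (s k)) (x (s k))) (Sum.inl (I.src e), z) (some ω) =
        if kL (s k) (Sum.inl (I.src e), z) ω then A (I.src e) ω z else 0 := by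
      intro e z ω
      rw [er_freq', hAe]
    have hFR : ∀ e z ω, freq (cs (cloud I.src I.dst) true)
        (er (cs (cloud I.src I.dst) true) (kR (d k)) (y (d k))) (Sum.inr (I.dst e), z) (some ω) =
        if kR (d k) (Sum.inr (I.dst e), z) ω then B (I.dst e) ω z else 0 := by
      intro e z ω
      rw [er_freq', hBe]
    simp only [hFL, hFR]
    rcases hlr with hl | hr
    · -- light labels on the left
      obtain ⟨L, hLd⟩ : ∃ L : U → Finset Ω, L = fun u => if (∃ e, I.src e = u) then
        univ.filter (fun ω => nmean I.src I.dst false (x (s k)) (Sum.inl u) ω ≤ (θ ^ 2) ^ (4 * t)) else ∅ := ⟨_, rfl⟩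
      have hLm : ∀ e ω, nmean I.src I.dst false (x (s k)) (Sum.inl (I.src e)) ω ≤ (θ ^ 2) ^ (4 * t) →
          ω ∈ L (I.src e) := by
        intro e ω h1
        rw [hLd]
        dsimp only
        rw [if_pos ⟨e, rfl⟩, mem_filter]
        exact ⟨mem_univ _, h1⟩
      have hLl : ∀ u, ∀ ω ∈ L u, (𝔼 z, A u ω z) ≤ (θ ^ 2) ^ (4 * t) := by
        intro u ω hω
        by_cases hu : ∃ e, I.src e = u
        · rw [hLd] at hω
          simp only [if_pos hu, mem_filter, mem_univ, true_and] at hω
          refine le_trans (le_of_eq ?_) hω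
          rw [nmean_eq]
          refine Finset.expect_congr rfl fun z _ => ?_
          rw [hA]
          simp only [tab, if_pos hu]
        · rw [hLd] at hω
          simp only [if_neg hu] at hω
          exact absurd hω (Finset.notMem_empty ω)
      refine le_trans ?_ (hL L hLl)
      refine sum_le_sum fun e _ => ?_
      rw [Finset.expect_congr rfl fun z _ => Finset.expect_sum_comm _ _ _, Finset.expect_sum_comm]
      rw [← Finset.sum_subset (Finset.subset_univ (L (I.src e)))]
      · refine sum_le_sum fun ω _ => ?_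
        refine Finset.expect_le_expect fun z _ => Finset.expect_le_expect fun m _ => ?_
        refine mul_le_mul ?_ ?_ ?_ (hA0 _ _ _)
        · split_ifs
          · exact le_rfl
          · exact hA0 _ _ _
        · split_ifs
          · exact le_rfl
          · exact hB0 _ _ _
        · split_ifs
          · exact hB0 _ _ _
          · exact le_rfl
      · intro ω _ hω
        refine Finset.expect_eq_zero fun z _ => Finset.expect_eq_zero fun m _ => ?_
        rw [if_neg, zero_mul]
        intro hkL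
        apply hω
        have h1 : nmean I.src I.dst false (x (s k)) (Sum.inl (I.src e)) ω ≤ (θ ^ 2) ^ (4 * t) :=
          hl (s k) (Sum.inl (I.src e), z) ω hkL
        exact hLm e ω h1
    · obtain ⟨L, hLd⟩ : ∃ L : W → Finset Ω, L = fun u => if (∃ e, I.dst e = u) then
        univ.filter (fun ω => nmean I.src I.dst true (y (d k)) (Sum.inr u) ω ≤ (θ ^ 2) ^ (4 * t)) else ∅ := ⟨_, rfl⟩
      have hLm : ∀ e ω, nmean I.src I.dst true (y (d k)) (Sum.inr (I.dst e)) ω ≤ (θ ^ 2) ^ (4 * t) →
          ω ∈ L (I.dst e) := by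
        intro e ω h1
        rw [hLd]
        dsimp only
        rw [if_pos ⟨e, rfl⟩, mem_filter]
        exact ⟨mem_univ _, h1⟩
      have hLl : ∀ u, ∀ ω ∈ L u, (𝔼 z, B u ω z) ≤ (θ ^ 2) ^ (4 * t) := by
        intro u ω hω
        by_cases hu : ∃ e, I.dst e = u
        · rw [hLd] at hω
          simp only [if_pos hu, mem_filter, mem_univ, true_and] at hω
          refine le_trans (le_of_eq ?_) hω
          rw [nmean_eq]
          refine Finset.expect_congr rfl fun z _ => ?_
          rw [hB]
          simp only [tab, if_pos hu]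
        · rw [hLd] at hω
          simp only [if_neg hu] at hω
          exact absurd hω (Finset.notMem_empty ω)
      refine le_trans ?_ (hR L hLl)
      refine sum_le_sum fun e _ => ?_
      rw [Finset.expect_congr rfl fun z _ => Finset.expect_sum_comm _ _ _, Finset.expect_sum_comm]
      rw [← Finset.sum_subset (Finset.subset_univ (univ.filter (fun ω => σ k ω ∈ L (I.dst e))))]
      · refine sum_le_sum fun ω _ => ?_
        refine Finset.expect_le_expect fun z _ => Finset.expect_le_expect fun m _ => ?_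
        refine mul_le_mul ?_ ?_ ?_ (hA0 _ _ _)
        · split_ifs
          · exact le_rfl
          · exact hA0 _ _ _
        · split_ifs
          · exact le_rfl
          · exact hB0 _ _ _
        · split_ifs
          · exact hB0 _ _ _
          · exact le_rfl
      · intro ω _ hω
        refine Finset.expect_eq_zero fun z _ => Finset.expect_eq_zero fun m _ => ?_
        rw [if_neg (c := kR _ _ _), mul_zero]
        intro hkR
        apply hω
        rw [mem_filter]
        refine ⟨mem_univ _, ?_⟩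
        have h1 : nmean I.src I.dst true (y (d k)) (Sum.inr (I.dst e)) (σ k ω) ≤ (θ ^ 2) ^ (4 * t) :=
          hr (d k) (Sum.inr (I.dst e), fun j => σ k (mix z m ((I.perm e).symm j))) (σ k ω) hkR
        exact hLm e _ h1
  have hcard : (Fintype.card (Slot ι Λ Ω t T) : ℝ) =
      (Fintype.card ι : ℝ) * ((T : ℝ) * Fintype.card (Λ → Ω) * Fintype.card (Λ → Fin t × Ω)) := by
    unfold Slot
    rw [Fintype.card_prod, Fintype.card_prod, Fintype.card_prod, Fintype.card_fin]
    push_cast
    ring
  rw [hcard]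
  calc ((T : ℝ) * Fintype.card (Λ → Ω) * Fintype.card (Λ → Fin t × Ω)) *
      ∑ k, ∑ e, 𝔼 z : Λ → Ω, 𝔼 m : Λ → Fin t × Ω, ∑ ω,
        freq (cs (cloud I.src I.dst) false) (er (cs (cloud I.src I.dst) false) (kL (s k)) (x (s k)))
          (Sum.inl (I.src e), z) (some ω) *
        freq (cs (cloud I.src I.dst) true) (er (cs (cloud I.src I.dst) true) (kR (d k)) (y (d k)))
          (Sum.inr (I.dst e), fun j => σ k (mix z m ((I.perm e).symm j))) (some (σ k ω))
      ≤ ((T : ℝ) * Fintype.card (Λ → Ω) * Fintype.card (Λ → Fin t × Ω)) * ∑ _k : K, c * Fintype.card ι := by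
        refine mul_le_mul_of_nonneg_left (sum_le_sum fun k _ => hk k) (by positivity)
    _ = _ := by
        rw [sum_const, card_univ, nsmul_eq_mul]
        ring

end Pool.Agent.CovT
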