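import Mathlib
import Pool.Agent.Lib.CovT.Defs
import Pool.Agent.Lib.P325d.Easy

/-!
# CovT.EndsT (1.5 h): completeness, coverings, the easy half

* `complete_T`: for a labeling `(a, c)` of `I` label the left vertex `(p, (e, x, s, i))` by
  `x (a (src e))` and the right vertex `(p, (e, z, s, i))` by `z (c (dst e))`. Since `r.g k` keeps the
  clouds, the edge `(k, (e, x, s, i))` is satisfied iff
  `σ k (x (a (src e))) = σ k (mix x s ((perm e).symm (c (dst e))))`; so the fraction is the same as the
  one of `longGame t σ I` for the dictators (an expectation over `e, k, x, s`, and `i` does not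
  matter), and `complete_aux` of `Dich/Games.lean` applies; then the supremum as in `complete`.
* `cover_left`, `cover_right`: at a vertex of type `p` there is exactly one edge of every type `k` with
  `s k = p` (resp. `d k = p`): `r.g k` and `carry` are bijections (`half_eq`, `cloud_side`).
* `tree_value`: `P325d.tree_label` and `le_value`.
-/

open Finset
open scoped BigOperators

namespace Pool.Agent.CovT

open Pool.Agent.P325f1f.Dich Pool.Agent.P325d

variable {U W Λ ι Ω PL PR K : Type} {t T : ℕ}

/-- The first component of `exch`. -/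
theorem exch_fst {Ω : Type} {t : ℕ} (x : Ω) (c : Fin t × Ω) :
    (exch (x, c)).1 = if c.1.val = 0 then c.2 else x := by
  unfold exch
  by_cases h : c.1.val = 0
  · simp [h]
  · simp [h]

/-- The label of a dictator on the left side depends only on the cloud. -/
theorem ends_left (I : Game U W Λ ι)
    (r : Rout K (Bool × Slot ι Λ Ω t T) ((U ⊕ W) × (Λ → Ω)) (cloud I.src I.dst)) (a : U → Λ)
    (k : K) (h : Slot ι Λ Ω t T) :
    (r.g k (false, h)).2.2.1 (a (I.src (r.g k (false, h)).2.1)) = h.2.1 (a (I.src h.1)) := by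
  have h1 := r.keep k (false, h)
  have h2 := half_eq (cloud_side I.src I.dst) r k false h
  rw [h2] at h1 ⊢
  have h3 : I.src (half r k false h).1 = I.src h.1 := by
    have := congrArg Prod.fst h1
    simpa [cloud] using this
  have h4 : (half r k false h).2.1 = h.2.1 := congrArg Prod.snd h1
  show (half r k false h).2.1 (a (I.src (half r k false h).1)) = _
  rw [h3, h4]

/-- The label of a dictator on the right side depends only on the cloud. -/
theorem ends_right (I : Game U W Λ ι)
    (r : Rout K (Bool × Slot ι Λ Ω t T) ((U ⊕ W) × (Λ → Ω)) (cloud I.src I.dst)) (c : W → Λ)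
    (k : K) (h : Slot ι Λ Ω t T) :
    (r.g k (true, h)).2.2.1 (c (I.dst (r.g k (true, h)).2.1)) = h.2.1 (c (I.dst h.1)) := by
  have h1 := r.keep k (true, h)
  have h2 := half_eq (cloud_side I.src I.dst) r k true h
  rw [h2] at h1 ⊢
  have h3 : I.dst (half r k true h).1 = I.dst h.1 := by
    have := congrArg Prod.fst h1
    simpa [cloud] using this
  have h4 : (half r k true h).2.1 = h.2.1 := congrArg Prod.snd h1
  show (half r k true h).2.1 (c (I.dst (half r k true h).1)) = _
  rw [h3, h4]

theorem complete_T_aux [Fintype ι] [Fintype Λ] [DecidableEq Λ] [Nonempty Λ] [Fintype Ω] [Nonempty Ω]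
    [Fintype K] [Nonempty K] (hT : 1 ≤ T)
    (s : K → PL) (d : K → PR) (σ : K → Equiv.Perm Ω) (I : Game U W Λ ι)
    (r : Rout K (Bool × Slot ι Λ Ω t T) ((U ⊕ W) × (Λ → Ω)) (cloud I.src I.dst))
    (a : U → Λ) (c : W → Λ) :
    (coverGame s d σ I r).satFrac (fun p => p.2.2.1 (a (I.src p.2.1)))
      (fun p => p.2.2.1 (c (I.dst p.2.1))) =
    (longGame t σ I).satFrac (fun p => p.2 (a p.1)) (fun p => p.2 (c p.1)) := by
  classical
  have : Nonempty (Fin T) := ⟨⟨0, hT⟩⟩
  rw [satFrac_eq, satFrac_eq, expect_pair, expect_pair]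
  have h1 : ∀ k : K, (𝔼 h : Slot ι Λ Ω t T,
      (if (coverGame s d σ I r).perm (k, h)
        ((fun p : PL × Slot ι Λ Ω t T => p.2.2.1 (a (I.src p.2.1)))
          ((coverGame s d σ I r).src (k, h))) =
        (fun p : PR × Slot ι Λ Ω t T => p.2.2.1 (c (I.dst p.2.1)))
          ((coverGame s d σ I r).dst (k, h)) then (1 : ℝ) else 0)) =
      𝔼 e : ι, 𝔼 x : (Λ → Ω) × (Λ → Fin t × Ω),
        (if (longGame t σ I).perm (e, k, x)
          ((fun p : U × (Λ → Ω) => p.2 (a p.1)) ((longGame t σ I).src (e, k, x))) =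
          (fun p : W × (Λ → Ω) => p.2 (c p.1)) ((longGame t σ I).dst (e, k, x))
          then (1 : ℝ) else 0) := by
    intro k
    rw [expect_pair]
    refine Finset.expect_congr rfl fun e _ => ?_
    rw [expect_pair, expect_pair]
    refine Finset.expect_congr rfl fun x _ => ?_
    rw [expect_pair]
    refine Finset.expect_congr rfl fun z _ => ?_
    refine (Finset.expect_congr rfl fun i _ => ?_).trans (Fintype.expect_const _)
    have e1 : (fun p : PL × Slot ι Λ Ω t T => p.2.2.1 (a (I.src p.2.1)))
        ((coverGame s d σ I r).src (k, (e, x, z, i))) = x (a (I.src e)) :=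
      ends_left I r a k (e, x, z, i)
    have e2 : (fun p : PR × Slot ι Λ Ω t T => p.2.2.1 (c (I.dst p.2.1)))
        ((coverGame s d σ I r).dst (k, (e, x, z, i))) =
        σ k (mix x z ((I.perm e).symm (c (I.dst e)))) := by
      refine (ends_right I r c k (carry (σ k) I.perm (e, x, z, i))).trans ?_
      show σ k (exch (x ((I.perm e).symm (c (I.dst e))), z ((I.perm e).symm (c (I.dst e))))).1 = _
      rw [exch_fst]
      rfl
    rw [e1, e2]
    rfl
  simp_rw [h1]
  rw [Finset.expect_comm]
  refine Finset.expect_congr rfl fun e _ => ?_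
  rw [expect_pair]

theorem complete_T [Fintype ι] [Fintype Λ] [DecidableEq Λ] [Nonempty Λ] [Fintype Ω] [Nonempty Ω] [Fintype K]
    [Nonempty K] (ht : 1 ≤ t) (hT : 1 ≤ T)
    (s : K → PL) (d : K → PR) (σ : K → Equiv.Perm Ω) (I : Game U W Λ ι)
    (r : Rout K (Bool × Slot ι Λ Ω t T) ((U ⊕ W) × (Λ → Ω)) (cloud I.src I.dst)) :
    (1 - 1 / (t : ℝ)) * I.value ≤ (coverGame s d σ I r).value := by
  have hρ0 : 0 ≤ 1 - 1 / (t : ℝ) := by
    have ht0 : (0 : ℝ) < t := by exact_mod_cast ht
    have : 1 / (t : ℝ) ≤ 1 := by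
      rw [div_le_one ht0]
      exact_mod_cast ht
    linarith
  have hne : Nonempty ((U → Λ) × (W → Λ)) :=
    ⟨(fun _ => Classical.arbitrary Λ, fun _ => Classical.arbitrary Λ)⟩
  rw [Game.value, Real.mul_iSup_of_nonneg hρ0]
  refine ciSup_le (fun p => (complete_aux t ht σ I p.1 p.2).trans ?_)
  rw [← complete_T_aux hT s d σ I r p.1 p.2]
  exact le_value _ _ _

theorem cover_left (s : K → PL) (d : K → PR) (σ : K → Equiv.Perm Ω) (I : Game U W Λ ι)
    (r : Rout K (Bool × Slot ι Λ Ω t T) ((U ⊕ W) × (Λ → Ω)) (cloud I.src I.dst))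
    (v : PL × Slot ι Λ Ω t T) (k : K) (hk : s k = v.1) :
    ∃! h, (coverGame s d σ I r).src (k, h) = v := by
  have hside := cloud_side (t := t) (T := T) (Ω := Ω) (Λ := Λ) I.src I.dst
  set w := (r.g k).symm (false, v.2) with hw
  have h1 : r.g k w = (false, v.2) := Equiv.apply_symm_apply _ _
  have h2 : w.1 = false := by
    have h3 := hside _ _ (r.keep k w)
    rw [h1] at h3
    exact h3.symm
  have h3 : w = (false, w.2) := Prod.ext h2 rfl
  refine ⟨w.2, ?_, ?_⟩
  · show (s k, (r.g k (false, w.2)).2) = v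
    rw [← h3, h1, hk]
  · intro h hh
    have h4 : (s k, (r.g k (false, h)).2) = v := hh
    have h5 : (r.g k (false, h)).2 = v.2 := congrArg Prod.snd h4
    have h6 : r.g k (false, h) = (false, v.2) := by
      rw [half_eq hside]
      exact Prod.ext rfl h5
    have h7 : (false, h) = w := by
      rw [hw, ← h6, Equiv.symm_apply_apply]
    exact congrArg Prod.snd h7

theorem cover_right (s : K → PL) (d : K → PR) (σ : K → Equiv.Perm Ω) (I : Game U W Λ ι)
    (r : Rout K (Bool × Slot ι Λ Ω t T) ((U ⊕ W) × (Λ → Ω)) (cloud I.src I.dst))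
    (v : PR × Slot ι Λ Ω t T) (k : K) (hk : d k = v.1) :
    ∃! h, (coverGame s d σ I r).dst (k, h) = v := by
  have hside := cloud_side (t := t) (T := T) (Ω := Ω) (Λ := Λ) I.src I.dst
  set w := (r.g k).symm (true, v.2) with hw
  have h1 : r.g k w = (true, v.2) := Equiv.apply_symm_apply _ _
  have h2 : w.1 = true := by
    have h3 := hside _ _ (r.keep k w)
    rw [h1] at h3
    exact h3.symm
  have h3 : w = (true, w.2) := Prod.ext h2 rfl
  refine ⟨(carry (σ k) I.perm).symm w.2, ?_, ?_⟩
  · show (d k, (r.g k (true, carry (σ k) I.perm ((carry (σ k) I.perm).symm w.2))).2) = v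
    rw [Equiv.apply_symm_apply, ← h3, h1, hk]
  · intro h hh
    have h4 : (d k, (r.g k (true, carry (σ k) I.perm h)).2) = v := hh
    have h5 : (r.g k (true, carry (σ k) I.perm h)).2 = v.2 := congrArg Prod.snd h4
    have h6 : r.g k (true, carry (σ k) I.perm h) = (true, v.2) := by
      rw [half_eq hside]
      exact Prod.ext rfl h5
    have h7 : (true, carry (σ k) I.perm h) = w := by
      rw [hw, ← h6, Equiv.symm_apply_apply]
    have h8 : carry (σ k) I.perm h = w.2 := congrArg Prod.snd h7
    rw [← h8, Equiv.symm_apply_apply]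

theorem tree_value [Fintype U] [Fintype W] [Fintype ι] [Nonempty ι] [Nonempty Ω]
    (I : Game U W Ω ι) (hc : (gameGraph I).Connected) :
    ((Fintype.card U : ℝ) + Fintype.card W - 1) / Fintype.card ι ≤ I.value := by
  classical
  obtain ⟨z, S, hS, hsat⟩ := tree_label I hc
  have h3 := le_value I (fun u => z (Sum.inl u)) (fun w => z (Sum.inr w))
  refine le_trans ?_ h3
  unfold Game.satFrac
  have hm : (0 : ℝ) < Fintype.card ι := by exact_mod_cast Fintype.card_pos
  apply div_le_div_of_nonneg_right _ hm.le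
  have h4 : (S.card : ℝ) ≤ ((univ.filter (fun e => I.perm e (z (Sum.inl (I.src e))) =
      z (Sum.inr (I.dst e)))).card : ℝ) := by
    exact_mod_cast card_le_card (fun e he => mem_filter.2 ⟨mem_univ _, hsat e he⟩)
  have h5 : (Fintype.card U + Fintype.card W : ℝ) ≤ S.card + 1 := by exact_mod_cast hS
  refine le_trans ?_ (le_trans h4 (le_of_eq (by congr!)))
  linarith

end Pool.Agent.CovT
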