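import Mathlib
import Pool.Agent.Lib.CovT.AvoidW

/-!
# CovT.ExpectW (1.8 h): the expected value of a cloud function at the end of a walk

`step_expect`: let `u r = wact (nbr Φ r) l v` and let `F` be a function of the clouds with
`0 ≤ F ≤ 1`, `∑_{v' in the cloud of v} F (Φ k v') = |cloud| * F1 v`. Then
`F (nbr Φ r k (u r)) = F (Φ k ((r.g k).symm (u r)))` because `r.g k` keeps the clouds. Average over
`c` in the cloud of `u r`: on the pairs `(r, c)` with `SA r l v`, `c ∉ used r l v k` the map
`(r, c) ↦ (r.sw k (u r) c, c)` is an involution (`unaff`, `used_red`, `sw_sw`; `u` and its cloud do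
not change) which turns `F (Φ k ((r.g k).symm (u r)))` into `F (Φ k ((r.g k).symm c))` (for `c = u r`
both agree). The sum over all `c` in the cloud of `F (Φ k ((r.g k).symm c)) / |cloud|` is `F1 (u r)`
(the permutation `(r.g k).symm` maps the cloud onto itself). The exceptional pairs contribute at most
`#{r | ¬ SA} + |Rout| (|l| + 1) / T` (`card_vis`, `used_subset`).

`walk_expect`: induction on the word (head = last letter), for all sequences `f` at once:
error `≤ ∑_{j < m} (j² / (T - j) + (j + 1) / T) ≤ 2 m³ / (T - m)`.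
-/

open Finset

namespace Pool.Agent.CovT

open Pool.Agent.P325f1f.Dich

variable {K V C : Type} [Fintype K] [Fintype V] [DecidableEq K] [DecidableEq V] [DecidableEq C]
  {cl : V → C}

namespace ExpectWAux

theorem red_tail' {K : Type} {k : K} {l : List K} (h : Red (k :: l)) : Red l := by
  cases l with
  | nil => trivial
  | cons a l => exact h.2

theorem sw_g {K V C : Type} [DecidableEq K] [DecidableEq V] [DecidableEq C] {cl : V → C}
    (r : Rout K V C cl) (k : K) (a b : V) (h : cl a = cl b) :
    (r.sw k a b).g k = Equiv.swap a b * r.g k := by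
  unfold Rout.sw
  rw [dif_pos h]
  exact Function.update_self _ _ _

theorem sw_symm {K V C : Type} [DecidableEq K] [DecidableEq V] [DecidableEq C] {cl : V → C}
    (r : Rout K V C cl) (k : K) (a b : V) (h : cl a = cl b) (x : V) :
    ((r.sw k a b).g k).symm x = (r.g k).symm (Equiv.swap a b x) := by
  rw [sw_g r k a b h]
  rw [Equiv.symm_apply_eq, Equiv.Perm.mul_apply, Equiv.apply_symm_apply, Equiv.swap_apply_self]

theorem unaff' {K V C : Type} [DecidableEq K] [DecidableEq V] [DecidableEq C] {cl : V → C}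
    (Φ : K → V → V) (hΦ : ∀ k v, Φ k (Φ k v) = v) (r : Rout K V C cl) (l : List K) (v : V) (k : K)
    (hred : Red (k :: l)) (c : V) (hc : cl c = cl (wact (nbr Φ r) l v)) (hsa : SA Φ r l v)
    (hcu : c ∉ used Φ r l v k) :
    wact (nbr Φ (r.sw k (wact (nbr Φ r) l v) c)) l v = wact (nbr Φ r) l v ∧
      vis Φ (r.sw k (wact (nbr Φ r) l v) c) l v = vis Φ r l v ∧
      used Φ (r.sw k (wact (nbr Φ r) l v) c) l v k = used Φ r l v k ∧
      SA Φ (r.sw k (wact (nbr Φ r) l v) c) l v := by
  obtain ⟨h1, h2, h3, h4⟩ := unaff Φ r l v k (wact (nbr Φ r) l v) c hc.symm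
    (used_red Φ hΦ r l v k hred hsa) hcu
  exact ⟨h1, h2, h3 k, h4.2 hsa⟩

end ExpectWAux

theorem step_expect (Φ : K → V → V) (hΦ : ∀ k v, Φ k (Φ k v) = v) (hΦ' : ∀ k v, Φ k v ≠ v) (T : ℕ)
    (hT : ∀ v, T ≤ (univ.filter (fun v' => cl v' = cl v)).card) (l : List K) (k : K) (v : V)
    (hred : Red (k :: l)) (hl : l.length + 1 < T) (F F1 : V → ℝ) (hF : ∀ v, 0 ≤ F v ∧ F v ≤ 1)
    (hFc : ∀ v v', cl v = cl v' → F v = F v')
    (hF1 : ∀ v, ∑ v' ∈ univ.filter (fun v' => cl v' = cl v), F (Φ k v') =
      (univ.filter (fun v' => cl v' = cl v)).card * F1 v) :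
    ∑ r : Rout K V C cl, F (wact (nbr Φ r) (k :: l) v) ≤
      ∑ r : Rout K V C cl, F1 (wact (nbr Φ r) l v) +
        ((l.length : ℝ) ^ 2 / (T - l.length) + (l.length + 1) / T) *
          Fintype.card (Rout K V C cl) := by
  classical
  set u : Rout K V C cl → V := fun r => wact (nbr Φ r) l v with hu
  set G : Rout K V C cl → V → ℝ := fun r c => F (Φ k ((r.g k).symm c)) with hG
  have hG0 : ∀ r c, 0 ≤ G r c := fun r c => (hF _).1
  have hG1 : ∀ r c, G r c ≤ 1 := fun r c => (hF _).2
  set N : Rout K V C cl → Finset V := fun r => univ.filter (fun c => cl c = cl (u r)) with hN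
  have hNT : ∀ r, T ≤ (N r).card := fun r => hT (u r)
  have hT0 : (0 : ℝ) < T := by
    have : 0 < T := by omega
    exact_mod_cast this
  have hN0 : ∀ r, (0 : ℝ) < (N r).card := fun r =>
    lt_of_lt_of_le hT0 (by exact_mod_cast hNT r)
  set w : Rout K V C cl → ℝ := fun r => 1 / (N r).card with hw
  have hw0 : ∀ r, 0 ≤ w r := fun r => by
    have := hN0 r
    simp only [hw]
    positivity
  have hwT : ∀ r, w r ≤ 1 / T := fun r =>
    one_div_le_one_div_of_le hT0 (by exact_mod_cast hNT r)
  have hwN : ∀ r, ((N r).card : ℝ) * w r = 1 := fun r => by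
    simp only [hw]
    have := hN0 r
    field_simp
  -- the first value
  have hval : ∀ r : Rout K V C cl, F (wact (nbr Φ r) (k :: l) v) = G r (u r) := by
    intro r
    show F (r.g k (Φ k ((r.g k).symm (u r)))) = F (Φ k ((r.g k).symm (u r)))
    exact hFc _ _ (r.keep k _)
  -- good pairs
  set good : Rout K V C cl → V → Prop := fun r c =>
    cl c = cl (u r) ∧ SA Φ r l v ∧ c ∉ used Φ r l v k with hgood
  set Gd : Finset (Rout K V C cl × V) := univ.filter (fun p => good p.1 p.2) with hGd
  have hsw : ∀ r c, good r c → u (r.sw k (u r) c) = u r ∧ good (r.sw k (u r) c) c := by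
    intro r c hc
    obtain ⟨h1, h2, h3, h4⟩ := ExpectWAux.unaff' Φ hΦ r l v k hred c hc.1 hc.2.1 hc.2.2
    refine ⟨h1, ?_, ?_, ?_⟩
    · rw [hc.1]
      exact congrArg cl h1.symm
    · exact h4
    · rw [h3]
      exact hc.2.2
  have hS : ∑ p ∈ Gd, G p.1 (u p.1) * w p.1 = ∑ p ∈ Gd, G p.1 p.2 * w p.1 := by
    refine Finset.sum_nbij' (fun p => (p.1.sw k (u p.1) p.2, p.2))
      (fun p => (p.1.sw k (u p.1) p.2, p.2)) ?_ ?_ ?_ ?_ ?_
    · intro p hp
      rw [hGd, mem_filter] at hp ⊢
      exact ⟨mem_univ _, (hsw p.1 p.2 hp.2).2⟩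
    · intro p hp
      rw [hGd, mem_filter] at hp ⊢
      exact ⟨mem_univ _, (hsw p.1 p.2 hp.2).2⟩
    · intro p hp
      rw [hGd, mem_filter] at hp
      show ((p.1.sw k (u p.1) p.2).sw k (u (p.1.sw k (u p.1) p.2)) p.2, p.2) = p
      rw [(hsw p.1 p.2 hp.2).1, sw_sw]
    · intro p hp
      rw [hGd, mem_filter] at hp
      show ((p.1.sw k (u p.1) p.2).sw k (u (p.1.sw k (u p.1) p.2)) p.2, p.2) = p
      rw [(hsw p.1 p.2 hp.2).1, sw_sw]
    · intro p hp
      rw [hGd, mem_filter] at hp
      show G p.1 (u p.1) * w p.1 = G (p.1.sw k (u p.1) p.2) p.2 * w (p.1.sw k (u p.1) p.2)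
      have h1 : N (p.1.sw k (u p.1) p.2) = N p.1 := by
        show univ.filter (fun c => cl c = cl (u (p.1.sw k (u p.1) p.2))) = _
        rw [(hsw p.1 p.2 hp.2).1]
      have h2 : w (p.1.sw k (u p.1) p.2) = w p.1 := by
        show 1 / ((N (p.1.sw k (u p.1) p.2)).card : ℝ) = _
        rw [h1]
      rw [h2]
      congr 1
      show F (Φ k ((p.1.g k).symm (u p.1))) =
        F (Φ k (((p.1.sw k (u p.1) p.2).g k).symm p.2))
      rw [ExpectWAux.sw_symm p.1 k (u p.1) p.2 hp.2.1.symm, Equiv.swap_apply_right]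
  -- upper bound of the left side
  have hleft : ∀ r, G r (u r) ≤ (∑ c ∈ univ.filter (fun c => good r c), G r (u r) * w r) +
      ((if SA Φ r l v then 0 else 1) + (l.length + 1) / T) := by
    intro r
    have hpos : (0 : ℝ) ≤ (l.length + 1) / T := by positivity
    by_cases hsa : SA Φ r l v
    · rw [if_pos hsa, zero_add, Finset.sum_const, nsmul_eq_mul]
      have h1 : (N r).card ≤ (univ.filter (fun c => good r c)).card + (l.length + 1) := by
        have h2 : N r ⊆ (univ.filter (fun c => good r c)) ∪ used Φ r l v k := by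
          intro c hc
          rw [hN] at hc
          have hc' := (mem_filter.1 hc).2
          rw [mem_union]
          by_cases h3 : c ∈ used Φ r l v k
          · exact Or.inr h3
          · exact Or.inl (mem_filter.2 ⟨mem_univ _, hc', hsa, h3⟩)
        refine (card_le_card h2).trans ((card_union_le _ _).trans ?_)
        have h3 := (card_le_card (used_subset Φ r l v k)).trans (card_vis Φ r l v)
        omega
      have h2 : ((N r).card : ℝ) ≤ (univ.filter (fun c => good r c)).card + (l.length + 1) := by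
        exact_mod_cast h1
      have h3 : G r (u r) = ((N r).card : ℝ) * w r * G r (u r) := by rw [hwN r, one_mul]
      have h4 : ((l.length : ℝ) + 1) * w r * G r (u r) ≤ (l.length + 1) / T := by
        have h5 : ((l.length : ℝ) + 1) * w r ≤ (l.length + 1) * (1 / T) :=
          mul_le_mul_of_nonneg_left (hwT r) (by positivity)
        have h6 : ((l.length : ℝ) + 1) * w r * G r (u r) ≤ (l.length + 1) * w r * 1 :=
          mul_le_mul_of_nonneg_left (hG1 _ _) (by have := hw0 r; positivity)
        calc ((l.length : ℝ) + 1) * w r * G r (u r) ≤ (l.length + 1) * w r * 1 := h6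
          _ ≤ (l.length + 1) * (1 / T) := by rw [mul_one]; exact h5
          _ = (l.length + 1) / T := by ring
      have h7 : ((N r).card : ℝ) * (w r * G r (u r)) ≤
          ((univ.filter (fun c => good r c)).card + (l.length + 1)) * (w r * G r (u r)) :=
        mul_le_mul_of_nonneg_right h2 (mul_nonneg (hw0 r) (hG0 _ _))
      nlinarith
    · rw [if_neg hsa]
      have h1 : 0 ≤ ∑ c ∈ univ.filter (fun c => good r c), G r (u r) * w r :=
        Finset.sum_nonneg (fun c _ => mul_nonneg (hG0 _ _) (hw0 r))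
      linarith [hG1 r (u r)]
  -- lower bound of the right side
  have hright : ∀ r, ∑ c ∈ univ.filter (fun c => good r c), G r c * w r ≤ F1 (u r) := by
    intro r
    have h1 : ∑ c ∈ univ.filter (fun c => good r c), G r c * w r ≤ ∑ c ∈ N r, G r c * w r := by
      refine Finset.sum_le_sum_of_subset_of_nonneg ?_ (fun c _ _ => mul_nonneg (hG0 _ _) (hw0 r))
      intro c hc
      exact mem_filter.2 ⟨mem_univ _, (mem_filter.1 hc).2.1⟩
    refine h1.trans (le_of_eq ?_)
    rw [← Finset.sum_mul]
    have h2 : ∑ c ∈ N r, G r c = ∑ c ∈ N r, F (Φ k c) := by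
      refine Finset.sum_nbij' (fun c => (r.g k).symm c) (fun c => r.g k c) ?_ ?_ ?_ ?_ ?_
      · intro c hc
        rw [hN] at hc ⊢
        refine mem_filter.2 ⟨mem_univ _, ?_⟩
        rw [← (mem_filter.1 hc).2]
        have h3 := r.keep k ((r.g k).symm c)
        rw [Equiv.apply_symm_apply] at h3
        exact h3.symm
      · intro c hc
        rw [hN] at hc ⊢
        refine mem_filter.2 ⟨mem_univ _, ?_⟩
        rw [r.keep]
        exact (mem_filter.1 hc).2
      · intro c _
        exact Equiv.apply_symm_apply _ _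
      · intro c _
        exact Equiv.symm_apply_apply _ _
      · intro c _
        rfl
    have h3 : ∑ c ∈ N r, F (Φ k c) = (N r).card * F1 (u r) := hF1 (u r)
    rw [h2, h3, mul_assoc, mul_comm (F1 (u r)), ← mul_assoc, hwN, one_mul]
  -- conclusion
  have hpair : ∀ H : Rout K V C cl → V → ℝ, ∑ p ∈ Gd, H p.1 p.2 =
      ∑ r, ∑ c ∈ univ.filter (fun c => good r c), H r c := by
    intro H
    rw [hGd, Finset.sum_filter, ← Finset.univ_product_univ, Finset.sum_product]
    refine Finset.sum_congr rfl (fun r _ => ?_)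
    rw [Finset.sum_filter]
  have hS' := hS
  rw [hpair (fun r _ => G r (u r) * w r), hpair (fun r c => G r c * w r)] at hS'
  have hbad : (∑ r : Rout K V C cl, if SA Φ r l v then (0 : ℝ) else 1) ≤
      (l.length : ℝ) ^ 2 / (T - l.length) * Fintype.card (Rout K V C cl) := by
    have h1 := card_not_SA Φ hΦ hΦ' T hT l v (ExpectWAux.red_tail' hred) (by omega)
    refine le_trans (le_of_eq ?_) h1
    rw [Finset.card_filter]
    push_cast
    refine Finset.sum_congr rfl (fun r _ => ?_)
    by_cases h : SA Φ r l v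
    · simp [h]
    · simp [h]
  calc ∑ r : Rout K V C cl, F (wact (nbr Φ r) (k :: l) v) = ∑ r, G r (u r) :=
        Finset.sum_congr rfl (fun r _ => hval r)
    _ ≤ ∑ r, ((∑ c ∈ univ.filter (fun c => good r c), G r (u r) * w r) +
      ((if SA Φ r l v then 0 else 1) + (l.length + 1) / T)) :=
        Finset.sum_le_sum (fun r _ => hleft r)
    _ = (∑ r, ∑ c ∈ univ.filter (fun c => good r c), G r c * w r) +
      ((∑ r : Rout K V C cl, if SA Φ r l v then (0 : ℝ) else 1) +
        (l.length + 1) / T * Fintype.card (Rout K V C cl)) := by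
        rw [Finset.sum_add_distrib, Finset.sum_add_distrib, hS', Finset.sum_const, card_univ,
          nsmul_eq_mul]
        ring
    _ ≤ ∑ r : Rout K V C cl, F1 (u r) + ((l.length : ℝ) ^ 2 / (T - l.length) *
        Fintype.card (Rout K V C cl) + (l.length + 1) / T * Fintype.card (Rout K V C cl)) := by
        refine add_le_add (Finset.sum_le_sum (fun r _ => hright r)) ?_
        linarith
    _ = _ := by ring

theorem walk_expect (Φ : K → V → V) (hΦ : ∀ k v, Φ k (Φ k v) = v) (hΦ' : ∀ k v, Φ k v ≠ v) (T : ℕ)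
    (hT : ∀ v, T ≤ (univ.filter (fun v' => cl v' = cl v)).card) (l : List K) (v : V)
    (hred : Red l) (hl : l.length < T) (f : ℕ → V → ℝ) (hf : ∀ i v, 0 ≤ f i v ∧ f i v ≤ 1)
    (hfc : ∀ i v v', cl v = cl v' → f i v = f i v')
    (hf1 : ∀ i k v, ∑ v' ∈ univ.filter (fun v' => cl v' = cl v), f i (Φ k v') =
      (univ.filter (fun v' => cl v' = cl v)).card * f (i + 1) v) :
    ∑ r : Rout K V C cl, f 0 (wact (nbr Φ r) l v) ≤
      (f l.length v + 2 * (l.length : ℝ) ^ 3 / (T - l.length)) *
        Fintype.card (Rout K V C cl) := by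
  induction l generalizing f with
  | nil =>
    show ∑ r : Rout K V C cl, f 0 v ≤ _
    rw [Finset.sum_const, card_univ, nsmul_eq_mul]
    simp [mul_comm]
  | cons k l ih =>
    rw [List.length_cons] at hl
    have h1 := step_expect Φ hΦ hΦ' T hT l k v hred hl (f 0) (f 1) (hf 0) (hfc 0) (hf1 0 k)
    have h2 := ih (ExpectWAux.red_tail' hred) (by omega) (fun i => f (i + 1)) (fun i => hf (i + 1))
      (fun i => hfc (i + 1)) (fun i => hf1 (i + 1))
    have h3 : (0 : ℝ) < T - (l.length + 1) := by
      have : ((l.length + 1 : ℕ) : ℝ) < T := by exact_mod_cast hl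
      push_cast at this
      linarith
    have hm : (0 : ℝ) ≤ (l.length : ℝ) := Nat.cast_nonneg _
    have h4 : 2 * (l.length : ℝ) ^ 3 / (T - l.length) ≤
        2 * (l.length : ℝ) ^ 3 / (T - (l.length + 1)) :=
      div_le_div_of_nonneg_left (by positivity) h3 (by linarith)
    have h5 : (l.length : ℝ) ^ 2 / (T - l.length) ≤
        (l.length : ℝ) ^ 2 / (T - (l.length + 1)) :=
      div_le_div_of_nonneg_left (by positivity) h3 (by linarith)
    have h6 : ((l.length : ℝ) + 1) / T ≤ (l.length + 1) / (T - (l.length + 1)) :=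
      div_le_div_of_nonneg_left (by positivity) h3 (by linarith)
    have h7 : 2 * (l.length : ℝ) ^ 3 / (T - (l.length + 1)) +
        ((l.length : ℝ) ^ 2 / (T - (l.length + 1)) + (l.length + 1) / (T - (l.length + 1))) ≤
        2 * ((l.length : ℝ) + 1) ^ 3 / (T - (l.length + 1)) := by
      rw [← add_div, ← add_div]
      refine div_le_div_of_nonneg_right ?_ h3.le
      nlinarith [sq_nonneg (l.length : ℝ)]
    have hR : (0 : ℝ) ≤ Fintype.card (Rout K V C cl) := Nat.cast_nonneg _
    have h8 : (f (l.length + 1) v + 2 * (l.length : ℝ) ^ 3 / (T - l.length)) *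
        Fintype.card (Rout K V C cl) + ((l.length : ℝ) ^ 2 / (T - l.length) +
          (l.length + 1) / T) * Fintype.card (Rout K V C cl) ≤
        (f (l.length + 1) v + 2 * ((l.length : ℝ) + 1) ^ 3 / (T - (l.length + 1))) *
          Fintype.card (Rout K V C cl) := by
      rw [← add_mul]
      refine mul_le_mul_of_nonneg_right ?_ hR
      linarith
    rw [List.length_cons]
    push_cast
    have h9 : ∑ r : Rout K V C cl, f 1 (wact (nbr Φ r) l v) ≤
        (f (l.length + 1) v + 2 * (l.length : ℝ) ^ 3 / (T - l.length)) *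
        Fintype.card (Rout K V C cl) := h2
    linarith

end Pool.Agent.CovT
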