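import Mathlib
import Pool.Agent.Lib.CovT.Walk

/-!
# Many non-backtracking walks in a graph of positive excess

`V` is a finite set with `d` involutions `M k`, `F v k` a symmetric set of darts.
`cnt M F m v k` is the number of non-backtracking walks with `m + 1` steps inside `F` which start
at `v` with the letter `k`.  If the number of darts is at least `2 |W| + 2 kappa n`, where `W`
contains all vertices touched by `F`, then there are at least
`2 kappa n exp (4 kappa m / d)` non-backtracking walks with `m + 1` steps.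
-/

namespace Pool.Agent.CovT.NB

open Finset

variable {V K : Type} [Fintype V] [DecidableEq V] [Fintype K] [DecidableEq K]

/-- number of non-backtracking walks with `m + 1` steps inside `F` starting at `v` with `k` -/
def cnt (M : K → V → V) (F : V → K → Prop) [∀ v k, Decidable (F v k)] :
    ℕ → V → K → ℕ
  | 0, v, k => if F v k then 1 else 0
  | (m + 1), v, k =>
      if F v k then ∑ l ∈ univ.filter (fun l => l ≠ k), cnt M F m (M k v) l else 0

theorem cnt_mono (M : K → V → V) (F F' : V → K → Prop) [∀ v k, Decidable (F v k)]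
    [∀ v k, Decidable (F' v k)] (h : ∀ v k, F' v k → F v k) (m : ℕ) :
    ∀ v k, cnt M F' m v k ≤ cnt M F m v k := by
  induction m with
  | zero =>
    intro v k
    simp only [cnt]
    split_ifs with h1 h2
    · exact le_refl _
    · exact absurd (h v k h1) h2
    · exact Nat.zero_le _
    · exact le_refl _
  | succ m ih =>
    intro v k
    simp only [cnt]
    split_ifs with h1 h2
    · exact Finset.sum_le_sum (fun l _ => ih _ _)
    · exact absurd (h v k h1) h2
    · exact Nat.zero_le _
    · exact le_refl _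

/-- the darts -/
def darts (F : V → K → Prop) [∀ v k, Decidable (F v k)] : Finset (V × K) :=
  univ.filter (fun p => F p.1 p.2)

/-- the degree -/
def deg (F : V → K → Prop) [∀ v k, Decidable (F v k)] (v : V) : ℕ :=
  (univ.filter (fun k => F v k)).card

/-- Jensen for the logarithm -/
theorem log_sum_ge {ι : Type} (S : Finset ι) (hS : S.Nonempty) (x : ι → ℝ)
    (hx : ∀ i ∈ S, 0 < x i) :
    Real.log S.card + (∑ i ∈ S, Real.log (x i)) / S.card ≤ Real.log (∑ i ∈ S, x i) := by
  have hc : (0 : ℝ) < S.card := by exact_mod_cast hS.card_pos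
  have hsum : 0 < ∑ i ∈ S, x i := Finset.sum_pos hx hS
  have hJ := (convexOn_exp).map_sum_le (t := S) (w := fun _ => (1 : ℝ) / S.card)
    (p := fun i => Real.log (x i)) (fun i _ => by positivity)
    (by rw [Finset.sum_const, nsmul_eq_mul]; field_simp) (fun i _ => Set.mem_univ _)
  have h1 : ∑ i ∈ S, ((1 : ℝ) / S.card) • Real.log (x i) = (∑ i ∈ S, Real.log (x i)) / S.card := by
    rw [Finset.sum_div]
    apply Finset.sum_congr rfl
    intro i _
    simp only [smul_eq_mul]
    ring
  have h2 : ∑ i ∈ S, ((1 : ℝ) / S.card) • Real.exp (Real.log (x i)) = (∑ i ∈ S, x i) / S.card := by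
    rw [Finset.sum_div]
    apply Finset.sum_congr rfl
    intro i hi
    rw [Real.exp_log (hx i hi)]
    simp only [smul_eq_mul]
    ring
  rw [h1, h2] at hJ
  have h3 : (∑ i ∈ S, Real.log (x i)) / S.card ≤ Real.log ((∑ i ∈ S, x i) / S.card) := by
    rw [Real.le_log_iff_exp_le (by positivity)]
    exact hJ
  rw [Real.log_div (ne_of_gt hsum) (ne_of_gt hc)] at h3
  linarith

/-- arithmetic and geometric mean -/
theorem sum_ge_exp {ι : Type} (S : Finset ι) (hS : S.Nonempty) (x : ι → ℝ)
    (hx : ∀ i ∈ S, 0 < x i) :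
    S.card * Real.exp ((∑ i ∈ S, Real.log (x i)) / S.card) ≤ ∑ i ∈ S, x i := by
  have hc : (0 : ℝ) < S.card := by exact_mod_cast hS.card_pos
  have hsum : 0 < ∑ i ∈ S, x i := Finset.sum_pos hx hS
  have h := log_sum_ge S hS x hx
  rw [Real.le_log_iff_exp_le hsum, Real.exp_add, Real.exp_log hc] at h
  exact h

theorem log_ge (n : ℕ) (hn : 2 ≤ n) : 2 * ((n : ℝ) - 2) ≤ n * Real.log ((n : ℝ) - 1) := by
  have hn' : (2 : ℝ) ≤ n := by exact_mod_cast hn
  have h := Real.le_log_one_add_of_nonneg (x := (n : ℝ) - 2) (by linarith)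
  have e1 : (1 : ℝ) + ((n : ℝ) - 2) = (n : ℝ) - 1 := by ring
  have e2 : (n : ℝ) - 2 + 2 = n := by ring
  rw [e1, e2, div_le_iff₀ (by linarith)] at h
  linarith

section core

variable (M : K → V → V) (F : V → K → Prop) [∀ v k, Decidable (F v k)]

theorem exists_ne (hM : ∀ k v, M k (M k v) = v) (hF : ∀ v k, F v k → F (M k v) k)
    (hdeg : ∀ v k, F v k → 2 ≤ deg F v) (v : V) (k : K) (h : F v k) :
    ∃ l, F (M k v) l ∧ l ≠ k := by
  have h2 := hdeg _ _ (hF v k h)
  unfold deg at h2
  obtain ⟨l, hl, hlk⟩ := Finset.exists_mem_ne (s := univ.filter (fun l => F (M k v) l))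
    (by omega) k
  rw [Finset.mem_filter] at hl
  exact ⟨l, hl.2, hlk⟩

theorem cnt_pos (hM : ∀ k v, M k (M k v) = v) (hF : ∀ v k, F v k → F (M k v) k)
    (hdeg : ∀ v k, F v k → 2 ≤ deg F v) (m : ℕ) :
    ∀ v k, F v k → 0 < cnt M F m v k := by
  induction m with
  | zero =>
    intro v k h
    simp [cnt, h]
  | succ m ih =>
    intro v k h
    simp only [cnt, if_pos h]
    obtain ⟨l, hl, hlk⟩ := exists_ne M F hM hF hdeg v k h
    apply Finset.sum_pos'
    · intro i _
      exact Nat.zero_le _
    · exact ⟨l, by simp [hlk], ih _ _ hl⟩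

theorem cnt_zero_of_not (m : ℕ) (v : V) (k : K) (h : ¬ F v k) : cnt M F m v k = 0 := by
  cases m <;> simp [cnt, h]

theorem cnt_succ_eq (m : ℕ) (v : V) (k : K) (h : F v k) :
    cnt M F (m + 1) v k = ∑ l ∈ univ.filter (fun l => F (M k v) l ∧ l ≠ k),
      cnt M F m (M k v) l := by
  simp only [cnt, if_pos h]
  rw [← Finset.sum_filter_add_sum_filter_not (univ.filter (fun l => l ≠ k))
    (fun l => F (M k v) l)]
  have h0 : ∑ l ∈ (univ.filter (fun l => l ≠ k)).filter (fun l => ¬ F (M k v) l),
      cnt M F m (M k v) l = 0 := by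
    apply Finset.sum_eq_zero
    intro l hl
    rw [Finset.mem_filter] at hl
    exact cnt_zero_of_not M F m _ _ hl.2
  rw [h0, add_zero, Finset.filter_filter]
  apply Finset.sum_congr _ (fun _ _ => rfl)
  ext l
  simp only [Finset.mem_filter, Finset.mem_univ, true_and]
  tauto

theorem card_ne (v : V) (k : K) (h : F v k) :
    (univ.filter (fun l => F v l ∧ l ≠ k)).card + 1 = deg F v := by
  unfold deg
  have : univ.filter (fun l => F v l ∧ l ≠ k) = (univ.filter (fun l => F v l)).erase k := by
    ext l
    simp only [Finset.mem_filter, Finset.mem_univ, true_and, Finset.mem_erase]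
    tauto
  rw [this]
  exact Finset.card_erase_add_one (by simp [h])

/-- the flip of the darts -/
theorem sum_flip (hM : ∀ k v, M k (M k v) = v) (hF : ∀ v k, F v k → F (M k v) k)
    (g : V → K → ℝ) :
    ∑ p ∈ darts F, g (M p.2 p.1) p.2 = ∑ p ∈ darts F, g p.1 p.2 := by
  apply Finset.sum_nbij' (fun p => (M p.2 p.1, p.2)) (fun p => (M p.2 p.1, p.2))
  · intro p hp
    simp only [darts, Finset.mem_filter, Finset.mem_univ, true_and] at hp ⊢
    exact hF _ _ hp
  · intro p hp
    simp only [darts, Finset.mem_filter, Finset.mem_univ, true_and] at hp ⊢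
    exact hF _ _ hp
  · intro p hp
    simp [hM]
  · intro p hp
    simp [hM]
  · intro p hp
    rfl

/-- the sum over the darts by vertices -/
theorem sum_darts (g : V → K → ℝ) :
    ∑ p ∈ darts F, g p.1 p.2 = ∑ v, ∑ k ∈ univ.filter (fun k => F v k), g v k := by
  unfold darts
  rw [Finset.sum_filter, Fintype.sum_prod_type]
  apply Finset.sum_congr rfl
  intro v _
  rw [Finset.sum_filter]

/-- the key identity: the non-backtracking walk is doubly stochastic -/
theorem double (hdeg : ∀ v k, F v k → 2 ≤ deg F v) (x : V → K → ℝ) :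
    ∑ p ∈ darts F, (∑ l ∈ univ.filter (fun l => F p.1 l ∧ l ≠ p.2), x p.1 l) /
      ((univ.filter (fun l => F p.1 l ∧ l ≠ p.2)).card : ℝ) = ∑ p ∈ darts F, x p.1 p.2 := by
  rw [sum_darts F (fun v k => (∑ l ∈ univ.filter (fun l => F v l ∧ l ≠ k), x v l) /
      ((univ.filter (fun l => F v l ∧ l ≠ k)).card : ℝ)), sum_darts F x]
  apply Finset.sum_congr rfl
  intro v _
  by_cases hv : ∃ k, F v k
  · obtain ⟨k0, hk0⟩ := hv
    have hd : 2 ≤ deg F v := hdeg v k0 hk0
    have hd' : (1 : ℝ) ≤ (deg F v : ℝ) - 1 := by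
      have : (2 : ℝ) ≤ deg F v := by exact_mod_cast hd
      linarith
    have h1 : ∀ k ∈ univ.filter (fun k => F v k),
        (∑ l ∈ univ.filter (fun l => F v l ∧ l ≠ k), x v l) /
          ((univ.filter (fun l => F v l ∧ l ≠ k)).card : ℝ)
        = ((∑ l ∈ univ.filter (fun l => F v l), x v l) - x v k) / ((deg F v : ℝ) - 1) := by
      intro k hk
      have hk' : F v k := by simpa using hk
      have hc := card_ne F v k hk'
      have hc' : ((univ.filter (fun l => F v l ∧ l ≠ k)).card : ℝ) = (deg F v : ℝ) - 1 := by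
        rw [← hc]
        push_cast
        ring
      rw [hc']
      congr 1
      have : univ.filter (fun l => F v l ∧ l ≠ k) = (univ.filter (fun l => F v l)).erase k := by
        ext l
        simp only [Finset.mem_filter, Finset.mem_univ, true_and, Finset.mem_erase]
        tauto
      rw [this]
      rw [eq_sub_iff_add_eq]
      exact Finset.sum_erase_add _ _ hk
    rw [Finset.sum_congr rfl h1, ← Finset.sum_div, Finset.sum_sub_distrib, Finset.sum_const,
      nsmul_eq_mul]
    have h2 : ((univ.filter (fun k => F v k)).card : ℝ) = deg F v := rfl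
    rw [h2, div_eq_iff (by linarith)]
    ring
  · have : univ.filter (fun k => F v k) = ∅ := by
      rw [Finset.filter_eq_empty_iff]
      intro k _ hk
      exact hv ⟨k, hk⟩
    rw [this]
    simp

theorem log_step (hM : ∀ k v, M k (M k v) = v) (hF : ∀ v k, F v k → F (M k v) k)
    (hdeg : ∀ v k, F v k → 2 ≤ deg F v) (m : ℕ) :
    ∑ p ∈ darts F, Real.log ((deg F p.1 : ℝ) - 1) +
      ∑ p ∈ darts F, Real.log (cnt M F m p.1 p.2 : ℝ) ≤
    ∑ p ∈ darts F, Real.log (cnt M F (m + 1) p.1 p.2 : ℝ) := by
  have h1 : ∀ p ∈ darts F,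
      Real.log ((deg F (M p.2 p.1) : ℝ) - 1) +
      (∑ l ∈ univ.filter (fun l => F (M p.2 p.1) l ∧ l ≠ p.2),
        Real.log (cnt M F m (M p.2 p.1) l : ℝ)) /
      ((univ.filter (fun l => F (M p.2 p.1) l ∧ l ≠ p.2)).card : ℝ) ≤
      Real.log (cnt M F (m + 1) p.1 p.2 : ℝ) := by
    intro p hp
    have hp' : F p.1 p.2 := by simpa [darts] using hp
    have hq := hF _ _ hp'
    have hc := card_ne F (M p.2 p.1) p.2 hq
    have hc' : (deg F (M p.2 p.1) : ℝ) - 1 =
        ((univ.filter (fun l => F (M p.2 p.1) l ∧ l ≠ p.2)).card : ℝ) := by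
      rw [← hc]
      push_cast
      ring
    rw [hc', cnt_succ_eq M F m p.1 p.2 hp']
    push_cast
    apply log_sum_ge
    · obtain ⟨l, hl, hlk⟩ := exists_ne M F hM hF hdeg p.1 p.2 hp'
      exact ⟨l, by simp [hl, hlk]⟩
    · intro l hl
      rw [Finset.mem_filter] at hl
      exact_mod_cast cnt_pos M F hM hF hdeg m _ _ hl.2.1
  have h2 := Finset.sum_le_sum h1
  rw [Finset.sum_add_distrib] at h2
  have e1 := sum_flip M F hM hF (fun v k => Real.log ((deg F v : ℝ) - 1))
  have e2 := sum_flip M F hM hF (fun v k => (∑ l ∈ univ.filter (fun l => F v l ∧ l ≠ k),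
        Real.log (cnt M F m v l : ℝ)) /
      ((univ.filter (fun l => F v l ∧ l ≠ k)).card : ℝ))
  have e3 := double F hdeg (fun v l => Real.log (cnt M F m v l : ℝ))
  rw [e1, e2, e3] at h2
  exact h2

theorem log_all (hM : ∀ k v, M k (M k v) = v) (hF : ∀ v k, F v k → F (M k v) k)
    (hdeg : ∀ v k, F v k → 2 ≤ deg F v) (m : ℕ) :
    (m : ℝ) * ∑ p ∈ darts F, Real.log ((deg F p.1 : ℝ) - 1) ≤
    ∑ p ∈ darts F, Real.log (cnt M F m p.1 p.2 : ℝ) := by
  induction m with
  | zero =>
    simp only [Nat.cast_zero, zero_mul]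
    apply Finset.sum_nonneg
    intro p hp
    have hp' : F p.1 p.2 := by simpa [darts] using hp
    simp [cnt, hp']
  | succ m ih =>
    have h := log_step M F hM hF hdeg m
    push_cast
    linarith

/-- the sum of the logarithms of the degrees -/
theorem log_deg (hdeg : ∀ v k, F v k → 2 ≤ deg F v) (W : Finset V)
    (hW : ∀ v k, F v k → v ∈ W) :
    2 * ((darts F).card : ℝ) - 4 * W.card ≤ ∑ p ∈ darts F, Real.log ((deg F p.1 : ℝ) - 1) := by
  rw [sum_darts F (fun v _ => Real.log ((deg F v : ℝ) - 1))]
  have h1 : ((darts F).card : ℝ) = ∑ v, (deg F v : ℝ) := by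
    have := sum_darts F (fun _ _ => (1 : ℝ))
    rw [Finset.sum_const, nsmul_eq_mul, mul_one] at this
    rw [this]
    apply Finset.sum_congr rfl
    intro v _
    rw [Finset.sum_const, nsmul_eq_mul, mul_one]
    rfl
  have h2 : ∀ v, (∑ k ∈ univ.filter (fun k => F v k), Real.log ((deg F v : ℝ) - 1)) =
      (deg F v : ℝ) * Real.log ((deg F v : ℝ) - 1) := by
    intro v
    rw [Finset.sum_const, nsmul_eq_mul]
    rfl
  have h3 : ∑ v, (∑ k ∈ univ.filter (fun k => F v k), Real.log ((deg F v : ℝ) - 1)) =
      ∑ v, (deg F v : ℝ) * Real.log ((deg F v : ℝ) - 1) :=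
    Finset.sum_congr rfl (fun v _ => h2 v)
  rw [h3, h1]
  have h4 : (W.card : ℝ) = ∑ v, (if v ∈ W then (1 : ℝ) else 0) := by
    rw [Finset.sum_ite_mem, Finset.univ_inter, Finset.sum_const, nsmul_eq_mul, mul_one]
  rw [h4, Finset.mul_sum, Finset.mul_sum, ← Finset.sum_sub_distrib]
  apply Finset.sum_le_sum
  intro v _
  by_cases hv : ∃ k, F v k
  · obtain ⟨k0, hk0⟩ := hv
    rw [if_pos (hW v k0 hk0)]
    have := log_ge (deg F v) (hdeg v k0 hk0)
    linarith
  · have h0 : deg F v = 0 := by
      unfold deg
      rw [Finset.card_eq_zero, Finset.filter_eq_empty_iff]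
      intro k _ hk
      exact hv ⟨k, hk⟩
    rw [h0]
    split_ifs <;> simp

/-- the bound for a core -/
theorem core_bound (hM : ∀ k v, M k (M k v) = v) (hF : ∀ v k, F v k → F (M k v) k)
    (hdeg : ∀ v k, F v k → 2 ≤ deg F v) (W : Finset V) (hW : ∀ v k, F v k → v ∈ W)
    (hne : (darts F).Nonempty) (m : ℕ) :
    ((darts F).card : ℝ) *
      Real.exp (m * (2 * ((darts F).card : ℝ) - 4 * W.card) / (darts F).card) ≤
    ∑ p ∈ darts F, (cnt M F m p.1 p.2 : ℝ) := by
  have hc : (0 : ℝ) < (darts F).card := by exact_mod_cast hne.card_pos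
  have h1 := sum_ge_exp (darts F) hne (fun p => (cnt M F m p.1 p.2 : ℝ)) (by
    intro p hp
    have hp' : F p.1 p.2 := by simpa [darts] using hp
    exact_mod_cast cnt_pos M F hM hF hdeg m _ _ hp')
  refine le_trans ?_ h1
  apply mul_le_mul_of_nonneg_left _ (le_of_lt hc)
  apply Real.exp_le_exp.mpr
  apply div_le_div_of_nonneg_right _ (le_of_lt hc)
  refine le_trans ?_ (log_all M F hM hF hdeg m)
  exact mul_le_mul_of_nonneg_left (log_deg F hdeg W hW) (Nat.cast_nonneg m)

end core

section extract

variable (M : K → V → V) (F : V → K → Prop) [∀ v k, Decidable (F v k)]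

/-- the restriction to a set of vertices -/
def restr (U : Finset V) : V → K → Prop := fun v k => F v k ∧ v ∈ U ∧ M k v ∈ U

instance restrDec (U : Finset V) : ∀ v k, Decidable (restr M F U v k) := fun v k =>
  inferInstanceAs (Decidable (F v k ∧ v ∈ U ∧ M k v ∈ U))

theorem remove (hM : ∀ k v, M k (M k v) = v) (hF : ∀ v k, F v k → F (M k v) k)
    (U : Finset V) (u : V) :
    (darts (restr M F U)).card ≤
      (darts (restr M F (U.erase u))).card + 2 * deg (restr M F U) u := by
  have hsub : darts (restr M F U) ⊆ darts (restr M F (U.erase u)) ∪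
      ((univ.filter (fun k => restr M F U u k)).image (fun k => (u, k)) ∪
       (univ.filter (fun k => restr M F U u k)).image (fun k => (M k u, k))) := by
    intro p hp
    simp only [darts, Finset.mem_filter, Finset.mem_univ, true_and] at hp
    simp only [Finset.mem_union, darts, Finset.mem_filter, Finset.mem_univ, true_and,
      Finset.mem_image]
    by_cases h1 : p.1 = u
    · right
      left
      exact ⟨p.2, by rw [← h1]; exact hp, by rw [← h1]⟩
    · by_cases h2 : M p.2 p.1 = u
      · right
        right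
        refine ⟨p.2, ?_, ?_⟩
        · unfold restr at hp ⊢
          rw [← h2, hM]
          exact ⟨hF _ _ hp.1, hp.2.2, hp.2.1⟩
        · rw [← h2, hM]
      · left
        unfold restr at hp ⊢
        exact ⟨hp.1, Finset.mem_erase.mpr ⟨h1, hp.2.1⟩, Finset.mem_erase.mpr ⟨h2, hp.2.2⟩⟩
  refine le_trans (Finset.card_le_card hsub) ?_
  refine le_trans (Finset.card_union_le _ _) ?_
  have h3 : ((univ.filter (fun k => restr M F U u k)).image (fun k => (u, k)) ∪
       (univ.filter (fun k => restr M F U u k)).image (fun k => (M k u, k))).card ≤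
       2 * deg (restr M F U) u := by
    refine le_trans (Finset.card_union_le _ _) ?_
    have a1 : ((univ.filter (fun k => restr M F U u k)).image (fun k => (u, k))).card ≤
        deg (restr M F U) u := Finset.card_image_le
    have a2 : ((univ.filter (fun k => restr M F U u k)).image (fun k => (M k u, k))).card ≤
        deg (restr M F U) u := Finset.card_image_le
    omega
  omega

/-- extraction of a core -/
theorem core_exists (hM : ∀ k v, M k (M k v) = v) (hF : ∀ v k, F v k → F (M k v) k) (n : ℕ) :
    ∀ U : Finset V, U.card = n → ∃ U' : Finset V, U' ⊆ U ∧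
      (∀ v ∈ U', 2 ≤ deg (restr M F U') v) ∧
      (darts (restr M F U)).card + 2 * U'.card ≤ (darts (restr M F U')).card + 2 * U.card := by
  induction n with
  | zero =>
    intro U hU
    refine ⟨U, Finset.Subset.refl _, ?_, le_refl _⟩
    rw [Finset.card_eq_zero] at hU
    rw [hU]
    simp
  | succ n ih =>
    intro U hU
    by_cases h : ∀ v ∈ U, 2 ≤ deg (restr M F U) v
    · exact ⟨U, Finset.Subset.refl _, h, le_refl _⟩
    · push Not at h
      obtain ⟨u, hu, hd⟩ := h
      have hc : (U.erase u).card = n := by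
        rw [Finset.card_erase_of_mem hu, hU]
        rfl
      obtain ⟨U', h1, h2, h3⟩ := ih (U.erase u) hc
      refine ⟨U', h1.trans (Finset.erase_subset _ _), h2, ?_⟩
      have h4 := remove M F hM hF U u
      omega

/-- the main lower bound -/
theorem nb_walks (hM : ∀ k v, M k (M k v) = v) (hF : ∀ v k, F v k → F (M k v) k)
    (W : Finset V) (hW : ∀ v k, F v k → v ∈ W) (e : ℝ) (he : 0 < e)
    (hE : 2 * (W.card : ℝ) + e ≤ ((darts F).card : ℝ)) (m : ℕ) :
    e * Real.exp (2 * (m * e / (darts F).card)) ≤
      ∑ v, ∑ k, (cnt M F m v k : ℝ) := by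
  obtain ⟨U, hUW, hdeg, hcard⟩ := core_exists M F hM hF W.card W rfl
  have hres : darts (restr M F W) = darts F := by
    unfold darts
    apply Finset.filter_congr
    intro p _
    unfold restr
    constructor
    · intro h
      exact h.1
    · intro h
      exact ⟨h, hW _ _ h, hW _ _ (hF _ _ h)⟩
  rw [hres] at hcard
  have hcard' : ((darts F).card : ℝ) + 2 * U.card ≤ (darts (restr M F U)).card + 2 * W.card := by
    exact_mod_cast hcard
  have hex : e ≤ ((darts (restr M F U)).card : ℝ) - 2 * U.card := by
    linarith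
  have hU0 : (0 : ℝ) ≤ U.card := Nat.cast_nonneg _
  have hD : e ≤ ((darts (restr M F U)).card : ℝ) := by linarith
  have hDpos : 0 < ((darts (restr M F U)).card : ℝ) := by linarith
  have hne : (darts (restr M F U)).Nonempty := by
    rw [← Finset.card_pos]
    exact_mod_cast hDpos
  have hDle : ((darts (restr M F U)).card : ℝ) ≤ (darts F).card := by
    have h1 : (darts (restr M F U)).card ≤ (darts F).card := by
      apply Finset.card_le_card
      intro p hp
      simp only [darts, Finset.mem_filter, Finset.mem_univ, true_and] at hp ⊢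
      exact hp.1
    exact_mod_cast h1
  have hres' : ∀ v k, restr M F U v k → restr M F U (M k v) k := by
    intro v k h
    unfold restr at h ⊢
    rw [hM]
    exact ⟨hF _ _ h.1, h.2.2, h.2.1⟩
  have hb := core_bound M (restr M F U) hM hres' (fun v k h => hdeg v h.2.1) U
    (fun v k h => h.2.1) hne m
  have hm0 : (0 : ℝ) ≤ m := Nat.cast_nonneg m
  have hexp : 2 * (m * e / (darts F).card) ≤
      m * (2 * ((darts (restr M F U)).card : ℝ) - 4 * U.card) /
      (darts (restr M F U)).card := by
    have h1 : 2 * (m * e / ((darts F).card : ℝ)) ≤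
        2 * (m * e / ((darts (restr M F U)).card : ℝ)) := by
      apply mul_le_mul_of_nonneg_left _ (by norm_num)
      exact div_le_div_of_nonneg_left (by positivity) hDpos hDle
    refine le_trans h1 ?_
    rw [← mul_div_assoc]
    apply div_le_div_of_nonneg_right _ (le_of_lt hDpos)
    have h3 : m * (2 * e) ≤ m * (2 * ((darts (restr M F U)).card : ℝ) - 4 * U.card) :=
      mul_le_mul_of_nonneg_left (by linarith) hm0
    linarith
  calc e * Real.exp (2 * (m * e / (darts F).card))
      ≤ ((darts (restr M F U)).card : ℝ) *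
        Real.exp (m * (2 * ((darts (restr M F U)).card : ℝ) - 4 * U.card) /
          (darts (restr M F U)).card) :=
        mul_le_mul hD (Real.exp_le_exp.mpr hexp) (Real.exp_nonneg _) (le_of_lt hDpos)
    _ ≤ ∑ p ∈ darts (restr M F U), (cnt M (restr M F U) m p.1 p.2 : ℝ) := hb
    _ ≤ ∑ p : V × K, (cnt M (restr M F U) m p.1 p.2 : ℝ) :=
        Finset.sum_le_sum_of_subset_of_nonneg (Finset.subset_univ _)
          (fun _ _ _ => Nat.cast_nonneg _)
    _ ≤ ∑ p : V × K, (cnt M F m p.1 p.2 : ℝ) := by
        apply Finset.sum_le_sum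
        intro p _
        exact_mod_cast cnt_mono M F (restr M F U) (fun v k h => h.1) m p.1 p.2
    _ = ∑ v, ∑ k, (cnt M F m v k : ℝ) := Fintype.sum_prod_type _

end extract

section words

open Pool.Agent.P325f1f.Dich

variable (M : K → V → V) (F : V → K → Prop) [∀ v k, Decidable (F v k)]

/-- end points of walks with the word `l` -/
def EndPt (F : Set (K × V)) (l : List K) (u : V) : Prop :=
  ∃ v, InF M F l v ∧ wact M l v = u

theorem endPt_cons (hM : ∀ k v, M k (M k v) = v) (F : Set (K × V)) (k : K) (l : List K) (u : V) :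
    EndPt M F (k :: l) u ↔ (k, M k u) ∈ F ∧ EndPt M F l (M k u) := by
  unfold EndPt
  constructor
  · rintro ⟨v, ⟨h1, h2⟩, h3⟩
    have h4 : wact M l v = M k u := by
      rw [← h3]
      show wact M l v = M k (M k (wact M l v))
      rw [hM]
    refine ⟨by rw [← h4]; exact h2, v, h1, h4⟩
  · rintro ⟨h1, v, h2, h3⟩
    refine ⟨v, ⟨h2, by rw [h3]; exact h1⟩, ?_⟩
    show M k (wact M l v) = u
    rw [h3, hM]

theorem red_cons (k : K) (l : List K) : Red (k :: l) ↔ (∀ a ∈ l.head?, a ≠ k) ∧ Red l := by
  cases l with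
  | nil => simp [Red]
  | cons b l =>
    simp only [Red, List.head?_cons, Option.mem_def, Option.some.injEq, forall_eq']
    constructor
    · rintro ⟨h1, h2⟩
      exact ⟨fun h => h1 h.symm, h2⟩
    · rintro ⟨h1, h2⟩
      exact ⟨fun h => h1 h.symm, h2⟩

/-- reduced words with a given head -/
noncomputable def wordsK (m : ℕ) (k : K) : Finset (List K) :=
  (words K (m + 1)).filter (fun l => l.head? = some k)

theorem mem_wordsK (m : ℕ) (k : K) (l : List K) :
    l ∈ wordsK m k ↔ l.length = m + 1 ∧ Red l ∧ l.head? = some k := by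
  unfold wordsK
  rw [Finset.mem_filter, mem_words]
  tauto

theorem wordsK_zero (k : K) : wordsK 0 k = {[k]} := by
  ext l
  rw [mem_wordsK, Finset.mem_singleton]
  constructor
  · rintro ⟨h1, _, h3⟩
    rw [zero_add, List.length_eq_one_iff] at h1
    obtain ⟨a, rfl⟩ := h1
    simpa using h3
  · rintro rfl
    exact ⟨rfl, trivial, rfl⟩

theorem wordsK_succ (m : ℕ) (k : K) : wordsK (m + 1) k =
    (univ.filter (fun a => a ≠ k)).biUnion (fun a => (wordsK m a).image (fun l => k :: l)) := by
  ext l
  rw [mem_wordsK]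
  simp only [Finset.mem_biUnion, Finset.mem_filter, Finset.mem_univ, true_and, Finset.mem_image,
    mem_wordsK]
  constructor
  · rintro ⟨h1, h2, h3⟩
    cases l with
    | nil => simp at h1
    | cons b l =>
      simp only [List.head?_cons, Option.some.injEq] at h3
      subst h3
      rw [red_cons] at h2
      cases l with
      | nil => simp at h1
      | cons c l =>
        refine ⟨c, h2.1 c (by simp), c :: l, ⟨by simpa using h1, h2.2, by simp⟩, rfl⟩
  · rintro ⟨a, ha, l', ⟨h1, h2, h3⟩, rfl⟩
    refine ⟨by simp [h1], ?_, by simp⟩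
    rw [red_cons]
    refine ⟨?_, h2⟩
    intro b hb
    rw [h3] at hb
    simp only [Option.mem_def, Option.some.injEq] at hb
    rw [← hb]
    exact ha

open Classical in
theorem cnt_eq (hM : ∀ k v, M k (M k v) = v) (hF : ∀ v k, F v k → F (M k v) k) (m : ℕ) :
    ∀ (u : V) (k : K), cnt M F m u k =
      ((wordsK m k).filter (fun l => EndPt M {p : K × V | F p.2 p.1} l u)).card := by
  induction m with
  | zero =>
    intro u k
    rw [wordsK_zero, Finset.filter_singleton]
    have h1 : EndPt M {p : K × V | F p.2 p.1} [k] u ↔ F u k := by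
      rw [endPt_cons M hM]
      constructor
      · rintro ⟨h, _⟩
        have := hF _ _ h
        simpa [hM] using this
      · intro h
        exact ⟨hF _ _ h, M k u, trivial, rfl⟩
    by_cases h : F u k
    · simp [cnt, h, h1]
    · simp [cnt, h, h1]
  | succ m ih =>
    intro u k
    by_cases h : F u k
    · simp only [cnt, if_pos h]
      rw [wordsK_succ, Finset.filter_biUnion, Finset.card_biUnion]
      · apply Finset.sum_congr rfl
        intro a _
        rw [ih, Finset.filter_image, Finset.card_image_of_injective _ (by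
          intro a b hab
          simpa using hab)]
        congr 1
        apply Finset.filter_congr
        intro w _
        rw [endPt_cons M hM]
        constructor
        · intro h2
          exact ⟨hF _ _ h, h2⟩
        · intro h2
          exact h2.2
      · intro a _ b _ hab
        rw [Function.onFun, Finset.disjoint_left]
        intro w hw hw'
        simp only [Finset.mem_filter, Finset.mem_image] at hw hw'
        obtain ⟨⟨w1, hw1, rfl⟩, _⟩ := hw
        obtain ⟨⟨w2, hw2, hw3⟩, _⟩ := hw'
        simp only [List.cons.injEq, true_and] at hw3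
        rw [hw3] at hw2
        rw [mem_wordsK] at hw1 hw2
        have := hw1.2.2.symm.trans hw2.2.2
        exact hab (by simpa using this)
    · simp only [cnt, if_neg h]
      symm
      rw [Finset.card_eq_zero, Finset.filter_eq_empty_iff]
      intro w hw
      rw [mem_wordsK] at hw
      obtain ⟨_, _, h2⟩ := hw
      cases w with
      | nil => simp at h2
      | cons a w =>
        simp only [List.head?_cons, Option.some.injEq] at h2
        subst h2
        rw [endPt_cons M hM]
        rintro ⟨h3, _⟩
        have := hF _ _ h3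
        rw [hM] at this
        exact h this

theorem wact_injective (hM : ∀ k v, M k (M k v) = v) (l : List K) :
    Function.Injective (wact M l) := by
  induction l with
  | nil =>
    intro a b h
    exact h
  | cons k l ih =>
    intro a b h
    apply ih
    have h1 : M k (wact M l a) = M k (wact M l b) := h
    have h2 := congrArg (M k) h1
    rwa [hM, hM] at h2

open Classical in
theorem ncard_eq (hM : ∀ k v, M k (M k v) = v) (F : Set (K × V)) (l : List K) :
    ({v | InF M F l v} : Set V).ncard = (univ.filter (fun u => EndPt M F l u)).card := by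
  have h1 : ((univ.filter (fun u => EndPt M F l u) : Finset V) : Set V) =
      wact M l '' {v | InF M F l v} := by
    ext u
    simp only [Finset.coe_filter, Finset.mem_univ, true_and, Set.mem_setOf_eq, Set.mem_image]
    rfl
  rw [← Set.ncard_coe_finset, h1, Set.ncard_image_of_injective _ (wact_injective M hM l)]

theorem sum_cnt (hM : ∀ k v, M k (M k v) = v) (hF : ∀ v k, F v k → F (M k v) k) (m : ℕ) :
    ∑ v, ∑ k, (cnt M F m v k : ℝ) =
    ∑ l ∈ words K (m + 1), (({v | InF M {p : K × V | F p.2 p.1} l v} : Set V).ncard : ℝ) := by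
  classical
  have h1 : ∀ v : V, ∑ k, cnt M F m v k =
      ((words K (m + 1)).filter (fun l => EndPt M {p : K × V | F p.2 p.1} l v)).card := by
    intro v
    have hbu : words K (m + 1) = univ.biUnion (fun k => wordsK m k) := by
      ext l
      simp only [Finset.mem_biUnion, Finset.mem_univ, true_and, mem_wordsK, mem_words]
      constructor
      · rintro ⟨h1, h2⟩
        cases l with
        | nil => simp at h1
        | cons a l => exact ⟨a, h1, h2, by simp⟩
      · rintro ⟨k, h1, h2, _⟩
        exact ⟨h1, h2⟩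
    rw [hbu, Finset.filter_biUnion, Finset.card_biUnion]
    · exact Finset.sum_congr rfl (fun k _ => cnt_eq M F hM hF m v k)
    · intro a _ b _ hab
      rw [Function.onFun, Finset.disjoint_left]
      intro w hw hw'
      rw [Finset.mem_filter, mem_wordsK] at hw hw'
      have := hw.1.2.2.symm.trans hw'.1.2.2
      exact hab (by simpa using this)
  have h2 : ∑ v, ∑ k, cnt M F m v k =
      ∑ l ∈ words K (m + 1), (univ.filter (fun u => EndPt M {p : K × V | F p.2 p.1} l u)).card := by
    rw [Finset.sum_congr rfl (fun v _ => h1 v)]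
    simp_rw [Finset.card_filter]
    exact Finset.sum_comm
  have h3 : ∑ v, ∑ k, cnt M F m v k =
      ∑ l ∈ words K (m + 1), ({v | InF M {p : K × V | F p.2 p.1} l v} : Set V).ncard := by
    rw [h2]
    exact Finset.sum_congr rfl (fun l _ => (ncard_eq M hM _ l).symm)
  exact_mod_cast h3

end words

end Pool.Agent.CovT.NB

namespace Pool.Agent.CovT

open Pool.Agent.P325f1f.Dich

/-- `F` is a set of darts `(k, v)` closed under reversal `(k, v) ↦ (k, M k v)`, without loops, with
all vertices in `X`. If there are more than `2 |X| + e` darts then there are at least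
`e * 2 ^ (m e / |F|)` reduced walks with `m + 1` steps inside `F`. -/
theorem nb_lower {V K : Type} [Fintype V] [DecidableEq V] [Fintype K] [DecidableEq K]
    (M : K → V → V) (hM : ∀ k v, M k (M k v) = v) (F : Finset (K × V))
    (hF : ∀ p ∈ F, (p.1, M p.1 p.2) ∈ F) (hfix : ∀ p ∈ F, M p.1 p.2 ≠ p.2)
    (X : Finset V) (hX : ∀ p ∈ F, p.2 ∈ X) (e : ℝ) (he : 0 < e)
    (h : 2 * (X.card : ℝ) + e ≤ F.card) (m : ℕ) :
    e * (2 : ℝ) ^ ((m : ℝ) * e / F.card) ≤
      ∑ l ∈ words K (m + 1), (({v | InF M (F : Set (K × V)) l v} : Set V).ncard : ℝ) := by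
  have hcard : (NB.darts (fun (v : V) (k : K) => (k, v) ∈ F)).card = F.card := by
    apply Finset.card_nbij' (fun p : V × K => (p.2, p.1)) (fun p : K × V => (p.2, p.1))
    · intro p hp
      simpa [NB.darts] using hp
    · intro p hp
      simpa [NB.darts] using hp
    · intro p hp
      rfl
    · intro p hp
      rfl
  have h1 := NB.nb_walks M (fun (v : V) (k : K) => (k, v) ∈ F) hM (fun v k hk => hF (k, v) hk) X
    (fun v k hk => hX (k, v) hk) e he (by rw [hcard]; exact h) m
  rw [NB.sum_cnt M (fun (v : V) (k : K) => (k, v) ∈ F) hM (fun v k hk => hF (k, v) hk) m,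
    hcard] at h1
  have h2 : ({p : K × V | (p.1, p.2) ∈ F} : Set (K × V)) = (F : Set (K × V)) := by
    ext p
    simp
  rw [h2] at h1
  refine le_trans ?_ h1
  apply mul_le_mul_of_nonneg_left _ (le_of_lt he)
  rw [Real.rpow_def_of_pos (by norm_num)]
  apply Real.exp_le_exp.mpr
  apply mul_le_mul_of_nonneg_right _ (by positivity)
  have := Real.log_two_lt_d9
  linarith

end Pool.Agent.CovT
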