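import Mathlib
import Pool.Agent.Lib.CovT.Walk

/-!
# CovT.WalkUp (2 h): few reduced walks between vertices with labels from short lists

`N k` are involutions of `V` (`V` = half-edges positions, `N k v` = other end of the edge of colour
`k`), `τ k v : P` is the type of the end `v` of the edge of colour `k`, `z p v` the label of the
vertex `(p, v)` of type `p` at position `v`. The darts `(k, v) ∈ F` start at the vertex `(τ k v, v)`
and end at `(τ k (N k v), N k v)`; the labels at the two ends correspond under the involution `σ k`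
and belong to the lists `Lst p (node v)` of length `≤ R`.

A reduced walk with `m + 1` steps from `(p, v)` with word `l` ends at `(p', v')`, `v' = wact N l v`,
`z p' v' = wact σ l (z p v)`. By the girth condition, for given symbols `α`, `β` there is at most one
`l ∈ words K (m + 1)` with `wact σ l α = β` (if `l ≠ l'` both work, strip the common last letters of
the two words (the heads of the lists); the remaining words `l1`, `l2` end in different letters and
`reverse l2 ++ l1` is a reduced word of length in `[1, 2 (m + 1)]` that fixes `α`, because the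
`σ k` are involutions). Hence, with `S p α = {u | α ∈ Lst p u}`,
the number of walks is at most `∑ l, ∑ p, ∑ p', ∑ α, #{v | node v ∈ S p α, node (wact N l v) ∈
S p' (wact σ l α)} ≤ ∑ p, ∑ p', (∑ α, ∑ β, ∑ a ∈ S p α, ∑ b ∈ S p' β, pm a b) + |P|^2 |K|^(m+1) |Ω| ε`
and `∑ α, ∑ β, ∑ a ∈ S p α, ∑ b ∈ S p' β, pm a b = ∑ a, ∑ b, |Lst p a| |Lst p' b| pm a b ≤ R^2 |V|`.

The graph on `P × V` of `NBLower` is `M k (p, v) = (τ k (N k v), N k v)` if `p = τ k v`, else
`(p, v)`; `mvt` below; `mvt_mvt` (involution) is part of this module.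
-/

open Finset

namespace Pool.Agent.CovT

open Pool.Agent.P325f1f.Dich

variable {K V P D Ω : Type}

/-- The graph of the typed vertices. -/
def mvt [DecidableEq P] (N : K → V → V) (τ : K → V → P) (k : K) (x : P × V) : P × V :=
  if x.1 = τ k x.2 then (τ k (N k x.2), N k x.2) else x

theorem mvt_mvt [DecidableEq P] (N : K → V → V) (hN : ∀ k v, N k (N k v) = v) (τ : K → V → P)
    (k : K) (x : P × V) : mvt N τ k (mvt N τ k x) = x := by
  obtain ⟨p, v⟩ := x
  by_cases h : p = τ k v
  · have h1 : mvt N τ k (p, v) = (τ k (N k v), N k v) := by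
      rw [mvt]
      exact if_pos h
    rw [h1, mvt]
    have h2 : (τ k (N k v), N k v).1 = τ k (τ k (N k v), N k v).2 := rfl
    rw [if_pos h2]
    show (τ k (N k (N k v)), N k (N k v)) = (p, v)
    rw [hN, h]
  · have h1 : mvt N τ k (p, v) = (p, v) := by
      rw [mvt]
      exact if_neg h
    rw [h1, h1]

/-- The darts at typed vertices. -/
def dartF (τ : K → V → P) (F : Set (K × V)) : Set (K × (P × V)) :=
  {q | q.2.1 = τ q.1 q.2.2 ∧ (q.1, q.2.2) ∈ F}

namespace WalkUpAux

theorem red_iff (l : List K) : Red l ↔ l.IsChain (fun a b => a ≠ b) := by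
  induction l with
  | nil => exact ⟨fun _ => List.IsChain.nil, fun _ => trivial⟩
  | cons a l ih =>
    cases l with
    | nil => exact ⟨fun _ => List.IsChain.singleton a, fun _ => trivial⟩
    | cons b l =>
      rw [List.isChain_cons_cons, ← ih]
      exact Iff.rfl

theorem wact_append (σ : K → Ω → Ω) (l l' : List K) (α : Ω) :
    wact σ (l ++ l') α = wact σ l (wact σ l' α) := by
  induction l with
  | nil => rfl
  | cons k l ih =>
    show σ k (wact σ (l ++ l') α) = σ k (wact σ l (wact σ l' α))
    rw [ih]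

theorem wact_reverse (σ : K → Ω → Ω) (hσ : ∀ k ω, σ k (σ k ω) = ω) (l : List K) (α : Ω) :
    wact σ l.reverse (wact σ l α) = α := by
  induction l generalizing α with
  | nil => rfl
  | cons k l ih =>
    rw [List.reverse_cons, wact_append]
    show wact σ l.reverse (σ k (σ k (wact σ l α))) = α
    rw [hσ, ih]

theorem red_tail {k : K} {l : List K} (h : Red (k :: l)) : Red l := by
  cases l with
  | nil => trivial
  | cons a l => exact h.2

theorem unique_aux (σ : K → Ω → Ω) (hσ : ∀ k ω, σ k (σ k ω) = ω) (n : ℕ)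
    (hred : ∀ l : List K, l ≠ [] → l.length ≤ n → Red l → ∀ ω, wact σ l ω ≠ ω) (α : Ω) :
    ∀ (l l' : List K), l.length = l'.length → 2 * l.length ≤ n → Red l → Red l' →
      wact σ l α = wact σ l' α → l = l'
  | [], [], _, _, _, _, _ => rfl
  | [], k' :: l', h, _, _, _, _ => by simp at h
  | k :: l, [], h, _, _, _, _ => by simp at h
  | k :: l, k' :: l', h, hn, hr, hr', he => by
    have hlen : l.length = l'.length := by simpa using h
    by_cases hk : k = k'
    · subst hk
      have h1 : wact σ l α = wact σ l' α := by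
        have h2 : σ k (wact σ l α) = σ k (wact σ l' α) := he
        have h3 := congrArg (σ k) h2
        rwa [hσ, hσ] at h3
      rw [List.length_cons] at hn
      rw [unique_aux σ hσ n hred α l l' hlen (by omega) (red_tail hr) (red_tail hr') h1]
    · exfalso
      refine hred ((k' :: l').reverse ++ (k :: l)) (by simp) ?_ ?_ α ?_
      · rw [List.length_append, List.length_reverse, List.length_cons, List.length_cons]
        rw [List.length_cons] at hn
        omega
      · rw [red_iff, List.isChain_append]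
        refine ⟨?_, (red_iff _).1 hr, ?_⟩
        · rw [List.isChain_reverse]
          refine List.IsChain.imp ?_ ((red_iff _).1 hr')
          intro a b hab
          exact Ne.symm hab
        · intro x hx y hy
          rw [List.getLast?_reverse, List.head?_cons, Option.mem_some_iff] at hx
          rw [List.head?_cons, Option.mem_some_iff] at hy
          rw [← hx, ← hy]
          exact Ne.symm hk
      · rw [wact_append, he, wact_reverse σ hσ]

end WalkUpAux

/-- For two symbols at most one reduced word of length `m + 1` carries one to the other. -/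
theorem word_unique (σ : K → Ω → Ω) (hσ : ∀ k ω, σ k (σ k ω) = ω) (m : ℕ)
    (hred : ∀ l : List K, l ≠ [] → l.length ≤ 2 * (m + 1) → Red l → ∀ ω, wact σ l ω ≠ ω)
    (l l' : List K) (h : l.length = m + 1) (h' : l'.length = m + 1) (hr : Red l) (hr' : Red l')
    (α : Ω) (he : wact σ l α = wact σ l' α) : l = l' :=
  WalkUpAux.unique_aux σ hσ (2 * (m + 1)) hred α l l' (h.trans h'.symm) (by rw [h]) hr hr' he

namespace WalkUpAux

theorem act_eq [DecidableEq P] (N : K → V → V) (τ : K → V → P) (σ : K → Ω → Ω) (z : P → V → Ω)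
    (F : Set (K × V)) (hsat : ∀ k v, (k, v) ∈ F → z (τ k (N k v)) (N k v) = σ k (z (τ k v) v)) :
    ∀ (l : List K) (x : P × V), InF (mvt N τ) (dartF τ F) l x →
      (wact (mvt N τ) l x).2 = wact N l x.2 ∧
        z (wact (mvt N τ) l x).1 (wact (mvt N τ) l x).2 = wact σ l (z x.1 x.2)
  | [], x, _ => ⟨rfl, rfl⟩
  | k :: l, x, h => by
    obtain ⟨h1, h2⟩ := act_eq N τ σ z F hsat l x h.1
    obtain ⟨h3, h4⟩ := h.2
    set y := wact (mvt N τ) l x with hy
    have h5 : wact (mvt N τ) (k :: l) x = (τ k (N k y.2), N k y.2) := by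
      show mvt N τ k y = _
      rw [mvt]
      exact if_pos h3
    rw [h5]
    refine ⟨?_, ?_⟩
    · show N k y.2 = N k (wact N l x.2)
      rw [h1]
    · show z (τ k (N k y.2)) (N k y.2) = σ k (wact σ l (z x.1 x.2))
      rw [hsat k y.2 h4, ← h2]
      have h6 : y.1 = τ k y.2 := h3
      rw [h6]

theorem first_mem [DecidableEq P] (N : K → V → V) (τ : K → V → P) (node : V → D) (z : P → V → Ω)
    (Lst : P → D → Finset Ω) (F : Set (K × V))
    (hl1 : ∀ k v, (k, v) ∈ F → z (τ k v) v ∈ Lst (τ k v) (node v)) :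
    ∀ (l : List K) (x : P × V), l ≠ [] → InF (mvt N τ) (dartF τ F) l x →
      z x.1 x.2 ∈ Lst x.1 (node x.2)
  | [], _, h, _ => absurd rfl h
  | [k], x, _, h => by
    obtain ⟨h3, h4⟩ := h.2
    have h6 : x.1 = τ k x.2 := h3
    rw [h6]
    exact hl1 k x.2 h4
  | k :: a :: l, x, _, h => first_mem N τ node z Lst F hl1 (a :: l) x (by simp) h.1

theorem last_mem [DecidableEq P] (N : K → V → V) (τ : K → V → P) (node : V → D) (z : P → V → Ω)
    (Lst : P → D → Finset Ω) (F : Set (K × V))
    (hl2 : ∀ k v, (k, v) ∈ F → z (τ k (N k v)) (N k v) ∈ Lst (τ k (N k v)) (node (N k v)))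
    (l : List K) (x : P × V) (hl : l ≠ []) (h : InF (mvt N τ) (dartF τ F) l x) :
    z (wact (mvt N τ) l x).1 (wact (mvt N τ) l x).2 ∈
      Lst (wact (mvt N τ) l x).1 (node (wact (mvt N τ) l x).2) := by
  cases l with
  | nil => exact absurd rfl hl
  | cons k l =>
    obtain ⟨h3, h4⟩ := h.2
    set y := wact (mvt N τ) l x with hy
    have h5 : wact (mvt N τ) (k :: l) x = (τ k (N k y.2), N k y.2) := by
      show mvt N τ k y = _
      rw [mvt]
      exact if_pos h3
    rw [h5]
    exact hl2 k y.2 h4

theorem ncard_word [Fintype K] [Fintype V] [Fintype P] [Fintype Ω] [DecidableEq P] [DecidableEq V]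
    [DecidableEq Ω]
    (N : K → V → V) (τ : K → V → P) (node : V → D) (σ : K → Ω → Ω)
    (z : P → V → Ω) (Lst : P → D → Finset Ω)
    (F : Set (K × V))
    (hsat : ∀ k v, (k, v) ∈ F → z (τ k (N k v)) (N k v) = σ k (z (τ k v) v))
    (hl1 : ∀ k v, (k, v) ∈ F → z (τ k v) v ∈ Lst (τ k v) (node v))
    (hl2 : ∀ k v, (k, v) ∈ F → z (τ k (N k v)) (N k v) ∈ Lst (τ k (N k v)) (node (N k v)))
    (l : List K) (hl : l ≠ []) :
    ({x | InF (mvt N τ) (dartF τ F) l x} : Set (P × V)).ncard ≤
      ∑ p : P, ∑ p' : P, ∑ α : Ω, (univ.filter (fun v => α ∈ Lst p (node v) ∧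
        wact σ l α ∈ Lst p' (node (wact N l v)))).card := by
  have h1 : ({x | InF (mvt N τ) (dartF τ F) l x} : Set (P × V)).ncard ≤
      (univ.biUnion (fun q : P × P × Ω => (univ.filter (fun v => q.2.2 ∈ Lst q.1 (node v) ∧
        wact σ l q.2.2 ∈ Lst q.2.1 (node (wact N l v)))).image (fun v => (q.1, v)))).card := by
    rw [← Set.ncard_coe_finset]
    refine Set.ncard_le_ncard ?_ (Set.toFinite _)
    intro x hx
    have hx' : InF (mvt N τ) (dartF τ F) l x := hx
    obtain ⟨e1, e2⟩ := act_eq N τ σ z F hsat l x hx'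
    have e3 := first_mem N τ node z Lst F hl1 l x hl hx'
    have e4 := last_mem N τ node z Lst F hl2 l x hl hx'
    rw [e2, e1] at e4
    rw [Finset.mem_coe, Finset.mem_biUnion]
    refine ⟨(x.1, (wact (mvt N τ) l x).1, z x.1 x.2), Finset.mem_univ _, ?_⟩
    rw [Finset.mem_image]
    exact ⟨x.2, Finset.mem_filter.2 ⟨Finset.mem_univ _, e3, e4⟩, rfl⟩
  refine h1.trans (Finset.card_biUnion_le.trans ?_)
  rw [← Finset.univ_product_univ, Finset.sum_product]
  refine Finset.sum_le_sum (fun p _ => ?_)
  rw [← Finset.univ_product_univ, Finset.sum_product]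
  refine Finset.sum_le_sum (fun p' _ => Finset.sum_le_sum (fun α _ => ?_))
  exact Finset.card_image_le

end WalkUpAux

theorem walk_upper [Fintype K] [Fintype V] [Fintype P] [Fintype D] [Fintype Ω] [DecidableEq K]
    [DecidableEq V] [DecidableEq P] [DecidableEq D] [DecidableEq Ω]
    (N : K → V → V) (τ : K → V → P) (node : V → D) (σ : K → Ω → Ω) (hσ : ∀ k ω, σ k (σ k ω) = ω)
    (m : ℕ) (hred : ∀ l : List K, l ≠ [] → l.length ≤ 2 * (m + 1) → Red l → ∀ ω, wact σ l ω ≠ ω)
    (z : P → V → Ω) (Lst : P → D → Finset Ω) (R : ℝ) (hR : ∀ p u, ((Lst p u).card : ℝ) ≤ R)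
    (pm : D → D → ℝ) (hpm : ∀ a b, 0 ≤ pm a b) (hpm1 : ∑ a, ∑ b, pm a b ≤ Fintype.card V)
    (ε : ℝ) (hε : 0 ≤ ε)
    (hlln : ∀ l ∈ words K (m + 1), ∀ A B : Finset D,
      ((univ.filter (fun v => node v ∈ A ∧ node (wact N l v) ∈ B)).card : ℝ) ≤
        (∑ a ∈ A, ∑ b ∈ B, pm a b) + ε)
    (F : Set (K × V))
    (hsat : ∀ k v, (k, v) ∈ F → z (τ k (N k v)) (N k v) = σ k (z (τ k v) v))
    (hl1 : ∀ k v, (k, v) ∈ F → z (τ k v) v ∈ Lst (τ k v) (node v))
    (hl2 : ∀ k v, (k, v) ∈ F → z (τ k (N k v)) (N k v) ∈ Lst (τ k (N k v)) (node (N k v))) :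
    ∑ l ∈ words K (m + 1), (({x | InF (mvt N τ) (dartF τ F) l x} : Set (P × V)).ncard : ℝ) ≤
      (Fintype.card P : ℝ) ^ 2 * (R ^ 2 * Fintype.card V +
        (Fintype.card K : ℝ) ^ (m + 1) * Fintype.card Ω * ε) := by
  classical
  -- one word
  have h1 : ∀ l ∈ words K (m + 1),
      (({x | InF (mvt N τ) (dartF τ F) l x} : Set (P × V)).ncard : ℝ) ≤
      ∑ p : P, ∑ p' : P, ((∑ α : Ω, ∑ a ∈ univ.filter (fun u => α ∈ Lst p u),
        ∑ b ∈ univ.filter (fun u => wact σ l α ∈ Lst p' u), pm a b) +
          Fintype.card Ω * ε) := by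
    intro l hl
    have hl' := (mem_words (m + 1) l).1 hl
    have hne : l ≠ [] := by
      intro h
      rw [h] at hl'
      simp at hl'
    have h2 := WalkUpAux.ncard_word N τ node σ z Lst F hsat hl1 hl2 l hne
    have h3 : (({x | InF (mvt N τ) (dartF τ F) l x} : Set (P × V)).ncard : ℝ) ≤
        ∑ p : P, ∑ p' : P, ∑ α : Ω, ((univ.filter (fun v => α ∈ Lst p (node v) ∧
        wact σ l α ∈ Lst p' (node (wact N l v)))).card : ℝ) := by
      refine (Nat.cast_le.2 h2).trans (le_of_eq ?_)
      push_cast
      rfl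
    refine h3.trans ?_
    refine Finset.sum_le_sum (fun p _ => Finset.sum_le_sum (fun p' _ => ?_))
    have h4 : ∀ α : Ω, ((univ.filter (fun v => α ∈ Lst p (node v) ∧
        wact σ l α ∈ Lst p' (node (wact N l v)))).card : ℝ) ≤
        (∑ a ∈ univ.filter (fun u => α ∈ Lst p u),
        ∑ b ∈ univ.filter (fun u => wact σ l α ∈ Lst p' u), pm a b) + ε := by
      intro α
      refine le_trans (le_of_eq ?_) (hlln l hl (univ.filter (fun u => α ∈ Lst p u))
        (univ.filter (fun u => wact σ l α ∈ Lst p' u)))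
      congr 2
      ext v
      simp only [mem_filter, mem_univ, true_and]
    refine (Finset.sum_le_sum (fun α _ => h4 α)).trans (le_of_eq ?_)
    rw [Finset.sum_add_distrib, Finset.sum_const, card_univ, nsmul_eq_mul]
  refine (Finset.sum_le_sum h1).trans ?_
  -- exchange the sums
  rw [Finset.sum_comm]
  have h5 : ∀ p : P, ∑ l ∈ words K (m + 1), ∑ p' : P,
      ((∑ α : Ω, ∑ a ∈ univ.filter (fun u => α ∈ Lst p u),
        ∑ b ∈ univ.filter (fun u => wact σ l α ∈ Lst p' u), pm a b) +
          Fintype.card Ω * ε) ≤ ∑ p' : P, (R ^ 2 * Fintype.card V +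
        (Fintype.card K : ℝ) ^ (m + 1) * Fintype.card Ω * ε) := by
    intro p
    rw [Finset.sum_comm]
    refine Finset.sum_le_sum (fun p' _ => ?_)
    rw [Finset.sum_add_distrib, Finset.sum_const, nsmul_eq_mul]
    refine add_le_add ?_ ?_
    · rw [Finset.sum_comm]
      have h6 : ∀ α : Ω, ∑ l ∈ words K (m + 1), ∑ a ∈ univ.filter (fun u => α ∈ Lst p u),
          ∑ b ∈ univ.filter (fun u => wact σ l α ∈ Lst p' u), pm a b ≤
          ∑ β : Ω, ∑ a ∈ univ.filter (fun u => α ∈ Lst p u),
          ∑ b ∈ univ.filter (fun u => β ∈ Lst p' u), pm a b := by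
        intro α
        have hinj : Set.InjOn (fun l => wact σ l α) (words K (m + 1) : Set (List K)) := by
          intro l hl l' hl' he
          have e1 := (mem_words (m + 1) l).1 hl
          have e2 := (mem_words (m + 1) l').1 hl'
          exact word_unique σ hσ m hred l l' e1.1 e2.1 e1.2 e2.2 α he
        rw [← Finset.sum_image (f := fun β => ∑ a ∈ univ.filter (fun u => α ∈ Lst p u),
          ∑ b ∈ univ.filter (fun u => β ∈ Lst p' u), pm a b) hinj]
        refine Finset.sum_le_sum_of_subset_of_nonneg (Finset.subset_univ _) ?_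
        intro β _ _
        exact Finset.sum_nonneg (fun a _ => Finset.sum_nonneg (fun b _ => hpm a b))
      refine (Finset.sum_le_sum (fun α _ => h6 α)).trans ?_
      have h7 : ∑ α : Ω, ∑ β : Ω, ∑ a ∈ univ.filter (fun u => α ∈ Lst p u),
          ∑ b ∈ univ.filter (fun u => β ∈ Lst p' u), pm a b =
          ∑ a, ∑ b, ((Lst p a).card : ℝ) * ((Lst p' b).card : ℝ) * pm a b := by
        have e1 : ∀ α β : Ω, ∑ a ∈ univ.filter (fun u => α ∈ Lst p u),
          ∑ b ∈ univ.filter (fun u => β ∈ Lst p' u), pm a b =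
            ∑ a, ∑ b, (if α ∈ Lst p a then 1 else 0) * ((if β ∈ Lst p' b then 1 else 0) *
              pm a b) := by
          intro α β
          rw [Finset.sum_filter]
          refine Finset.sum_congr rfl (fun a _ => ?_)
          by_cases h : α ∈ Lst p a
          · rw [if_pos h, Finset.sum_filter]
            refine Finset.sum_congr rfl (fun b _ => ?_)
            rw [if_pos h, one_mul]
            by_cases h' : β ∈ Lst p' b
            · rw [if_pos h', if_pos h', one_mul]
            · rw [if_neg h', if_neg h', zero_mul]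
          · rw [if_neg h]
            symm
            refine Finset.sum_eq_zero (fun b _ => ?_)
            rw [if_neg h, zero_mul]
        simp_rw [e1]
        have e2 : ∀ α : Ω, ∑ β : Ω, ∑ a, ∑ b, (if α ∈ Lst p a then (1 : ℝ) else 0) *
            ((if β ∈ Lst p' b then 1 else 0) * pm a b) =
            ∑ a, ∑ b, (if α ∈ Lst p a then (1 : ℝ) else 0) *
              (((Lst p' b).card : ℝ) * pm a b) := by
          intro α
          rw [Finset.sum_comm]
          refine Finset.sum_congr rfl (fun a _ => ?_)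
          rw [Finset.sum_comm]
          refine Finset.sum_congr rfl (fun b _ => ?_)
          rw [← Finset.mul_sum, ← Finset.sum_mul]
          congr 2
          rw [Finset.sum_ite_mem, Finset.univ_inter, Finset.sum_const, nsmul_eq_mul, mul_one]
        simp_rw [e2]
        rw [Finset.sum_comm]
        refine Finset.sum_congr rfl (fun a _ => ?_)
        rw [Finset.sum_comm]
        refine Finset.sum_congr rfl (fun b _ => ?_)
        rw [← Finset.sum_mul, Finset.sum_ite_mem, Finset.univ_inter, Finset.sum_const,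
          nsmul_eq_mul, mul_one]
        ring
      rw [h7]
      have h8 : ∀ a b, ((Lst p a).card : ℝ) * ((Lst p' b).card : ℝ) * pm a b ≤
          R ^ 2 * pm a b := by
        intro a b
        refine mul_le_mul_of_nonneg_right ?_ (hpm a b)
        have e1 := hR p a
        have e2 := hR p' b
        have e3 : (0 : ℝ) ≤ ((Lst p a).card : ℝ) := Nat.cast_nonneg _
        have e4 : (0 : ℝ) ≤ ((Lst p' b).card : ℝ) := Nat.cast_nonneg _
        rw [sq]
        exact mul_le_mul e1 e2 e4 (e3.trans e1)
      refine (Finset.sum_le_sum (fun a _ => Finset.sum_le_sum (fun b _ => h8 a b))).trans ?_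
      simp_rw [← Finset.mul_sum]
      exact mul_le_mul_of_nonneg_left hpm1 (sq_nonneg R)
    · have h9 : ((words K (m + 1)).card : ℝ) ≤ (Fintype.card K : ℝ) ^ (m + 1) := by
        exact_mod_cast card_words_le (K := K) (m + 1)
      calc ((words K (m + 1)).card : ℝ) * (Fintype.card Ω * ε) ≤
          (Fintype.card K : ℝ) ^ (m + 1) * (Fintype.card Ω * ε) :=
            mul_le_mul_of_nonneg_right h9 (by positivity)
        _ = _ := by ring
  refine (Finset.sum_le_sum (fun p _ => h5 p)).trans (le_of_eq ?_)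
  rw [Finset.sum_const, Finset.sum_const, card_univ, nsmul_eq_mul, nsmul_eq_mul]
  ring

end Pool.Agent.CovT
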