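import Mathlib
import Pool.Agent.Lib.CovT.WalkUp
import Pool.Agent.Lib.CovT.NBLower

/-!
# CovT.HeavyT (0.8 h): few satisfied edges between heavy labels

Combine `nb_lower` (on `V := P × V`, `M := mvt N τ`, the finite set of darts
`{(k, (τ k v, v)) | (k, v) ∈ F}`, which has the same cardinality as `F`; its coercion is
`dartF τ F`) with `walk_upper`: if `2 |X| + e ≤ |F|` then
`e * 2 ^ (m e / |F|) ≤ |P|^2 (R^2 |V| + |K|^(m+1) |Ω| ε)`, and `|F| ≤ |K| |V|`, contradicting
`hbig`.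
-/

open Finset

namespace Pool.Agent.CovT

open Pool.Agent.P325f1f.Dich

theorem heavy {K V P D Ω : Type} [Fintype K] [Fintype V] [Fintype P] [Fintype D] [Fintype Ω]
    [DecidableEq K] [DecidableEq V] [DecidableEq P] [DecidableEq D] [DecidableEq Ω]
    (N : K → V → V) (hN : ∀ k v, N k (N k v) = v) (hN' : ∀ k v, N k v ≠ v)
    (τ : K → V → P) (node : V → D) (σ : K → Ω → Ω) (hσ : ∀ k ω, σ k (σ k ω) = ω)
    (m : ℕ) (hred : ∀ l : List K, l ≠ [] → l.length ≤ 2 * (m + 1) → Red l → ∀ ω, wact σ l ω ≠ ω)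
    (z : P → V → Ω) (Lst : P → D → Finset Ω) (R : ℝ) (hR : ∀ p u, ((Lst p u).card : ℝ) ≤ R)
    (pm : D → D → ℝ) (hpm : ∀ a b, 0 ≤ pm a b) (hpm1 : ∑ a, ∑ b, pm a b ≤ Fintype.card V)
    (ε : ℝ) (hε : 0 ≤ ε)
    (hlln : ∀ l ∈ words K (m + 1), ∀ A B : Finset D,
      ((univ.filter (fun v => node v ∈ A ∧ node (wact N l v) ∈ B)).card : ℝ) ≤
        (∑ a ∈ A, ∑ b ∈ B, pm a b) + ε)
    (F : Finset (K × V)) (hF : ∀ p ∈ F, (p.1, N p.1 p.2) ∈ F)
    (hsat : ∀ k v, (k, v) ∈ F → z (τ k (N k v)) (N k v) = σ k (z (τ k v) v))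
    (hl : ∀ k v, (k, v) ∈ F → z (τ k v) v ∈ Lst (τ k v) (node v))
    (X : Finset (P × V)) (hX : ∀ k v, (k, v) ∈ F → (τ k v, v) ∈ X) (e : ℝ) (he : 0 < e)
    (hbig : (Fintype.card P : ℝ) ^ 2 * (R ^ 2 * Fintype.card V +
        (Fintype.card K : ℝ) ^ (m + 1) * Fintype.card Ω * ε) <
      e * (2 : ℝ) ^ ((m : ℝ) * e / (Fintype.card K * Fintype.card V))) :
    (F.card : ℝ) ≤ 2 * X.card + e := by
  by_contra hcon
  push Not at hcon
  set F' : Finset (K × (P × V)) := F.image (fun q : K × V => (q.1, (τ q.1 q.2, q.2))) with hF'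
  have hinj : Function.Injective (fun q : K × V => (q.1, (τ q.1 q.2, q.2))) := by
    rintro ⟨k, v⟩ ⟨k', v'⟩ h
    simp only [Prod.mk.injEq] at h
    exact Prod.ext h.1 h.2.2
  have hcard : F'.card = F.card := card_image_of_injective _ hinj
  have hcoe : (F' : Set (K × (P × V))) = dartF τ (F : Set (K × V)) := by
    ext q
    obtain ⟨k, p, v⟩ := q
    simp only [hF', coe_image, Set.mem_image, Finset.mem_coe, dartF, Set.mem_ofPred_eq,
      Prod.mk.injEq]
    constructor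
    · rintro ⟨⟨k', v'⟩, h1, rfl, h3, rfl⟩
      exact ⟨h3.symm, h1⟩
    · rintro ⟨h1, h2⟩
      exact ⟨(k, v), h2, rfl, h1.symm, rfl⟩
  have hmove : ∀ k v, mvt N τ k (τ k v, v) = (τ k (N k v), N k v) := by
    intro k v
    unfold mvt
    exact if_pos rfl
  have hlow := nb_lower (mvt N τ) (mvt_mvt N hN τ) F' (by
      intro p hp
      rw [hF', mem_image] at hp
      obtain ⟨⟨k, v⟩, hq, rfl⟩ := hp
      rw [hF', mem_image]
      refine ⟨(k, N k v), hF (k, v) hq, ?_⟩
      show (k, (τ k (N k v), N k v)) = (k, mvt N τ k (τ k v, v))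
      rw [hmove]) (by
      intro p hp
      rw [hF', mem_image] at hp
      obtain ⟨⟨k, v⟩, hq, rfl⟩ := hp
      show mvt N τ k (τ k v, v) ≠ (τ k v, v)
      rw [hmove]
      intro h
      exact hN' k v (congrArg Prod.snd h)) X (by
      intro p hp
      rw [hF', mem_image] at hp
      obtain ⟨⟨k, v⟩, hq, rfl⟩ := hp
      exact hX k v hq) e he (by
      rw [hcard]
      exact hcon.le) m
  rw [hcard, hcoe] at hlow
  have hup := walk_upper N τ node σ hσ m hred z Lst R hR pm hpm hpm1 ε hε hlln (F : Set (K × V))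
    (fun k v h => hsat k v h) (fun k v h => hl k v h)
    (fun k v h => hl k (N k v) (hF (k, v) h))
  have h1 := hlow.trans hup
  have hX0 : (0 : ℝ) ≤ X.card := Nat.cast_nonneg _
  have hFpos : (0 : ℝ) < F.card := by linarith
  have hFle : (F.card : ℝ) ≤ Fintype.card K * Fintype.card V := by
    have h2 : F.card ≤ Fintype.card (K × V) := card_le_univ _
    rw [Fintype.card_prod] at h2
    exact_mod_cast h2
  have h3 : e * (2 : ℝ) ^ ((m : ℝ) * e / (Fintype.card K * Fintype.card V)) ≤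
      e * (2 : ℝ) ^ ((m : ℝ) * e / F.card) := by
    apply mul_le_mul_of_nonneg_left _ he.le
    apply Real.rpow_le_rpow_of_exponent_le (by norm_num)
    exact div_le_div_of_nonneg_left (by positivity) hFpos hFle
  linarith

end Pool.Agent.CovT
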