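import Mathlib
import Pool.Agent.Lib.CovT.KeepT

/-!
# CovT.SoundT (1.8 h): consequences of the tests for labelings

Adapt the two halves of `P325d.sat_card` (file `Pool/Agent/Lib/P325d/Sound.lean`).

`first`: apply the test `testL` to `gL p := er (cs cl false) (fun c a => weight ≤ W) (x p)` (the
predicate 'the weight `-log freq` of the label `a` in the cloud `c` is `≤ W`') and the same on the
right. By `er_wt` (product over `p`) `wt ≥ exp (-(weights of the kept vertices) - (|PL|+|PR|) |H|)`;
`testL ≥ exp (∑ M)` over the satisfied edges with `M ≤ W`: the factor of such an edge is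
`1 + 1 / min (freq, freq) = 1 + exp M ≥ exp M` (`exp_neg_cw`, `er_freq`, and `half_cl` to identify
the cloud of `half r k b h` with the cloud of `h`), the other factors are `≥ 1`.

`second`: apply the test `testH (1/δ)` to the erased labelings: every satisfied edge with both ends
kept has the factor `1 + 1/δ`, and the kept vertices have weight at most `W0`.
-/

open Finset

namespace Pool.Agent.CovT

open Pool.Agent.P325f1f.Dich Pool.Agent.P325d

variable {K H C Ω PL PR : Type} [Fintype K] [Fintype H] [Fintype Ω] [Fintype PL] [Fintype PR]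
  [DecidableEq C] [DecidableEq Ω] [Fintype C] [DecidableEq H]

/-- The satisfied edges. -/
def satE {cl : Bool × H → C} (s : K → PL) (d : K → PR) (σ : K → Equiv.Perm Ω)
    (φ : K → Equiv.Perm H) (r : Rout K (Bool × H) C cl) (x : PL → H → Ω) (y : PR → H → Ω) :
    Finset (K × H) :=
  univ.filter (fun q => σ q.1 (x (s q.1) (half r q.1 false q.2)) =
    y (d q.1) (half r q.1 true (φ q.1 q.2)))

/-- The weight of an edge: the larger one of the weights of its ends. -/
noncomputable def ew {cl : Bool × H → C} (s : K → PL) (d : K → PR)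
    (φ : K → Equiv.Perm H) (r : Rout K (Bool × H) C cl) (x : PL → H → Ω) (y : PR → H → Ω)
    (q : K × H) : ℝ :=
  max (cw (cs cl false) (x (s q.1)) (half r q.1 false q.2))
    (cw (cs cl true) (y (d q.1)) (half r q.1 true (φ q.1 q.2)))

namespace SoundTAux

open Classical in
theorem half_wt (c0 : H → C) (P : Type) [Fintype P] (kp : P → C → Ω → Prop) (x : P → H → Ω) :
    Real.exp (-(∑ v ∈ univ.filter (fun v : P × H => kp v.1 (c0 v.2) (x v.1 v.2)),
        cw c0 (x v.1) v.2) - Fintype.card P * Fintype.card H) ≤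
      ∏ p, ∏ h, freq c0 (er c0 (kp p) (x p)) (c0 h) (er c0 (kp p) (x p) h) := by
  have h1 : (-(∑ v ∈ univ.filter (fun v : P × H => kp v.1 (c0 v.2) (x v.1 v.2)),
        cw c0 (x v.1) v.2) - Fintype.card P * Fintype.card H : ℝ) =
      ∑ p : P, (-(∑ h ∈ univ.filter (fun h => kp p (c0 h) (x p h)), cw c0 (x p) h) -
        Fintype.card H) := by
    rw [Finset.sum_sub_distrib, Finset.sum_neg_distrib, sum_filter, Fintype.sum_prod_type]
    congr 2
    · refine Finset.sum_congr rfl fun p _ => ?_
      rw [sum_filter]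
    · rw [Finset.sum_const, Finset.card_univ, nsmul_eq_mul]
  rw [h1, Real.exp_sum]
  exact Finset.prod_le_prod (fun _ _ => (Real.exp_pos _).le) (fun p _ => er_wt c0 (kp p) (x p))

open Classical in
theorem wt_er (cl : Bool × H → C) (x : PL → H → Ω) (y : PR → H → Ω)
    (kL : PL → C → Ω → Prop) (kR : PR → C → Ω → Prop) :
    Real.exp (-(∑ v ∈ univ.filter (fun v : PL × H => kL v.1 (cs cl false v.2) (x v.1 v.2)),
        cw (cs cl false) (x v.1) v.2) -
      (∑ v ∈ univ.filter (fun v : PR × H => kR v.1 (cs cl true v.2) (y v.1 v.2)),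
        cw (cs cl true) (y v.1) v.2) -
      (Fintype.card PL + Fintype.card PR) * Fintype.card H) ≤
      wt cl (fun p => er (cs cl false) (kL p) (x p)) (fun p => er (cs cl true) (kR p) (y p)) := by
  have h1 := half_wt (cs cl false) PL kL x
  have h2 := half_wt (cs cl true) PR kR y
  unfold wt
  refine le_trans (le_of_eq ?_) (mul_le_mul h1 h2 (Real.exp_pos _).le
    (Finset.prod_nonneg fun _ _ => Finset.prod_nonneg fun _ _ => freq_nonneg _ _ _ _))
  rw [← Real.exp_add]
  congr 1
  ring

theorem wt_nonneg' (cl : Bool × H → C) (gL : PL → H → Option Ω) (gR : PR → H → Option Ω) :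
    0 ≤ wt cl gL gR := by
  unfold wt
  exact mul_nonneg (Finset.prod_nonneg fun _ _ => Finset.prod_nonneg fun _ _ => freq_nonneg _ _ _ _)
    (Finset.prod_nonneg fun _ _ => Finset.prod_nonneg fun _ _ => freq_nonneg _ _ _ _)

theorem min_exp (a b : ℝ) : min (Real.exp (-a)) (Real.exp (-b)) = Real.exp (-(max a b)) := by
  rcases le_total a b with h | h
  · rw [min_eq_right (Real.exp_le_exp.2 (neg_le_neg h)), max_eq_right h]
  · rw [min_eq_left (Real.exp_le_exp.2 (neg_le_neg h)), max_eq_left h]

/-- the factors of the test for light labels -/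
theorem factorL {cl : Bool × H → C} (hs : ∀ v v', cl v = cl v' → v.1 = v'.1)
    (s : K → PL) (d : K → PR) (σ : K → Equiv.Perm Ω) (φ : K → Equiv.Perm H)
    (r : Rout K (Bool × H) C cl) (x : PL → H → Ω) (y : PR → H → Ω)
    (kL : PL → C → Ω → Prop) (kR : PR → C → Ω → Prop) (q : K × H)
    (hq : σ q.1 (x (s q.1) (half r q.1 false q.2)) = y (d q.1) (half r q.1 true (φ q.1 q.2)))
    (h1 : kL (s q.1) (cs cl false (half r q.1 false q.2)) (x (s q.1) (half r q.1 false q.2)))
    (h2 : kR (d q.1) (cs cl true (half r q.1 true (φ q.1 q.2)))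
      (y (d q.1) (half r q.1 true (φ q.1 q.2)))) :
    Sat (σ q.1) (er (cs cl false) (kL (s q.1)) (x (s q.1)) (half r q.1 false q.2))
      (er (cs cl true) (kR (d q.1)) (y (d q.1)) (half r q.1 true (φ q.1 q.2))) ∧
    (min (freq (cs cl false) (er (cs cl false) (kL (s q.1)) (x (s q.1))) (cs cl false q.2)
        (er (cs cl false) (kL (s q.1)) (x (s q.1)) (half r q.1 false q.2)))
      (freq (cs cl true) (er (cs cl true) (kR (d q.1)) (y (d q.1))) (cs cl true (φ q.1 q.2))
        (er (cs cl true) (kR (d q.1)) (y (d q.1)) (half r q.1 true (φ q.1 q.2)))))⁻¹ =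
      Real.exp (ew s d φ r x y q) := by
  have e1 := er_pos (cs cl false) (kL (s q.1)) (x (s q.1)) _ h1
  have e2 := er_pos (cs cl true) (kR (d q.1)) (y (d q.1)) _ h2
  have f1 := er_freq (cs cl false) (kL (s q.1)) (x (s q.1)) _ h1
  have f2 := er_freq (cs cl true) (kR (d q.1)) (y (d q.1)) _ h2
  have c1 : cs cl false q.2 = cs cl false (half r q.1 false q.2) := (half_cl hs r q.1 false q.2).symm
  have c2 : cs cl true (φ q.1 q.2) = cs cl true (half r q.1 true (φ q.1 q.2)) :=
    (half_cl hs r q.1 true (φ q.1 q.2)).symm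
  constructor
  · exact ⟨_, e1, by rw [e2, hq]⟩
  · rw [e1, e2, c1, c2, f1, f2, ← exp_neg_cw, ← exp_neg_cw, min_exp, ← Real.exp_neg, neg_neg]
    rfl

end SoundTAux

open SoundTAux

theorem first {cl : Bool × H → C} (hs : ∀ v v', cl v = cl v' → v.1 = v'.1)
    (s : K → PL) (d : K → PR) (σ : K → Equiv.Perm Ω) (φ : K → Equiv.Perm H) (Kc δ : ℝ)
    (r : Rout K (Bool × H) C cl) (hr : Good s d σ φ Kc δ r) (x : PL → H → Ω) (y : PR → H → Ω)
    (W : ℝ) :
    (∑ q ∈ (satE s d σ φ r x y).filter (fun q => ew s d φ r x y q ≤ W), ew s d φ r x y q) ≤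
      (∑ v ∈ univ.filter (fun v : PL × H => cw (cs cl false) (x v.1) v.2 ≤ W),
        cw (cs cl false) (x v.1) v.2) +
      (∑ v ∈ univ.filter (fun v : PR × H => cw (cs cl true) (y v.1) v.2 ≤ W),
        cw (cs cl true) (y v.1) v.2) +
      (Kc + (Fintype.card PL + Fintype.card PR) * Fintype.card H) := by
  classical
  set kL : PL → C → Ω → Prop := fun p c a => -Real.log (freq (cs cl false) (x p) c a) ≤ W with hkL
  set kR : PR → C → Ω → Prop := fun p c a => -Real.log (freq (cs cl true) (y p) c a) ≤ W with hkR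
  set gL : PL → H → Option Ω := fun p => er (cs cl false) (kL p) (x p) with hgL
  set gR : PR → H → Option Ω := fun p => er (cs cl true) (kR p) (y p) with hgR
  set J : Finset (K × H) := (satE s d σ φ r x y).filter (fun q => ew s d φ r x y q ≤ W) with hJ
  have h1 := (hr gL gR).1
  have h2 := wt_er cl x y kL kR
  have h3 : Real.exp (∑ q ∈ J, ew s d φ r x y q) ≤ testL cl s d σ φ gL gR r := by
    rw [Real.exp_sum]
    unfold testL
    calc ∏ q ∈ J, Real.exp (ew s d φ r x y q)
        = ∏ q : K × H, (if q ∈ J then Real.exp (ew s d φ r x y q) else 1) := by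
          rw [Finset.prod_ite_mem, univ_inter]
      _ ≤ _ := by
          refine prod_le_prod (fun q _ => by split_ifs <;> positivity) (fun q _ => ?_)
          by_cases hq : q ∈ J
          · rw [if_pos hq]
            have hq1 := (mem_filter.1 hq).2
            have hq2 := (mem_filter.1 (mem_filter.1 hq).1).2
            have hq3 : kL (s q.1) (cs cl false (half r q.1 false q.2))
                (x (s q.1) (half r q.1 false q.2)) := (le_max_left _ _).trans hq1
            have hq4 : kR (d q.1) (cs cl true (half r q.1 true (φ q.1 q.2)))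
                (y (d q.1) (half r q.1 true (φ q.1 q.2))) := (le_max_right _ _).trans hq1
            obtain ⟨f1, f2⟩ := factorL hs s d σ φ r x y kL kR q hq2 hq3 hq4
            rw [if_pos f1, f2]
            linarith
          · rw [if_neg hq]
            have hmin : ∀ a b : ℝ, 0 ≤ a → 0 ≤ b → 0 ≤ (min a b)⁻¹ := fun a b ha hb =>
              inv_nonneg.2 (le_min ha hb)
            split_ifs
            · have := hmin _ _ (freq_nonneg (cs cl false) (gL (s q.1)) (cs cl false q.2)
                (gL (s q.1) (half r q.1 false q.2))) (freq_nonneg (cs cl true) (gR (d q.1))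
                  (cs cl true (φ q.1 q.2)) (gR (d q.1) (half r q.1 true (φ q.1 q.2))))
              linarith
            · norm_num
  have h4 : Real.exp (-(∑ v ∈ univ.filter (fun v : PL × H => kL v.1 (cs cl false v.2) (x v.1 v.2)),
        cw (cs cl false) (x v.1) v.2) -
      (∑ v ∈ univ.filter (fun v : PR × H => kR v.1 (cs cl true v.2) (y v.1 v.2)),
        cw (cs cl true) (y v.1) v.2) -
      (Fintype.card PL + Fintype.card PR) * Fintype.card H +
      ∑ q ∈ J, ew s d φ r x y q) < Real.exp Kc := by
    rw [Real.exp_add]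
    exact lt_of_le_of_lt (mul_le_mul h2 h3 (Real.exp_pos _).le (wt_nonneg' _ _ _)) h1
  have h5 := Real.exp_lt_exp.1 h4
  have h6 : univ.filter (fun v : PL × H => kL v.1 (cs cl false v.2) (x v.1 v.2)) =
      univ.filter (fun v : PL × H => cw (cs cl false) (x v.1) v.2 ≤ W) := by
    ext v
    simp only [mem_filter, mem_univ, true_and]
    rfl
  have h7 : univ.filter (fun v : PR × H => kR v.1 (cs cl true v.2) (y v.1 v.2)) =
      univ.filter (fun v : PR × H => cw (cs cl true) (y v.1) v.2 ≤ W) := by
    ext v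
    simp only [mem_filter, mem_univ, true_and]
    rfl
  rw [h6, h7] at h5
  linarith

open Classical in
theorem second {cl : Bool × H → C} (hs : ∀ v v', cl v = cl v' → v.1 = v'.1)
    (s : K → PL) (d : K → PR) (σ : K → Equiv.Perm Ω) (φ : K → Equiv.Perm H) (Kc δ W0 : ℝ)
    (hδ : 0 < δ) (hW0 : 0 ≤ W0)
    (r : Rout K (Bool × H) C cl) (hr : Good s d σ φ Kc δ r) (x : PL → H → Ω) (y : PR → H → Ω)
    (kL : PL → C → Ω → Prop) (kR : PR → C → Ω → Prop)
    (hkL : ∀ p h, kL p (cs cl false h) (x p h) → cw (cs cl false) (x p) h ≤ W0)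
    (hkR : ∀ p h, kR p (cs cl true h) (y p h) → cw (cs cl true) (y p) h ≤ W0)
    (hdens : dens cl s d σ φ (fun p => er (cs cl false) (kL p) (x p))
      (fun p => er (cs cl true) (kR p) (y p)) ≤ δ * (Fintype.card K * Fintype.card H)) :
    ((((satE s d σ φ r x y).filter (fun q =>
      kL (s q.1) (cs cl false q.2) (x (s q.1) (half r q.1 false q.2)) ∧
      kR (d q.1) (cs cl true (φ q.1 q.2)) (y (d q.1) (half r q.1 true (φ q.1 q.2))))).card : ℝ)) ≤
      (Kc + (Fintype.card PL + Fintype.card PR) * Fintype.card H * (W0 + 1)) /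
        Real.log (1 + 1 / δ) := by
  set gL : PL → H → Option Ω := fun p => er (cs cl false) (kL p) (x p) with hgL
  set gR : PR → H → Option Ω := fun p => er (cs cl true) (kR p) (y p) with hgR
  set J : Finset (K × H) := (satE s d σ φ r x y).filter (fun q =>
      kL (s q.1) (cs cl false q.2) (x (s q.1) (half r q.1 false q.2)) ∧
      kR (d q.1) (cs cl true (φ q.1 q.2)) (y (d q.1) (half r q.1 true (φ q.1 q.2)))) with hJ
  have hlog : 0 < Real.log (1 + 1 / δ) := Real.log_pos (by
    have : 0 < 1 / δ := by positivity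
    linarith)
  rw [le_div_iff₀ hlog]
  have h1 := (hr gL gR).2 hdens
  have h2 := wt_er cl x y kL kR
  have h3 : Real.exp (J.card * Real.log (1 + 1 / δ)) ≤ testH s d σ φ gL gR (1 / δ) r := by
    have hpos : 0 < 1 / δ := by positivity
    rw [Real.exp_nat_mul, Real.exp_log (by linarith)]
    unfold testH
    calc (1 + 1 / δ) ^ J.card = ∏ _q ∈ J, (1 + 1 / δ) := by rw [prod_const]
      _ = ∏ q : K × H, (if q ∈ J then (1 + 1 / δ) else 1) := by
          rw [Finset.prod_ite_mem, univ_inter]
      _ ≤ _ := by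
          refine prod_le_prod (fun q _ => by split_ifs <;> positivity) (fun q _ => ?_)
          by_cases hq : q ∈ J
          · rw [if_pos hq]
            obtain ⟨hq1, hq3, hq4⟩ := mem_filter.1 hq
            have hq2 := (mem_filter.1 hq1).2
            have c1 : cs cl false q.2 = cs cl false (half r q.1 false q.2) :=
              (half_cl hs r q.1 false q.2).symm
            have c2 : cs cl true (φ q.1 q.2) = cs cl true (half r q.1 true (φ q.1 q.2)) :=
              (half_cl hs r q.1 true (φ q.1 q.2)).symm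
            rw [c1] at hq3
            rw [c2] at hq4
            obtain ⟨f1, -⟩ := factorL hs s d σ φ r x y kL kR q hq2 hq3 hq4
            rw [if_pos f1]
          · rw [if_neg hq]
            split_ifs
            · linarith
            · norm_num
  have h4 : Real.exp (-(∑ v ∈ univ.filter (fun v : PL × H => kL v.1 (cs cl false v.2) (x v.1 v.2)),
        cw (cs cl false) (x v.1) v.2) -
      (∑ v ∈ univ.filter (fun v : PR × H => kR v.1 (cs cl true v.2) (y v.1 v.2)),
        cw (cs cl true) (y v.1) v.2) -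
      (Fintype.card PL + Fintype.card PR) * Fintype.card H +
      J.card * Real.log (1 + 1 / δ)) < Real.exp Kc := by
    rw [Real.exp_add]
    exact lt_of_le_of_lt (mul_le_mul h2 h3 (Real.exp_pos _).le (wt_nonneg' _ _ _)) h1
  have h5 := Real.exp_lt_exp.1 h4
  have h6 : ∀ (P : Type) [Fintype P] (c0 : H → C) (kp : P → C → Ω → Prop) (z : P → H → Ω),
      (∀ p h, kp p (c0 h) (z p h) → cw c0 (z p) h ≤ W0) →
      ∑ v ∈ univ.filter (fun v : P × H => kp v.1 (c0 v.2) (z v.1 v.2)), cw c0 (z v.1) v.2 ≤
        Fintype.card P * Fintype.card H * W0 := by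
    intro P _ c0 kp z hz
    have h10 := Finset.sum_le_card_nsmul
      (univ.filter (fun v : P × H => kp v.1 (c0 v.2) (z v.1 v.2))) (fun v => cw c0 (z v.1) v.2) W0
      (fun v hv => hz _ _ (mem_filter.1 hv).2)
    rw [nsmul_eq_mul] at h10
    refine h10.trans (mul_le_mul_of_nonneg_right ?_ hW0)
    have h11 : (univ.filter (fun v : P × H => kp v.1 (c0 v.2) (z v.1 v.2))).card ≤
        Fintype.card (P × H) := card_le_univ _
    rw [Fintype.card_prod] at h11
    exact_mod_cast h11
  have h7 := h6 PL (cs cl false) kL x hkL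
  have h8 := h6 PR (cs cl true) kR y hkR
  nlinarith

end Pool.Agent.CovT
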