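import Mathlib
import Pool.Agent.Lib.CovT.HeavyT
import Pool.Agent.Lib.CovT.SoundT

/-!
# CovT.HHcount (1.5 h): few satisfied edges between listed labels

Apply `heavy` with `V := Bool × H`, `N := nbr (Phi φ) r` (`nbr_nbr`, `Phi_Phi`, `nbr_ne`, `Phi_ne`),
`P := PL ⊕ PR`, `τ k v := if v.1 then Sum.inr (d k) else Sum.inl (s k)`,
`z (Sum.inl p) v := x p v.2`, `z (Sum.inr p) v := y p v.2`, `Lst` from `LL`, `LR`, and the set `F` of
all darts `(k, v)` such that the labels of the typed vertices `(τ k v, v)` and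
`(τ k (N k v), N k v)` correspond under `σ k`, are listed and are ok (both ends). It is closed under
reversal (`σ k` is an involution) and has twice as many elements as the set on the left side: the edge
`(k, h)` has the two darts `(k, (false, half r k false h))` and
`(k, (true, half r k true (φ k h)))`, `nbr (Phi φ) r k (false, half r k false h) =
(true, half r k true (φ k h))` (`half_eq`, definition of `nbr`, `Phi`), and every position
`(false, h')` is `(false, half r k false h)` for exactly one `h`.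
`X = {(Sum.inl p, (false, h)) | okL p h} ∪ {(Sum.inr p, (true, h)) | okR p h}`, `e = 2 κ |H|`.
-/

open Finset

namespace Pool.Agent.CovT

open Pool.Agent.P325f1f.Dich Pool.Agent.P325d

/-- The other end of the dart at the left end of the edge `(k, h)`. -/
theorem nbr_left {H C K : Type} {cl : Bool × H → C} (hs : ∀ v v', cl v = cl v' → v.1 = v'.1)
    (φ : K → Equiv.Perm H) (r : Rout K (Bool × H) C cl) (k : K) (h : H) :
    nbr (Phi φ) r k (false, half r k false h) = (true, half r k true (φ k h)) := by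
  unfold nbr
  rw [← half_eq hs, Equiv.symm_apply_apply, ← half_eq hs]
  rfl

/-- The other end of the dart at the right end of the edge `(k, h)`. -/
theorem nbr_right {H C K : Type} {cl : Bool × H → C} (hs : ∀ v v', cl v = cl v' → v.1 = v'.1)
    (φ : K → Equiv.Perm H) (r : Rout K (Bool × H) C cl) (k : K) (h : H) :
    nbr (Phi φ) r k (true, half r k true (φ k h)) = (false, half r k false h) := by
  rw [← nbr_left hs, nbr_nbr _ (Phi_Phi φ)]

open Classical in
theorem hh_count {K H C D Ω PL PR : Type} [Fintype K] [Fintype H] [Fintype Ω] [Fintype PL]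
    [Fintype PR] [Fintype D] [Fintype C] [DecidableEq K] [DecidableEq C] [DecidableEq Ω]
    [DecidableEq H] [DecidableEq D]
    {cl : Bool × H → C} (hs : ∀ v v', cl v = cl v' → v.1 = v'.1)
    (s : K → PL) (d : K → PR) (σ : K → Equiv.Perm Ω) (hσ : ∀ k ω, σ k (σ k ω) = ω)
    (φ : K → Equiv.Perm H) (r : Rout K (Bool × H) C cl) (node : Bool × H → D)
    (m : ℕ) (hred : ∀ l : List K, l ≠ [] → l.length ≤ 2 * (m + 1) → Red l →
      ∀ ω, wact (fun k ω => σ k ω) l ω ≠ ω)
    (x : PL → H → Ω) (y : PR → H → Ω) (LL : PL → D → Finset Ω) (LR : PR → D → Finset Ω) (R : ℝ)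
    (hLL : ∀ p u, ((LL p u).card : ℝ) ≤ R) (hLR : ∀ p u, ((LR p u).card : ℝ) ≤ R)
    (pm : D → D → ℝ) (hpm : ∀ a b, 0 ≤ pm a b) (hpm1 : ∑ a, ∑ b, pm a b ≤ 2 * Fintype.card H)
    (ε : ℝ) (hε : 0 ≤ ε)
    (hlln : ∀ l ∈ words K (m + 1), ∀ A B : Finset D,
      ((univ.filter (fun v => node v ∈ A ∧ node (wact (nbr (Phi φ) r) l v) ∈ B)).card : ℝ) ≤
        (∑ a ∈ A, ∑ b ∈ B, pm a b) + ε)
    (okL : PL → H → Prop) (okR : PR → H → Prop) (κ : ℝ) (hκ : 0 < κ)
    (hbig : ((Fintype.card PL : ℝ) + Fintype.card PR) ^ 2 * (R ^ 2 * (2 * Fintype.card H) +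
        (Fintype.card K : ℝ) ^ (m + 1) * Fintype.card Ω * ε) <
      2 * κ * Fintype.card H * (2 : ℝ) ^ ((m : ℝ) * κ / Fintype.card K)) :
    (((satE s d σ φ r x y).filter (fun q =>
      (okL (s q.1) (half r q.1 false q.2) ∧ okR (d q.1) (half r q.1 true (φ q.1 q.2))) ∧
      x (s q.1) (half r q.1 false q.2) ∈ LL (s q.1) (node (false, half r q.1 false q.2)) ∧
      y (d q.1) (half r q.1 true (φ q.1 q.2)) ∈
        LR (d q.1) (node (true, half r q.1 true (φ q.1 q.2))))).card : ℝ) ≤
      ((univ.filter (fun v : PL × H => okL v.1 v.2)).card : ℝ) +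
        (univ.filter (fun v : PR × H => okR v.1 v.2)).card + κ * Fintype.card H := by
  rcases isEmpty_or_nonempty H with hH | hH
  · have h0 : ∀ S : Finset (K × H), S = ∅ := fun S => by
      ext q
      exact hH.elim q.2
    rw [h0 (Finset.filter _ _), card_empty, Nat.cast_zero]
    positivity
  have hH0 : (0 : ℝ) < Fintype.card H := by exact_mod_cast Fintype.card_pos
  set N : K → Bool × H → Bool × H := nbr (Phi φ) r with hN
  set τ : K → Bool × H → PL ⊕ PR := fun k v => if v.1 then Sum.inr (d k) else Sum.inl (s k) with hτ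
  set z : PL ⊕ PR → Bool × H → Ω := fun p v => Sum.elim (fun p => x p v.2) (fun p => y p v.2) p
    with hz
  set Lst : PL ⊕ PR → D → Finset Ω := Sum.elim LL LR with hLst
  set ok : PL ⊕ PR → Bool × H → Prop := fun p v => Sum.elim (fun p => okL p v.2)
    (fun p => okR p v.2) p with hok
  have hNN : ∀ k v, N k (N k v) = v := nbr_nbr _ (Phi_Phi φ) r
  set F : Finset (K × (Bool × H)) := univ.filter (fun q =>
    z (τ q.1 (N q.1 q.2)) (N q.1 q.2) = σ q.1 (z (τ q.1 q.2) q.2) ∧
    (z (τ q.1 q.2) q.2 ∈ Lst (τ q.1 q.2) (node q.2) ∧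
      z (τ q.1 (N q.1 q.2)) (N q.1 q.2) ∈ Lst (τ q.1 (N q.1 q.2)) (node (N q.1 q.2))) ∧
    ok (τ q.1 q.2) q.2 ∧ ok (τ q.1 (N q.1 q.2)) (N q.1 q.2)) with hF
  have hmemF : ∀ k v, (k, v) ∈ F ↔ z (τ k (N k v)) (N k v) = σ k (z (τ k v) v) ∧
    (z (τ k v) v ∈ Lst (τ k v) (node v) ∧
      z (τ k (N k v)) (N k v) ∈ Lst (τ k (N k v)) (node (N k v))) ∧
    ok (τ k v) v ∧ ok (τ k (N k v)) (N k v) := by
    intro k v
    rw [hF, mem_filter]
    simp only [mem_univ, true_and]
  set XL : Finset ((PL ⊕ PR) × (Bool × H)) :=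
    (univ.filter (fun v : PL × H => okL v.1 v.2)).image (fun v => (Sum.inl v.1, (false, v.2)))
    with hXL
  set XR : Finset ((PL ⊕ PR) × (Bool × H)) :=
    (univ.filter (fun v : PR × H => okR v.1 v.2)).image (fun v => (Sum.inr v.1, (true, v.2)))
    with hXR
  have hcardX : ((XL ∪ XR).card : ℝ) ≤ ((univ.filter (fun v : PL × H => okL v.1 v.2)).card : ℝ) +
        (univ.filter (fun v : PR × H => okR v.1 v.2)).card := by
    have h1 : (XL ∪ XR).card ≤ XL.card + XR.card := card_union_le _ _
    have h2 : XL.card ≤ (univ.filter (fun v : PL × H => okL v.1 v.2)).card := card_image_le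
    have h3 : XR.card ≤ (univ.filter (fun v : PR × H => okR v.1 v.2)).card := card_image_le
    have h4 : (XL ∪ XR).card ≤ (univ.filter (fun v : PL × H => okL v.1 v.2)).card +
      (univ.filter (fun v : PR × H => okR v.1 v.2)).card := by omega
    exact_mod_cast h4
  have hV : (Fintype.card (Bool × H) : ℝ) = 2 * Fintype.card H := by
    rw [Fintype.card_prod, Fintype.card_bool]
    push_cast
    ring
  have hP : (Fintype.card (PL ⊕ PR) : ℝ) = Fintype.card PL + Fintype.card PR := by
    rw [Fintype.card_sum]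
    push_cast
    ring
  have key := heavy N hNN (nbr_ne _ (Phi_ne φ) r) τ node (fun k ω => σ k ω) hσ m hred z Lst R
    (by
      intro p u
      rcases p with p | p
      · exact hLL p u
      · exact hLR p u) pm hpm (by rw [hV]; exact hpm1) ε hε hlln F
    (by
      rintro ⟨k, v⟩ hq
      obtain ⟨h1, ⟨h2, h3⟩, h4, h5⟩ := (hmemF k v).1 hq
      show (k, N k v) ∈ F
      rw [hmemF, hNN]
      exact ⟨by rw [h1, hσ], ⟨h3, h2⟩, h5, h4⟩)
    (fun k v hq => ((hmemF k v).1 hq).1)
    (fun k v hq => ((hmemF k v).1 hq).2.1.1) (XL ∪ XR)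
    (by
      intro k v hq
      have h1 := ((hmemF k v).1 hq).2.2.1
      obtain ⟨b, h⟩ := v
      rw [mem_union]
      cases b
      · left
        rw [hXL, mem_image]
        exact ⟨(s k, h), mem_filter.2 ⟨mem_univ _, h1⟩, rfl⟩
      · right
        rw [hXR, mem_image]
        exact ⟨(d k, h), mem_filter.2 ⟨mem_univ _, h1⟩, rfl⟩)
    (2 * κ * Fintype.card H) (by positivity)
    (by
      rw [hV, hP]
      refine lt_of_lt_of_le hbig (le_of_eq ?_)
      congr 2
      rcases Nat.eq_zero_or_pos (Fintype.card K) with h0 | h0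
      · rw [h0]
        simp
      · have : (0 : ℝ) < Fintype.card K := by exact_mod_cast h0
        field_simp)
  -- the two darts of an edge
  set S : Finset (K × H) := (satE s d σ φ r x y).filter (fun q =>
      (okL (s q.1) (half r q.1 false q.2) ∧ okR (d q.1) (half r q.1 true (φ q.1 q.2))) ∧
      x (s q.1) (half r q.1 false q.2) ∈ LL (s q.1) (node (false, half r q.1 false q.2)) ∧
      y (d q.1) (half r q.1 true (φ q.1 q.2)) ∈
        LR (d q.1) (node (true, half r q.1 true (φ q.1 q.2)))) with hS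
  set f1 : K × H → K × (Bool × H) := fun q => (q.1, (false, half r q.1 false q.2)) with hf1
  set f2 : K × H → K × (Bool × H) := fun q => (q.1, (true, half r q.1 true (φ q.1 q.2))) with hf2
  have hi1 : Function.Injective f1 := by
    rintro ⟨k, h⟩ ⟨k', h'⟩ hh
    simp only [hf1, Prod.mk.injEq] at hh
    obtain ⟨rfl, _, h3⟩ := hh
    rw [half_inj hs r k false h3]
  have hi2 : Function.Injective f2 := by
    rintro ⟨k, h⟩ ⟨k', h'⟩ hh
    simp only [hf2, Prod.mk.injEq] at hh
    obtain ⟨rfl, _, h3⟩ := hh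
    rw [(φ k).injective (half_inj hs r k true h3)]
  have hsub : S.image f1 ∪ S.image f2 ⊆ F := by
    intro q hq
    rw [mem_union, mem_image, mem_image] at hq
    have hmem : ∀ k h, (k, h) ∈ S →
        (k, ((false, half r k false h) : Bool × H)) ∈ F := by
      intro k h hkh
      rw [hS, mem_filter] at hkh
      obtain ⟨g1, ⟨g2, g3⟩, g4, g5⟩ := hkh
      unfold satE at g1
      have g6 := (mem_filter.1 g1).2
      rw [hmemF, hN, nbr_left hs]
      exact ⟨g6.symm, ⟨g4, g5⟩, g2, g3⟩
    rcases hq with ⟨⟨k, h⟩, hkh, rfl⟩ | ⟨⟨k, h⟩, hkh, rfl⟩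
    · exact hmem k h hkh
    · have g0 := hmem k h hkh
      obtain ⟨h1, ⟨h2, h3⟩, h4, h5⟩ := (hmemF k _).1 g0
      have g1 : N k (false, half r k false h) = (true, half r k true (φ k h)) := nbr_left hs φ r k h
      have g2 : N k (true, half r k true (φ k h)) = (false, half r k false h) :=
        nbr_right hs φ r k h
      rw [g1] at h1 h3 h5
      show (k, ((true, half r k true (φ k h)) : Bool × H)) ∈ F
      rw [hmemF, g2]
      exact ⟨by rw [h1, hσ], ⟨h3, h2⟩, h5, h4⟩
  have hdisj : Disjoint (S.image f1) (S.image f2) := by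
    rw [Finset.disjoint_left]
    intro q h1 h2
    obtain ⟨q1, _, rfl⟩ := mem_image.1 h1
    obtain ⟨q2, _, h3⟩ := mem_image.1 h2
    simp only [hf1, hf2, Prod.mk.injEq] at h3
    exact absurd h3.2.1 (by simp)
  have hcount : 2 * S.card ≤ F.card := by
    have h1 := card_le_card hsub
    rw [card_union_of_disjoint hdisj, card_image_of_injective _ hi1,
      card_image_of_injective _ hi2] at h1
    omega
  have hcount' : 2 * (S.card : ℝ) ≤ F.card := by exact_mod_cast hcount
  linarith

end Pool.Agent.CovT
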