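import Mathlib
import Pool.Agent.Lib.CovT.UsedW

/-!
# CovT.LipW (0.8 h): a transposition changes few walks

`nbr (r.sw k a b) k v ≠ nbr r k v` only if `v ∈ {a, b, nbr r k a, nbr r k b}` (`nbr_sw`), 4 vertices;
other colours do not change. Induction on the word `k' :: l`: if the walks of `l` from `v` agree, the
walks of `k' :: l` differ only if `wact l v` is one of the 4 vertices, and `v ↦ wact (nbr Φ r) l v` is
injective (`nbr_nbr`), so there are at most 4 such `v`. Hence at most `4 |l|` starting points have
different ends.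
-/

open Finset

namespace Pool.Agent.CovT

open Pool.Agent.P325f1f.Dich

variable {K V C : Type} [Fintype V] [DecidableEq K] [DecidableEq V] [DecidableEq C]
  {cl : V → C}

theorem wact_inj (Φ : K → V → V) (hΦ : ∀ k v, Φ k (Φ k v) = v) (r : Rout K V C cl) (l : List K) :
    Function.Injective (wact (nbr Φ r) l) := by
  induction l with
  | nil => exact fun a b h => h
  | cons k l ih =>
    intro a b h
    apply ih
    have h1 : nbr Φ r k (wact (nbr Φ r) l a) = nbr Φ r k (wact (nbr Φ r) l b) := h
    have h2 := congrArg (nbr Φ r k) h1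
    rwa [nbr_nbr Φ hΦ, nbr_nbr Φ hΦ] at h2

/-- A transposition changes the matching at at most four vertices. -/
theorem LipW_step (Φ : K → V → V) (hΦ : ∀ k v, Φ k (Φ k v) = v) (r : Rout K V C cl)
    (k : K) (a b : V) (h : cl a = cl b) (k' : K) (u : V)
    (hu : nbr Φ (r.sw k a b) k' u ≠ nbr Φ r k' u) :
    u ∈ ({a, b, nbr Φ r k a, nbr Φ r k b} : Finset V) := by
  by_cases hk : k' = k
  · subst hk
    by_contra hcon
    simp only [mem_insert, mem_singleton, not_or] at hcon
    obtain ⟨h1, h2, h3, h4⟩ := hcon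
    apply hu
    rw [nbr_sw Φ r k' a b h, Equiv.swap_apply_of_ne_of_ne h1 h2]
    apply Equiv.swap_apply_of_ne_of_ne
    · intro h5
      apply h3
      rw [← h5, nbr_nbr Φ hΦ]
    · intro h5
      apply h4
      rw [← h5, nbr_nbr Φ hΦ]
  · exact absurd (nbr_sw_ne Φ r k k' hk a b u) hu

theorem card_differ (Φ : K → V → V) (hΦ : ∀ k v, Φ k (Φ k v) = v) (r : Rout K V C cl) (l : List K)
    (k : K) (a b : V) (h : cl a = cl b) :
    (univ.filter (fun v => wact (nbr Φ (r.sw k a b)) l v ≠ wact (nbr Φ r) l v)).card ≤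
      4 * l.length := by
  induction l with
  | nil =>
    have e : (univ.filter (fun v : V => wact (nbr Φ (r.sw k a b)) [] v ≠ wact (nbr Φ r) [] v)) =
        ∅ := by
      rw [filter_eq_empty_iff]
      intro v _
      exact fun h => h rfl
    rw [e, card_empty]
    exact Nat.zero_le _
  | cons k' l ih =>
    have hsub : (univ.filter (fun v => wact (nbr Φ (r.sw k a b)) (k' :: l) v ≠
        wact (nbr Φ r) (k' :: l) v)) ⊆
        (univ.filter (fun v => wact (nbr Φ (r.sw k a b)) l v ≠ wact (nbr Φ r) l v)) ∪
        (univ.filter (fun v => wact (nbr Φ r) l v ∈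
          ({a, b, nbr Φ r k a, nbr Φ r k b} : Finset V))) := by
      intro v hv
      rw [mem_filter] at hv
      rw [mem_union, mem_filter, mem_filter]
      by_cases h1 : wact (nbr Φ (r.sw k a b)) l v = wact (nbr Φ r) l v
      · right
        refine ⟨mem_univ _, ?_⟩
        apply LipW_step Φ hΦ r k a b h k'
        intro h2
        apply hv.2
        show nbr Φ (r.sw k a b) k' (wact (nbr Φ (r.sw k a b)) l v) =
          nbr Φ r k' (wact (nbr Φ r) l v)
        rw [h1, h2]
      · left
        exact ⟨mem_univ _, h1⟩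
    have hB : (univ.filter (fun v => wact (nbr Φ r) l v ∈
          ({a, b, nbr Φ r k a, nbr Φ r k b} : Finset V))).card ≤ 4 := by
      refine (card_le_card_of_injOn (t := ({a, b, nbr Φ r k a, nbr Φ r k b} : Finset V))
        (wact (nbr Φ r) l) (fun v hv => ?_)
        ((wact_inj Φ hΦ r l).injOn)).trans Finset.card_le_four
      exact (mem_filter.1 hv).2
    refine (card_le_card hsub).trans ((card_union_le _ _).trans ?_)
    rw [List.length_cons]
    omega


/-- The number of starting points in `P` whose walk ends in `Q`. -/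
theorem count_lip (Φ : K → V → V) (hΦ : ∀ k v, Φ k (Φ k v) = v) (r : Rout K V C cl) (l : List K)
    (k : K) (a b : V) (h : cl a = cl b) (P Q : V → Prop) [DecidablePred P] [DecidablePred Q] :
    |((univ.filter (fun v => P v ∧ Q (wact (nbr Φ (r.sw k a b)) l v))).card : ℝ) -
      ((univ.filter (fun v => P v ∧ Q (wact (nbr Φ r) l v))).card : ℝ)| ≤ 4 * l.length := by
  have hD := card_differ Φ hΦ r l k a b h
  have h1 : (univ.filter (fun v => P v ∧ Q (wact (nbr Φ (r.sw k a b)) l v))) ⊆
      (univ.filter (fun v => P v ∧ Q (wact (nbr Φ r) l v))) ∪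
      (univ.filter (fun v => wact (nbr Φ (r.sw k a b)) l v ≠ wact (nbr Φ r) l v)) := by
    intro v hv
    rw [mem_filter] at hv
    rw [mem_union, mem_filter, mem_filter]
    by_cases h3 : wact (nbr Φ (r.sw k a b)) l v = wact (nbr Φ r) l v
    · left
      rw [h3] at hv
      exact hv
    · right
      exact ⟨mem_univ _, h3⟩
  have h2 : (univ.filter (fun v => P v ∧ Q (wact (nbr Φ r) l v))) ⊆
      (univ.filter (fun v => P v ∧ Q (wact (nbr Φ (r.sw k a b)) l v))) ∪
      (univ.filter (fun v => wact (nbr Φ (r.sw k a b)) l v ≠ wact (nbr Φ r) l v)) := by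
    intro v hv
    rw [mem_filter] at hv
    rw [mem_union, mem_filter, mem_filter]
    by_cases h3 : wact (nbr Φ (r.sw k a b)) l v = wact (nbr Φ r) l v
    · left
      rw [h3]
      exact hv
    · right
      exact ⟨mem_univ _, h3⟩
  have c1 := (card_le_card h1).trans (card_union_le _ _)
  have c2 := (card_le_card h2).trans (card_union_le _ _)
  have d1 : ((univ.filter (fun v => P v ∧ Q (wact (nbr Φ (r.sw k a b)) l v))).card : ℝ) ≤
      ((univ.filter (fun v => P v ∧ Q (wact (nbr Φ r) l v))).card : ℝ) + 4 * l.length := by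
    exact_mod_cast c1.trans (Nat.add_le_add_left hD _)
  have d2 : ((univ.filter (fun v => P v ∧ Q (wact (nbr Φ r) l v))).card : ℝ) ≤
      ((univ.filter (fun v => P v ∧ Q (wact (nbr Φ (r.sw k a b)) l v))).card : ℝ) +
        4 * l.length := by
    exact_mod_cast c2.trans (Nat.add_le_add_left hD _)
  rw [abs_le]
  constructor <;> linarith

end Pool.Agent.CovT
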