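import Mathlib
import Pool.Agent.Lib.CovT.ConcR
import Pool.Agent.Lib.CovT.ExpectW
import Pool.Agent.Lib.CovT.LipW

/-!
# CovT.LLN (1.8 h): word independence of the distribution of the nodes

`node : V → D` is a function of the cloud, `q` the transition matrix of the nodes along any colour:
the number of `v'` in the cloud of `v` with `node (Φ k v') = u'` is `|cloud| * q (node v) u'`.
`qpow q i` are the powers of `q`.

Fix `l ∈ words K m` and `A B : Finset D`. `Z r = #{v | node v ∈ A, node (wact (nbr Φ r) l v) ∈ B}`.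
Mean: `walk_expect` with `f i v = ∑ b ∈ B, qpow q i (node v) b` summed over `v` with `node v ∈ A`:
`mean ≤ ∑ a ∈ A, ∑ b ∈ B, #{v | node v = a} * qpow q m a b + |V| * 2 m³ / (T - m)`, and the error is
at most `ε |V| / 2` by `hT2`. Then `conc` with `c = 4 m`, `x = ε |V| / 2` (`count_lip`), and the union
over at most `|K|^m` words and `2^|D| * 2^|D|` pairs of sets.
Note: rows of `q` for `u` outside the range of `node` are irrelevant for the counting but `hq1` is
assumed for all rows to keep the statement simple; `0 ≤ qpow`, rows of `qpow` sum to `1`.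
-/

open Finset

namespace Pool.Agent.CovT

open Pool.Agent.P325f1f.Dich

/-- The powers of a matrix. -/
def qpow {D : Type} [Fintype D] [DecidableEq D] (q : D → D → ℝ) : ℕ → D → D → ℝ
  | 0 => fun a b => if a = b then 1 else 0
  | i + 1 => fun a b => ∑ c, q a c * qpow q i c b

theorem qpow_nonneg {D : Type} [Fintype D] [DecidableEq D] (q : D → D → ℝ)
    (h0 : ∀ a b, 0 ≤ q a b) (i : ℕ) (a b : D) : 0 ≤ qpow q i a b := by
  induction i generalizing a b with
  | zero =>
    show (0 : ℝ) ≤ if a = b then 1 else 0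
    split_ifs <;> norm_num
  | succ i ih =>
    show 0 ≤ ∑ c, q a c * qpow q i c b
    exact Finset.sum_nonneg (fun c _ => mul_nonneg (h0 a c) (ih c b))

theorem qpow_sum {D : Type} [Fintype D] [DecidableEq D] (q : D → D → ℝ)
    (h1 : ∀ a, ∑ b, q a b = 1) (i : ℕ) (a : D) : ∑ b, qpow q i a b = 1 := by
  induction i generalizing a with
  | zero =>
    show ∑ b, (if a = b then (1 : ℝ) else 0) = 1
    rw [Finset.sum_ite_eq, if_pos (mem_univ _)]
  | succ i ih =>
    show ∑ b, ∑ c, q a c * qpow q i c b = 1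
    rw [Finset.sum_comm]
    have h2 : ∀ c, ∑ b, q a c * qpow q i c b = q a c := by
      intro c
      rw [← Finset.mul_sum, ih, mul_one]
    rw [Finset.sum_congr rfl (fun c _ => h2 c), h1]

namespace LLNAux

/-- The functions of the clouds. -/
def ff {V D : Type} [Fintype D] [DecidableEq D] (q : D → D → ℝ) (node : V → D) (B : Finset D)
    (i : ℕ) (v : V) : ℝ := ∑ b ∈ B, qpow q i (node v) b

theorem ff_nonneg {V D : Type} [Fintype D] [DecidableEq D] (q : D → D → ℝ) (node : V → D)
    (B : Finset D) (h0 : ∀ a b, 0 ≤ q a b) (i : ℕ) (v : V) : 0 ≤ ff q node B i v :=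
  Finset.sum_nonneg (fun b _ => qpow_nonneg q h0 i _ b)

theorem ff_le {V D : Type} [Fintype D] [DecidableEq D] (q : D → D → ℝ) (node : V → D)
    (B : Finset D) (h0 : ∀ a b, 0 ≤ q a b) (h1 : ∀ a, ∑ b, q a b = 1) (i : ℕ) (v : V) :
    ff q node B i v ≤ 1 := by
  rw [← qpow_sum q h1 i (node v)]
  exact Finset.sum_le_sum_of_subset_of_nonneg (Finset.subset_univ _)
    (fun b _ _ => qpow_nonneg q h0 i _ b)

theorem ff_zero {V D : Type} [Fintype D] [DecidableEq D] (q : D → D → ℝ) (node : V → D)
    (B : Finset D) (v : V) : ff q node B 0 v = if node v ∈ B then 1 else 0 := by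
  show ∑ b ∈ B, (if node v = b then (1 : ℝ) else 0) = _
  rw [Finset.sum_ite_eq]

theorem ff_step {K V C D : Type} [Fintype V] [Fintype D] [DecidableEq V]
    [DecidableEq C] [DecidableEq D] (cl : V → C) (Φ : K → V → V)
    (node : V → D) (q : D → D → ℝ) (B : Finset D)
    (hq : ∀ k v u, ((univ.filter (fun v' => cl v' = cl v ∧ node (Φ k v') = u)).card : ℝ) =
      (univ.filter (fun v' => cl v' = cl v)).card * q (node v) u) (i : ℕ) (k : K) (v : V) :
    ∑ v' ∈ univ.filter (fun v' => cl v' = cl v), ff q node B i (Φ k v') =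
      (univ.filter (fun v' => cl v' = cl v)).card * ff q node B (i + 1) v := by
  have h1 : ∀ v', ff q node B i (Φ k v') = ∑ u, (if node (Φ k v') = u then
      ∑ b ∈ B, qpow q i u b else 0) := by
    intro v'
    rw [Finset.sum_ite_eq, if_pos (mem_univ _), ff]
  rw [Finset.sum_congr rfl (fun v' _ => h1 v'), Finset.sum_comm]
  have h2 : ∀ u, ∑ v' ∈ univ.filter (fun v' => cl v' = cl v), (if node (Φ k v') = u then
      ∑ b ∈ B, qpow q i u b else 0) =
      ((univ.filter (fun v' => cl v' = cl v)).card * q (node v) u) * ∑ b ∈ B, qpow q i u b := by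
    intro u
    rw [← hq k v u, ← Finset.sum_filter, Finset.sum_const, nsmul_eq_mul, Finset.filter_filter]
  rw [Finset.sum_congr rfl (fun u _ => h2 u), ff]
  have h3 : ∀ b, qpow q (i + 1) (node v) b = ∑ c, q (node v) c * qpow q i c b := fun b => rfl
  rw [Finset.sum_congr rfl (fun b _ => h3 b), Finset.sum_comm, Finset.mul_sum]
  refine Finset.sum_congr rfl (fun u _ => ?_)
  rw [← Finset.mul_sum]
  ring

open Classical in
/-- One word and one pair of sets. -/
theorem lln_one {K V C D : Type} [Fintype K] [Fintype V] [Fintype D] [DecidableEq K] [DecidableEq V]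
    [DecidableEq C] [DecidableEq D] (cl : V → C) (Φ : K → V → V) (hΦ : ∀ k v, Φ k (Φ k v) = v)
    (hΦ' : ∀ k v, Φ k v ≠ v) (T : ℕ)
    (hT : ∀ v, T ≤ (univ.filter (fun v' => cl v' = cl v)).card)
    (node : V → D) (hnode : ∀ v v', cl v = cl v' → node v = node v') (q : D → D → ℝ)
    (hq0 : ∀ a b, 0 ≤ q a b) (hq1 : ∀ a, ∑ b, q a b = 1)
    (hq : ∀ k v u, ((univ.filter (fun v' => cl v' = cl v ∧ node (Φ k v') = u)).card : ℝ) =
      (univ.filter (fun v' => cl v' = cl v)).card * q (node v) u)
    (m : ℕ) (hm : 1 ≤ m) (hmT : m < T) (ε : ℝ) (hε : 0 < ε)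
    (hT2 : 2 * (m : ℝ) ^ 3 / (T - m) ≤ ε / 2) (l : List K) (hl : l ∈ words K m)
    (A B : Finset D) :
    ((univ.filter (fun r : Rout K V C cl =>
      (∑ a ∈ A, ∑ b ∈ B, (univ.filter (fun v => node v = a)).card * qpow q m a b) +
        ε * Fintype.card V <
      ((univ.filter (fun v => node v ∈ A ∧ node (wact (nbr Φ r) l v) ∈ B)).card : ℝ))).card : ℝ) ≤
      Real.exp (-(ε ^ 2 * Fintype.card V / (1024 * m ^ 2 * Fintype.card K))) *
      Fintype.card (Rout K V C cl) := by
  obtain ⟨hlen, hred⟩ := (mem_words m l).1 hl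
  set Z : Rout K V C cl → ℝ := fun r =>
    ((univ.filter (fun v => node v ∈ A ∧ node (wact (nbr Φ r) l v) ∈ B)).card : ℝ) with hZ
  set E : ℝ := ∑ a ∈ A, ∑ b ∈ B, (univ.filter (fun v => node v = a)).card * qpow q m a b with hE
  have hR : (0 : ℝ) ≤ Fintype.card (Rout K V C cl) := Nat.cast_nonneg _
  have hV : (0 : ℝ) ≤ Fintype.card V := Nat.cast_nonneg _
  have hm0 : (0 : ℝ) < m := by exact_mod_cast hm
  -- the mean
  have hmean : ∑ r, Z r ≤ (E + ε / 2 * Fintype.card V) * Fintype.card (Rout K V C cl) := by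
    have h1 : ∀ r, Z r = ∑ v ∈ univ.filter (fun v => node v ∈ A),
        ff q node B 0 (wact (nbr Φ r) l v) := by
      intro r
      show ((univ.filter (fun v => node v ∈ A ∧ node (wact (nbr Φ r) l v) ∈ B)).card : ℝ) = _
      rw [← Finset.filter_filter, Finset.card_filter]
      push_cast
      refine Finset.sum_congr rfl (fun v _ => ?_)
      rw [ff_zero]
    rw [Finset.sum_congr rfl (fun r _ => h1 r), Finset.sum_comm]
    have h2 : ∀ v, ∑ r : Rout K V C cl, ff q node B 0 (wact (nbr Φ r) l v) ≤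
        (ff q node B m v + ε / 2) * Fintype.card (Rout K V C cl) := by
      intro v
      have h3 := walk_expect (cl := cl) Φ hΦ hΦ' T hT l v hred (by rw [hlen]; exact hmT)
        (ff q node B) (fun i v => ⟨ff_nonneg q node B hq0 i v, ff_le q node B hq0 hq1 i v⟩)
        (fun i v v' h => by rw [ff, ff, hnode v v' h]) (ff_step cl Φ node q B hq)
      rw [hlen] at h3
      refine h3.trans (mul_le_mul_of_nonneg_right ?_ hR)
      linarith
    refine (Finset.sum_le_sum (fun v _ => h2 v)).trans ?_
    rw [← Finset.sum_mul, Finset.sum_add_distrib, Finset.sum_const, nsmul_eq_mul]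
    refine mul_le_mul_of_nonneg_right ?_ hR
    have h4 : ∑ v ∈ univ.filter (fun v => node v ∈ A), ff q node B m v = E := by
      rw [hE, ← Finset.sum_fiberwise_of_maps_to (s := univ.filter (fun v => node v ∈ A)) (t := A)
        (g := node) (fun v hv => (mem_filter.1 hv).2)]
      refine Finset.sum_congr rfl (fun a ha => ?_)
      have h5 : (univ.filter (fun v => node v ∈ A)).filter (fun v => node v = a) =
          univ.filter (fun v => node v = a) := by
        ext v
        simp only [mem_filter, mem_univ, true_and]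
        constructor
        · exact fun h => h.2
        · intro h
          exact ⟨by rw [h]; exact ha, h⟩
      rw [h5]
      have h6 : ∀ v ∈ univ.filter (fun v => node v = a), ff q node B m v =
          ∑ b ∈ B, qpow q m a b := by
        intro v hv
        rw [ff, (mem_filter.1 hv).2]
      rw [Finset.sum_congr rfl h6, Finset.sum_const, nsmul_eq_mul, Finset.mul_sum]
    rw [h4]
    have h7 : ((univ.filter (fun v => node v ∈ A)).card : ℝ) ≤ Fintype.card V := by
      exact_mod_cast Finset.card_le_univ _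
    have h8 : ((univ.filter (fun v => node v ∈ A)).card : ℝ) * (ε / 2) ≤
        Fintype.card V * (ε / 2) := mul_le_mul_of_nonneg_right h7 (by positivity)
    linarith
  -- concentration
  have hlip : ∀ (r : Rout K V C cl) (k : K) (a b : V), cl a = cl b →
      |Z (r.sw k a b) - Z r| ≤ 4 * m := by
    intro r k a b h
    have h1 := count_lip Φ hΦ r l k a b h (fun v => node v ∈ A) (fun v => node v ∈ B)
    rw [hlen] at h1
    refine le_trans (le_of_eq ?_) h1
    simp only [hZ]
  have hc := conc cl Z (4 * m) (by positivity) hlip _ hmean (ε / 2 * Fintype.card V)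
    (by positivity)
  have hexp : (ε / 2 * (Fintype.card V : ℝ)) ^ 2 / (16 * (4 * (m : ℝ)) ^ 2 *
      (Fintype.card K * Fintype.card V)) =
      ε ^ 2 * Fintype.card V / (1024 * m ^ 2 * Fintype.card K) := by
    rcases eq_or_lt_of_le hV with h | h
    · rw [← h]
      simp
    · rcases eq_or_lt_of_le (Nat.cast_nonneg (α := ℝ) (Fintype.card K)) with h' | h'
      · rw [← h']
        simp
      · field_simp
        ring
  rw [hexp] at hc
  refine le_trans ?_ hc
  refine Nat.cast_le.2 (Finset.card_le_card ?_)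
  intro r hr
  rw [mem_filter] at hr ⊢
  refine ⟨mem_univ _, ?_⟩
  have h1 : E + ε * Fintype.card V < Z r := hr.2
  linarith

end LLNAux

open Classical in
theorem lln {K V C D : Type} [Fintype K] [Fintype V] [Fintype D] [DecidableEq K] [DecidableEq V]
    [DecidableEq C] [DecidableEq D] (cl : V → C) (Φ : K → V → V) (hΦ : ∀ k v, Φ k (Φ k v) = v)
    (hΦ' : ∀ k v, Φ k v ≠ v) (T : ℕ)
    (hT : ∀ v, T ≤ (univ.filter (fun v' => cl v' = cl v)).card)
    (node : V → D) (hnode : ∀ v v', cl v = cl v' → node v = node v') (q : D → D → ℝ)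
    (hq0 : ∀ a b, 0 ≤ q a b) (hq1 : ∀ a, ∑ b, q a b = 1)
    (hq : ∀ k v u, ((univ.filter (fun v' => cl v' = cl v ∧ node (Φ k v') = u)).card : ℝ) =
      (univ.filter (fun v' => cl v' = cl v)).card * q (node v) u)
    (m : ℕ) (hm : 1 ≤ m) (hmT : m < T) (ε : ℝ) (hε : 0 < ε)
    (hT2 : 2 * (m : ℝ) ^ 3 / (T - m) ≤ ε / 2) :
    ((univ.filter (fun r : Rout K V C cl => ∃ l ∈ words K m, ∃ A B : Finset D,
      (∑ a ∈ A, ∑ b ∈ B, (univ.filter (fun v => node v = a)).card * qpow q m a b) +
        ε * Fintype.card V <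
      ((univ.filter (fun v => node v ∈ A ∧ node (wact (nbr Φ r) l v) ∈ B)).card : ℝ))).card : ℝ) ≤
    (Fintype.card K : ℝ) ^ m * 4 ^ Fintype.card D *
      Real.exp (-(ε ^ 2 * Fintype.card V / (1024 * m ^ 2 * Fintype.card K))) *
      Fintype.card (Rout K V C cl) := by
  set X : ℝ := Real.exp (-(ε ^ 2 * Fintype.card V / (1024 * m ^ 2 * Fintype.card K))) *
      Fintype.card (Rout K V C cl) with hX
  have hX0 : 0 ≤ X := by positivity
  have hsub : (univ.filter (fun r : Rout K V C cl => ∃ l ∈ words K m, ∃ A B : Finset D,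
      (∑ a ∈ A, ∑ b ∈ B, (univ.filter (fun v => node v = a)).card * qpow q m a b) +
        ε * Fintype.card V <
      ((univ.filter (fun v => node v ∈ A ∧ node (wact (nbr Φ r) l v) ∈ B)).card : ℝ))) ⊆
      ((words K m) ×ˢ (univ : Finset (Finset D × Finset D))).biUnion (fun p =>
        univ.filter (fun r : Rout K V C cl =>
      (∑ a ∈ p.2.1, ∑ b ∈ p.2.2, (univ.filter (fun v => node v = a)).card * qpow q m a b) +
        ε * Fintype.card V <
      ((univ.filter (fun v => node v ∈ p.2.1 ∧
        node (wact (nbr Φ r) p.1 v) ∈ p.2.2)).card : ℝ))) := by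
    intro r hr
    rw [mem_filter] at hr
    obtain ⟨-, l, hl, A, B, h⟩ := hr
    rw [mem_biUnion]
    exact ⟨(l, A, B), mem_product.2 ⟨hl, mem_univ _⟩, mem_filter.2 ⟨mem_univ _, h⟩⟩
  have h1 : ((univ.filter (fun r : Rout K V C cl => ∃ l ∈ words K m, ∃ A B : Finset D,
      (∑ a ∈ A, ∑ b ∈ B, (univ.filter (fun v => node v = a)).card * qpow q m a b) +
        ε * Fintype.card V <
      ((univ.filter (fun v => node v ∈ A ∧ node (wact (nbr Φ r) l v) ∈ B)).card : ℝ))).card : ℝ) ≤
      ∑ p ∈ (words K m) ×ˢ (univ : Finset (Finset D × Finset D)),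
        ((univ.filter (fun r : Rout K V C cl =>
      (∑ a ∈ p.2.1, ∑ b ∈ p.2.2, (univ.filter (fun v => node v = a)).card * qpow q m a b) +
        ε * Fintype.card V <
      ((univ.filter (fun v => node v ∈ p.2.1 ∧
        node (wact (nbr Φ r) p.1 v) ∈ p.2.2)).card : ℝ))).card : ℝ) := by
    rw [← Nat.cast_sum]
    exact Nat.cast_le.2 ((card_le_card hsub).trans card_biUnion_le)
  refine h1.trans ?_
  have h2 : ∀ p ∈ (words K m) ×ˢ (univ : Finset (Finset D × Finset D)),
        ((univ.filter (fun r : Rout K V C cl =>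
      (∑ a ∈ p.2.1, ∑ b ∈ p.2.2, (univ.filter (fun v => node v = a)).card * qpow q m a b) +
        ε * Fintype.card V <
      ((univ.filter (fun v => node v ∈ p.2.1 ∧
        node (wact (nbr Φ r) p.1 v) ∈ p.2.2)).card : ℝ))).card : ℝ) ≤ X := by
    intro p hp
    exact LLNAux.lln_one cl Φ hΦ hΦ' T hT node hnode q hq0 hq1 hq m hm hmT ε hε hT2 p.1
      (mem_product.1 hp).1 p.2.1 p.2.2
  refine (Finset.sum_le_sum h2).trans ?_
  rw [Finset.sum_const, nsmul_eq_mul, card_product, card_univ, Fintype.card_prod,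
    Fintype.card_finset]
  push_cast
  have h3 : ((words K m).card : ℝ) ≤ (Fintype.card K : ℝ) ^ m := by
    exact_mod_cast card_words_le (K := K) m
  have h4 : (2 : ℝ) ^ Fintype.card D * 2 ^ Fintype.card D = 4 ^ Fintype.card D := by
    rw [← mul_pow]
    norm_num
  rw [h4]
  calc ((words K m).card : ℝ) * 4 ^ Fintype.card D * X ≤
      (Fintype.card K : ℝ) ^ m * 4 ^ Fintype.card D * X := by
        refine mul_le_mul_of_nonneg_right ?_ hX0
        exact mul_le_mul_of_nonneg_right h3 (by positivity)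
    _ = _ := by rw [hX]; ring

end Pool.Agent.CovT
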