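import Mathlib
import Pool.Agent.Lib.P325d.Layer

/-!
# CovT.LayerT (1 h): the layer lemma with a count below the level `W0`

Step 1: `∑ j ∈ s, max (W0 - M j) 0 ≤ ∑ x ∈ t, max (W0 - w x) 0 + B * W0`. Indeed
`max (W0 - a) 0 = ∫ W in 0..W0, (if a ≤ W then 1 else 0)` for `a ≥ 0`, and `h2` (integrate the finite
sum over `[0, W0]`); or by induction on the values.
Step 2: apply `P325d.layer` to `M' j = max (M j) W0`, `w' x = max (w x) W0` and the constant
`A + B * W0`: for `W ≥ W0` the sum of `M'` over `M' j ≤ W` is the sum of `M` over `M j ≤ W` plus the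
sum of `max (W0 - M j) 0` over all `j`, the same for `w'`, then `h1` and Step 1.
-/

open Finset

namespace Pool.Agent.CovT

theorem ind_integrable (W0 a : ℝ) :
    MeasureTheory.IntegrableOn (fun W : ℝ => if a ≤ W then (1 : ℝ) else 0) (Set.Ioc 0 W0) := by
  have h0 : (fun W : ℝ => if a ≤ W then (1 : ℝ) else 0) = (Set.Ici a).indicator fun _ => 1 := by
    funext W
    simp [Set.indicator, Set.mem_Ici]
  rw [h0]
  have h1 : MeasureTheory.IntegrableOn (fun _ : ℝ => (1 : ℝ)) (Set.Ioc 0 W0) := by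
    have hs : MeasureTheory.volume (Set.Ioc 0 W0) ≠ ⊤ := by
      rw [Real.volume_Ioc]
      exact ENNReal.ofReal_ne_top
    have hC : ‖(1 : ℝ)‖ₑ ≠ ⊤ := by simp
    exact MeasureTheory.integrableOn_const hs hC
  exact h1.indicator measurableSet_Ici

theorem ind_integral {W0 a : ℝ} (ha : 0 ≤ a) :
    ∫ W in Set.Ioc 0 W0, (if a ≤ W then (1 : ℝ) else 0) = max (W0 - a) 0 := by
  have h0 : (fun W : ℝ => if a ≤ W then (1 : ℝ) else 0) = (Set.Ici a).indicator fun _ => 1 := by
    funext W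
    simp [Set.indicator, Set.mem_Ici]
  rw [h0, MeasureTheory.setIntegral_indicator measurableSet_Ici, MeasureTheory.setIntegral_const,
    smul_eq_mul, mul_one]
  rcases ha.eq_or_lt with h | h
  · subst h
    have h1 : Set.Ioc 0 W0 ∩ Set.Ici 0 = Set.Ioc 0 W0 := by
      ext x
      simp only [Set.mem_inter_iff, Set.mem_Ioc, Set.mem_Ici]
      constructor
      · exact fun h => h.1
      · exact fun h => ⟨h, h.1.le⟩
    rw [h1, Real.volume_real_Ioc]
  · have h1 : Set.Ioc 0 W0 ∩ Set.Ici a = Set.Icc a W0 := by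
      ext x
      simp only [Set.mem_inter_iff, Set.mem_Ioc, Set.mem_Ici, Set.mem_Icc]
      constructor
      · exact fun h => ⟨h.2, h.1.2⟩
      · exact fun h' => ⟨⟨h.trans_le h'.1, h'.2⟩, h'.1⟩
    rw [h1, Real.volume_real_Icc]

theorem card_integral {J : Type} (s : Finset J) (M : J → ℝ) (W0 : ℝ) (hM : ∀ j ∈ s, 0 ≤ M j) :
    ∫ W in Set.Ioc 0 W0, (((s.filter (fun j => M j ≤ W)).card : ℝ)) =
      ∑ j ∈ s, max (W0 - M j) 0 := by
  have h0 : (fun W : ℝ => (((s.filter (fun j => M j ≤ W)).card : ℝ))) =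
      fun W => ∑ j ∈ s, if M j ≤ W then (1 : ℝ) else 0 := by
    funext W
    rw [Finset.card_filter]
    push_cast
    rfl
  rw [h0, MeasureTheory.integral_finset_sum s fun j _ => ind_integrable W0 (M j)]
  exact Finset.sum_congr rfl fun j hj => ind_integral (hM j hj)

theorem card_integrable {J : Type} (s : Finset J) (M : J → ℝ) (W0 : ℝ) :
    MeasureTheory.IntegrableOn (fun W : ℝ => (((s.filter (fun j => M j ≤ W)).card : ℝ)))
      (Set.Ioc 0 W0) := by
  have h0 : (fun W : ℝ => (((s.filter (fun j => M j ≤ W)).card : ℝ))) =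
      fun W => ∑ j ∈ s, if M j ≤ W then (1 : ℝ) else 0 := by
    funext W
    rw [Finset.card_filter]
    push_cast
    rfl
  rw [h0]
  exact MeasureTheory.integrable_finset_sum s fun j _ => ind_integrable W0 (M j)

theorem step_one {J X : Type} (s : Finset J) (t : Finset X) (M : J → ℝ) (w : X → ℝ) (W0 B : ℝ)
    (hW0 : 0 < W0) (hM : ∀ j ∈ s, 0 ≤ M j) (hw : ∀ x ∈ t, 0 ≤ w x)
    (h2 : ∀ W, 0 ≤ W → W ≤ W0 →
      ((s.filter (fun j => M j ≤ W)).card : ℝ) ≤ (t.filter (fun x => w x ≤ W)).card + B) :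
    ∑ j ∈ s, max (W0 - M j) 0 ≤ ∑ x ∈ t, max (W0 - w x) 0 + B * W0 := by
  rw [← card_integral s M W0 hM, ← card_integral t w W0 hw]
  have hs : MeasureTheory.volume (Set.Ioc 0 W0) ≠ ⊤ := by
    rw [Real.volume_Ioc]
    exact ENNReal.ofReal_ne_top
  have hC : ‖B‖ₑ ≠ ⊤ := by simp
  have hB : MeasureTheory.IntegrableOn (fun _ : ℝ => B) (Set.Ioc 0 W0) :=
    MeasureTheory.integrableOn_const hs hC
  have h3 : B * W0 = ∫ W in Set.Ioc 0 W0, B := by
    rw [MeasureTheory.setIntegral_const, Real.volume_real_Ioc, smul_eq_mul, sub_zero,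
      max_eq_left hW0.le, mul_comm]
  rw [h3, ← MeasureTheory.integral_add (card_integrable t w W0) hB]
  refine MeasureTheory.setIntegral_mono_on (card_integrable s M W0)
    ((card_integrable t w W0).add hB) measurableSet_Ioc ?_
  intro W hW
  exact h2 W hW.1.le hW.2

theorem max_sum {J : Type} (s : Finset J) (M : J → ℝ) (W0 W : ℝ) (hW : W0 ≤ W) :
    (∑ j ∈ s with max (M j) W0 ≤ W, max (M j) W0) =
      (∑ j ∈ s with M j ≤ W, M j) + ∑ j ∈ s, max (W0 - M j) 0 := by
  rw [Finset.sum_filter, Finset.sum_filter, ← Finset.sum_add_distrib]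
  refine Finset.sum_congr rfl fun j _ => ?_
  by_cases h : M j ≤ W
  · rw [if_pos (max_le h hW), if_pos h]
    rcases le_total (M j) W0 with h1 | h1
    · rw [max_eq_right h1, max_eq_left (sub_nonneg.2 h1)]
      ring
    · rw [max_eq_left h1, max_eq_right (sub_nonpos.2 h1), add_zero]
  · rw [if_neg, if_neg h, zero_add, max_eq_right]
    · push Not at h
      linarith
    · intro h1
      exact h ((le_max_left _ _).trans h1)

theorem layer2 {J X : Type} (s : Finset J) (t : Finset X) (M : J → ℝ) (w : X → ℝ) (W0 A B : ℝ)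
    (hW0 : 0 < W0) (hM : ∀ j ∈ s, 0 ≤ M j) (hw : ∀ x ∈ t, 0 ≤ w x) (hA : 0 ≤ A) (hB : 0 ≤ B)
    (h1 : ∀ W, W0 ≤ W → (∑ j ∈ s with M j ≤ W, M j) ≤ (∑ x ∈ t with w x ≤ W, w x) + A)
    (h2 : ∀ W, 0 ≤ W → W ≤ W0 →
      ((s.filter (fun j => M j ≤ W)).card : ℝ) ≤ (t.filter (fun x => w x ≤ W)).card + B) :
    (s.card : ℝ) ≤ t.card + A / W0 + B := by
  have h3 := step_one s t M w W0 B hW0 hM hw h2
  have h4 := Pool.Agent.P325d.layer s t (fun j => max (M j) W0) (fun x => max (w x) W0) W0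
    (A + B * W0) hW0 (fun j _ => le_max_right _ _) (by positivity) (by
      intro W hW
      rw [max_sum s M W0 W hW, max_sum t w W0 W hW]
      have := h1 W hW
      linarith)
  have h5 : (A + B * W0) / W0 = A / W0 + B := by
    field_simp
  rw [h5] at h4
  linarith

end Pool.Agent.CovT
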