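import Mathlib
import Pool.Agent.Lib.CovT.SoundT
import Pool.Agent.Lib.CovT.LayerT

/-!
# CovT.SoundA (1.2 h): the number of satisfied edges

`layer2` with `s = satE`, `M = ew`, `t = univ : Finset ((PL × H) ⊕ (PR × H))`,
`w = Sum.elim (cw ..) (cw ..)`, `A = Kc + (|PL| + |PR|) |H|` (`first`), `B = κ |H| + 2 L`,
`L = (Kc + (|PL| + |PR|) |H| (W0 + 1)) / log (1 + 1/δ)`. For `h2` with `0 ≤ W ≤ W0`: a satisfied edge
with `ew ≤ W` either has no light label (`hheavy`) or a light label on the left or on the right: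
these are at most `L` each by `second` with `kL p c a := lightL p c a ∧ (weight of a in c) ≤ W0`,
`kR p c a := (weight) ≤ W0` (weight `= - log (freq (cs cl _) (x p) c a)`), resp. exchanged; the density
hypothesis of `second` is `hdL`, resp. `hdR`.
-/

open Finset

namespace Pool.Agent.CovT

open Pool.Agent.P325f1f.Dich Pool.Agent.P325d

theorem absf {α : Type} (S : Finset α) (P : α → Prop) (inst : DecidablePred P) (b : ℝ)
    (h : ((@Finset.filter α P inst S).card : ℝ) ≤ b) :
    ∃ T : Finset α, (∀ q, q ∈ S → P q → q ∈ T) ∧ (T.card : ℝ) ≤ b :=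
  ⟨_, fun _ h1 h2 => mem_filter.2 ⟨h1, h2⟩, h⟩

open Classical in
theorem sound_abs {K H C Ω PL PR : Type} [Fintype K] [Fintype H] [Fintype Ω] [Fintype PL]
    [Fintype PR] [Fintype C] [DecidableEq C] [DecidableEq Ω] [DecidableEq H]
    {cl : Bool × H → C} (hs : ∀ v v', cl v = cl v' → v.1 = v'.1)
    (s : K → PL) (d : K → PR) (σ : K → Equiv.Perm Ω) (φ : K → Equiv.Perm H) (Kc δ W0 κ : ℝ)
    (hKc : 0 ≤ Kc) (hδ : 0 < δ) (hW0 : 0 < W0) (hκ : 0 < κ)
    (r : Rout K (Bool × H) C cl) (hr : Good s d σ φ Kc δ r) (x : PL → H → Ω) (y : PR → H → Ω)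
    (lightL : PL → C → Ω → Prop) (lightR : PR → C → Ω → Prop)
    (hdL : ∀ (kL : PL → C → Ω → Prop) (kR : PR → C → Ω → Prop),
      (∀ p c a, kL p c a → lightL p c a) →
      dens cl s d σ φ (fun p => er (cs cl false) (kL p) (x p))
        (fun p => er (cs cl true) (kR p) (y p)) ≤ δ * (Fintype.card K * Fintype.card H))
    (hdR : ∀ (kL : PL → C → Ω → Prop) (kR : PR → C → Ω → Prop),
      (∀ p c a, kR p c a → lightR p c a) →
      dens cl s d σ φ (fun p => er (cs cl false) (kL p) (x p))
        (fun p => er (cs cl true) (kR p) (y p)) ≤ δ * (Fintype.card K * Fintype.card H))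
    (hheavy : ∀ W : ℝ, (((satE s d σ φ r x y).filter (fun q => ew s d φ r x y q ≤ W ∧
      ¬ lightL (s q.1) (cs cl false q.2) (x (s q.1) (half r q.1 false q.2)) ∧
      ¬ lightR (d q.1) (cs cl true (φ q.1 q.2)) (y (d q.1) (half r q.1 true (φ q.1 q.2))))).card : ℝ)
      ≤ ((univ.filter (fun v : PL × H => cw (cs cl false) (x v.1) v.2 ≤ W)).card : ℝ) +
        (univ.filter (fun v : PR × H => cw (cs cl true) (y v.1) v.2 ≤ W)).card +
        κ * Fintype.card H) :
    ((satE s d σ φ r x y).card : ℝ) ≤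
      (Fintype.card PL + Fintype.card PR) * Fintype.card H +
      (Kc + (Fintype.card PL + Fintype.card PR) * Fintype.card H) / W0 + κ * Fintype.card H +
      2 * ((Kc + (Fintype.card PL + Fintype.card PR) * Fintype.card H * (W0 + 1)) /
        Real.log (1 + 1 / δ)) := by
  have hlog : 0 < Real.log (1 + 1 / δ) := Real.log_pos (by
    have : 0 < 1 / δ := by positivity
    linarith)
  set X : ℝ := (Fintype.card PL + Fintype.card PR) * Fintype.card H with hX
  have hX0 : 0 ≤ X := by positivity
  set L : ℝ := (Kc + X * (W0 + 1)) / Real.log (1 + 1 / δ) with hL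
  have hL0 : 0 ≤ L := by positivity
  set wL : PL × H → ℝ := fun v => cw (cs cl false) (x v.1) v.2 with hwL
  set wR : PR × H → ℝ := fun v => cw (cs cl true) (y v.1) v.2 with hwR
  have hwL0 : ∀ v, 0 ≤ wL v := fun v => cw_nonneg _ _ _
  have hwR0 : ∀ v, 0 ≤ wR v := fun v => cw_nonneg _ _ _
  have hcardt : ((univ : Finset ((PL × H) ⊕ (PR × H))).card : ℝ) = X := by
    rw [card_univ, Fintype.card_sum, Fintype.card_prod, Fintype.card_prod, hX]
    push_cast
    ring
  have hmain := layer2 (satE s d σ φ r x y) (univ : Finset ((PL × H) ⊕ (PR × H)))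
    (ew s d φ r x y) (Sum.elim wL wR) W0 (Kc + X) (κ * Fintype.card H + 2 * L) hW0
    (fun j _ => (cw_nonneg _ _ _).trans (le_max_left _ _))
    (fun z _ => by
      rcases z with z | z
      · exact hwL0 z
      · exact hwR0 z)
    (by positivity) (by positivity) ?_ ?_
  · rw [hcardt] at hmain
    linarith
  · intro W _
    have h3 : ∑ c ∈ univ with Sum.elim wL wR c ≤ W, Sum.elim wL wR c =
        (∑ c ∈ univ with wL c ≤ W, wL c) + ∑ c ∈ univ with wR c ≤ W, wR c := by
      rw [sum_filter, sum_filter, sum_filter, Fintype.sum_sum_type]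
      simp only [Sum.elim_inl, Sum.elim_inr]
    rw [h3]
    exact first hs s d σ φ Kc δ r hr x y W
  · intro W _ hW
    have h3 : ((univ.filter (fun c => Sum.elim wL wR c ≤ W)).card : ℝ) =
        (univ.filter (fun c => wL c ≤ W)).card + (univ.filter (fun c => wR c ≤ W)).card := by
      rw [card_filter, card_filter, card_filter, Fintype.sum_sum_type]
      simp only [Sum.elim_inl, Sum.elim_inr]
      push_cast
      rfl
    rw [h3]
    have hclL : ∀ q : K × H, cs cl false (half r q.1 false q.2) = cs cl false q.2 :=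
      fun q => half_cl hs r q.1 false q.2
    have hclR : ∀ q : K × H, cs cl true (half r q.1 true (φ q.1 q.2)) = cs cl true (φ q.1 q.2) :=
      fun q => half_cl hs r q.1 true (φ q.1 q.2)
    obtain ⟨SA, hSA, hA⟩ := absf _ _ _ _ (hheavy W)
    set vL : PL → C → Ω → Prop := fun p c a => -Real.log (freq (cs cl false) (x p) c a) ≤ W0
      with hvL
    set vR : PR → C → Ω → Prop := fun p c a => -Real.log (freq (cs cl true) (y p) c a) ≤ W0
      with hvR
    have hvLw : ∀ p h, vL p (cs cl false h) (x p h) → cw (cs cl false) (x p) h ≤ W0 :=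
      fun p h hh => hh
    have hvRw : ∀ p h, vR p (cs cl true h) (y p h) → cw (cs cl true) (y p) h ≤ W0 :=
      fun p h hh => hh
    obtain ⟨SB, hSB, hB⟩ := absf _ _ _ _ (second hs s d σ φ Kc δ W0 hδ hW0.le r hr x y
      (fun p c a => lightL p c a ∧ vL p c a) vR (fun p h hh => hvLw p h hh.2) hvRw
      (hdL _ _ (fun p c a hh => hh.1)))
    obtain ⟨SC, hSC, hC⟩ := absf _ _ _ _ (second hs s d σ φ Kc δ W0 hδ hW0.le r hr x y
      vL (fun p c a => lightR p c a ∧ vR p c a) hvLw (fun p h hh => hvRw p h hh.2)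
      (hdR _ _ (fun p c a hh => hh.1)))
    have hsub : (satE s d σ φ r x y).filter (fun q => ew s d φ r x y q ≤ W) ⊆
        SA ∪ (SB ∪ SC) := by
      intro q hq
      obtain ⟨hq1, hq2⟩ := mem_filter.1 hq
      have hl : vL (s q.1) (cs cl false q.2) (x (s q.1) (half r q.1 false q.2)) := by
        have h4 : cw (cs cl false) (x (s q.1)) (half r q.1 false q.2) ≤ W0 :=
          (le_max_left _ _).trans (hq2.trans hW)
        unfold cw at h4
        rw [hclL q] at h4
        exact h4
      have hr' : vR (d q.1) (cs cl true (φ q.1 q.2)) (y (d q.1) (half r q.1 true (φ q.1 q.2))) := by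
        have h4 : cw (cs cl true) (y (d q.1)) (half r q.1 true (φ q.1 q.2)) ≤ W0 :=
          (le_max_right _ _).trans (hq2.trans hW)
        unfold cw at h4
        rw [hclR q] at h4
        exact h4
      by_cases h5 : lightL (s q.1) (cs cl false q.2) (x (s q.1) (half r q.1 false q.2))
      · exact mem_union_right _ (mem_union_left _ (hSB q hq1 ⟨⟨h5, hl⟩, hr'⟩))
      by_cases h6 : lightR (d q.1) (cs cl true (φ q.1 q.2)) (y (d q.1) (half r q.1 true (φ q.1 q.2)))
      · exact mem_union_right _ (mem_union_right _ (hSC q hq1 ⟨hl, ⟨h6, hr'⟩⟩))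
      · exact mem_union_left _ (hSA q hq1 ⟨hq2, h5, h6⟩)
    have hcard := (card_le_card hsub).trans ((card_union_le _ _).trans
      (Nat.add_le_add_left (card_union_le _ _) _))
    have hcard' : (((satE s d σ φ r x y).filter (fun q => ew s d φ r x y q ≤ W)).card : ℝ) ≤
        SA.card + (SB.card + SC.card) := by exact_mod_cast hcard
    have hA' : (SA.card : ℝ) ≤ (univ.filter (fun c => wL c ≤ W)).card +
          (univ.filter (fun c => wR c ≤ W)).card + κ * Fintype.card H := by
      convert hA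
    refine le_trans (le_of_eq ?_) (hcard'.trans ?_)
    · congr!
    · linarith

end Pool.Agent.CovT
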