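import Mathlib
import Pool.Agent.Lib.CovT.HHcount
import Pool.Agent.Lib.CovT.SoundA
import Pool.Agent.Lib.CovT.LLN

/-!
# Soundness for one instance and one good routing, abstract form
-/

open Finset

namespace Pool.Agent.CovT

open Pool.Agent.P325f1f.Dich Pool.Agent.P325d

open Classical in
theorem inst_abs {K H C D Ω PL PR : Type} [Fintype K] [Fintype H] [Fintype Ω] [Fintype PL]
    [Fintype PR] [Fintype D] [Fintype C] [DecidableEq K] [DecidableEq C] [DecidableEq Ω]
    [DecidableEq H] [DecidableEq D] [Nonempty H]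
    {cl : Bool × H → C} (hs : ∀ v v', cl v = cl v' → v.1 = v'.1)
    (s : K → PL) (d : K → PR) (σ : K → Equiv.Perm Ω) (hσ : ∀ k ω, σ k (σ k ω) = ω)
    (φ : K → Equiv.Perm H) (r : Rout K (Bool × H) C cl) (node : Bool × H → D)
    (Kc δ W0 κ R ε : ℝ) (hKc : 0 ≤ Kc) (hδ : 0 < δ) (hW0 : 0 < W0) (hκ : 0 < κ) (hε : 0 ≤ ε)
    (m : ℕ) (hred : ∀ l : List K, l ≠ [] → l.length ≤ 2 * (m + 1) → Red l →
      ∀ ω, wact (fun k ω => σ k ω) l ω ≠ ω)
    (hr : Good s d σ φ Kc δ r)
    (lt : Bool → (H → Ω) → C → Ω → Prop) (Ls : Bool → (H → Ω) → D → Finset Ω)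
    (hLs : ∀ b x u, ((Ls b x u).card : ℝ) ≤ R)
    (hlt : ∀ b x h a, ¬ lt b x (cl (b, h)) a → a ∈ Ls b x (node (b, h)))
    (hcl : ∀ v v', cl v = cl v' → node v = node v')
    (hM : ∀ (x : PL → H → Ω) (y : PR → H → Ω) (kL : PL → C → Ω → Prop) (kR : PR → C → Ω → Prop),
      ((∀ p c a, kL p c a → lt false (x p) c a) ∨ (∀ p c a, kR p c a → lt true (y p) c a)) →
      dens cl s d σ φ (fun p => er (cs cl false) (kL p) (x p))
        (fun p => er (cs cl true) (kR p) (y p)) ≤ δ * (Fintype.card K * Fintype.card H))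
    (hbig : ((Fintype.card PL : ℝ) + Fintype.card PR) ^ 2 * (R ^ 2 +
        (Fintype.card K : ℝ) ^ (m + 1) * Fintype.card Ω * ε) <
      κ * (2 : ℝ) ^ ((m : ℝ) * κ / Fintype.card K))
    (q : D → D → ℝ) (hq0 : ∀ a b, 0 ≤ q a b) (hq1 : ∀ a, ∑ b, q a b = 1)
    (hlln : ∀ l ∈ words K (m + 1), ∀ A B : Finset D,
      ((univ.filter (fun v => node v ∈ A ∧ node (wact (nbr (Phi φ) r) l v) ∈ B)).card : ℝ) ≤
        (∑ a ∈ A, ∑ b ∈ B, (univ.filter (fun v => node v = a)).card * qpow q (m + 1) a b) +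
        ε * Fintype.card (Bool × H))
    (x : PL → H → Ω) (y : PR → H → Ω) :
    ((satE s d σ φ r x y).card : ℝ) ≤
      (Fintype.card PL + Fintype.card PR) * Fintype.card H +
      (Kc + (Fintype.card PL + Fintype.card PR) * Fintype.card H) / W0 + κ * Fintype.card H +
      2 * ((Kc + (Fintype.card PL + Fintype.card PR) * Fintype.card H * (W0 + 1)) /
        Real.log (1 + 1 / δ)) := by
  have hn : (0 : ℝ) < Fintype.card H := by exact_mod_cast Fintype.card_pos
  have hVc : (Fintype.card (Bool × H) : ℝ) = 2 * Fintype.card H := by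
    rw [Fintype.card_prod, Fintype.card_bool]
    push_cast
    ring
  refine sound_abs (cl := cl) hs s d σ φ Kc δ W0 κ hKc hδ hW0 hκ r hr x y
    (fun p c a => lt false (x p) c a) (fun p c a => lt true (y p) c a)
    (fun kL kR hk => hM x y kL kR (Or.inl hk)) (fun kL kR hk => hM x y kL kR (Or.inr hk)) ?_
  intro Wt
  have h1 := hh_count (cl := cl) hs s d σ hσ φ r node m hred x y
    (fun p u => Ls false (x p) u) (fun p u => Ls true (y p) u) R
    (fun p u => hLs _ _ _) (fun p u => hLs _ _ _)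
    (fun a b => (univ.filter (fun v : Bool × H => node v = a)).card * qpow q (m + 1) a b)
    (fun a b => mul_nonneg (Nat.cast_nonneg _) (qpow_nonneg _ hq0 _ _ _))
    (by
      have h2 : ∀ a : D, ∑ b,
          ((univ.filter (fun v : Bool × H => node v = a)).card : ℝ) * qpow q (m + 1) a b =
          ((univ.filter (fun v : Bool × H => node v = a)).card : ℝ) := by
        intro a
        rw [← mul_sum, qpow_sum _ hq1, mul_one]
      rw [sum_congr rfl (fun a _ => h2 a), ← Nat.cast_sum,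
        ← Finset.card_eq_sum_card_fiberwise (f := fun v : Bool × H => node v)
          (s := univ) (t := univ) (fun _ _ => by simp), card_univ, hVc])
    (ε * Fintype.card (Bool × H)) (by positivity)
    hlln
    (fun p h => cw (cs cl false) (x p) h ≤ Wt) (fun p h => cw (cs cl true) (y p) h ≤ Wt) κ hκ
    (by
      rw [hVc]
      have h3 : ((Fintype.card PL : ℝ) + Fintype.card PR) ^ 2 * (R ^ 2 * (2 * Fintype.card H) +
          (Fintype.card K : ℝ) ^ (m + 1) * Fintype.card Ω * (ε * (2 * Fintype.card H))) =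
          (((Fintype.card PL : ℝ) + Fintype.card PR) ^ 2 * (R ^ 2 +
          (Fintype.card K : ℝ) ^ (m + 1) * Fintype.card Ω * ε)) * (2 * Fintype.card H) := by
        ring
      have h4 : 2 * κ * (Fintype.card H : ℝ) * (2 : ℝ) ^ ((m : ℝ) * κ / Fintype.card K) =
          (κ * (2 : ℝ) ^ ((m : ℝ) * κ / Fintype.card K)) * (2 * Fintype.card H) := by
        ring
      rw [h3, h4]
      exact mul_lt_mul_of_pos_right hbig (by positivity))
  refine le_trans ?_ h1
  norm_cast
  apply card_le_card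
  intro q hq
  rw [mem_filter] at hq ⊢
  obtain ⟨hq1, hq2, hq3, hq4⟩ := hq
  refine ⟨hq1, ⟨(le_max_left _ _).trans hq2, (le_max_right _ _).trans hq2⟩, ?_, ?_⟩
  · rw [hcl _ _ (half_cl hs r q.1 false q.2)]
    exact hlt _ _ _ _ hq3
  · rw [hcl _ _ (half_cl hs r q.1 true (φ q.1 q.2))]
    exact hlt _ _ _ _ hq4

end Pool.Agent.CovT
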