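import Mathlib
import Pool.Agent.Lib.CovT.Defs

/-!
# CovT.MixT (1.5 h): clouds and nodes of the slots

The node of a half-edge `(b, (e, x, s, i))` is the end `b` of the edge `e`; nodes are the vertices of
the instance with at least one edge. The cloud of `(b, (e, x, s, i))` consists of all
`(b, (e', x, s', i'))` with `endp b e' = endp b e`: its size is
`#{e' | endp b e' = endp b e} * |Λ → Fin t × Ω| * T`, in particular `≥ T` (`t ≥ 1`, `Ω` nonempty).
The base matching `Phi (fun k => carry (σ k) π) k` changes the side and keeps the edge `e`, so the node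
of the image of `(b, (e', ..))` is `endp (!b) e'`: among the elements of the cloud exactly
`#{e' | endp b e' = endp b e ∧ endp (!b) e' = u} * |Λ → Fin t × Ω| * T` have the image node `u`.
The side of a half-edge over the node `a` is determined by `a` (`Sum.inl` / `Sum.inr`), hence
`qT a u = #{(b, e) | endp b e = a, endp (!b) e = u} / #{(b, e) | endp b e = a}`.
-/

open Finset

namespace Pool.Agent.CovT

open Pool.Agent.P325f1f.Dich

variable {U W ι : Type}

/-- The end `b` of the edge `e`. -/
def endp (src : ι → U) (dst : ι → W) (b : Bool) (e : ι) : U ⊕ W :=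
  if b then Sum.inr (dst e) else Sum.inl (src e)

/-- The vertices with at least one edge. -/
abbrev Nd (src : ι → U) (dst : ι → W) : Type := {u : U ⊕ W // ∃ p : Bool × ι, endp src dst p.1 p.2 = u}

/-- The node of a half-edge. -/
def nodeT {Λ Ω : Type} {t T : ℕ} (src : ι → U) (dst : ι → W) (v : Bool × Slot ι Λ Ω t T) :
    Nd src dst := ⟨endp src dst v.1 v.2.1, ⟨(v.1, v.2.1), rfl⟩⟩

/-- The transition matrix of the nodes. -/
noncomputable def qT [Fintype ι] (src : ι → U) (dst : ι → W) (a u : Nd src dst) : ℝ := by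
  classical
  exact ((univ.filter (fun p : Bool × ι => endp src dst p.1 p.2 = a.1 ∧
      endp src dst (!p.1) p.2 = u.1)).card : ℝ) /
    (univ.filter (fun p : Bool × ι => endp src dst p.1 p.2 = a.1)).card

theorem qT_nonneg [Fintype ι] (src : ι → U) (dst : ι → W) (a u : Nd src dst) :
    0 ≤ qT src dst a u :=
  div_nonneg (Nat.cast_nonneg _) (Nat.cast_nonneg _)

noncomputable instance [Fintype ι] (src : ι → U) (dst : ι → W) : Fintype (Nd src dst) := by
  classical
  exact Fintype.ofSurjective (fun p : Bool × ι => (⟨endp src dst p.1 p.2, ⟨p, rfl⟩⟩ : Nd src dst))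
    (fun u => by
      obtain ⟨u, p, hp⟩ := u
      exact ⟨p, Subtype.ext hp⟩)

theorem card_Nd [Fintype ι] (src : ι → U) (dst : ι → W) :
    Fintype.card (Nd src dst) ≤ 2 * Fintype.card ι := by
  have h := Fintype.card_le_of_surjective
    (fun p : Bool × ι => (⟨endp src dst p.1 p.2, ⟨p, rfl⟩⟩ : Nd src dst))
    (fun u => by
      obtain ⟨u, p, hp⟩ := u
      exact ⟨p, Subtype.ext hp⟩)
  rwa [Fintype.card_prod, Fintype.card_bool] at h

namespace MixTAux

theorem card_pos [Fintype ι] (src : ι → U) (dst : ι → W) (a : Nd src dst)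
    [DecidablePred (fun p : Bool × ι => endp src dst p.1 p.2 = a.1)] :
    0 < (univ.filter (fun p : Bool × ι => endp src dst p.1 p.2 = a.1)).card := by
  obtain ⟨p, hp⟩ := a.2
  exact Finset.card_pos.2 ⟨p, by simpa using hp⟩

/-- Counting with free pattern and number. -/
theorem card_aux {Λ Ω : Type} {t T : ℕ} [Fintype ι] [Fintype Λ] [Fintype Ω] [DecidableEq Λ]
    (P : Bool × ι → Prop) [DecidablePred P] (x0 : Λ → Ω) (Q : Bool × Slot ι Λ Ω t T → Prop)
    [DecidablePred Q] (hQ : ∀ v', Q v' ↔ P (v'.1, v'.2.1) ∧ v'.2.2.1 = x0) :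
    (univ.filter Q).card =
      (univ.filter P).card * Fintype.card ((Λ → Fin t × Ω) × Fin T) := by
  rw [← Finset.card_univ, ← Finset.card_product]
  refine Finset.card_nbij' (fun v' => ((v'.1, v'.2.1), (v'.2.2.2.1, v'.2.2.2.2)))
    (fun q => (q.1.1, (q.1.2, (x0, (q.2.1, q.2.2))))) ?_ ?_ ?_ ?_
  · intro v' hv
    have h1 := (hQ v').1 (by simpa using hv)
    simpa using h1.1
  · intro q hq
    have h1 : P q.1 := by simpa using hq
    have h2 : Q (q.1.1, (q.1.2, (x0, (q.2.1, q.2.2)))) := (hQ _).2 ⟨h1, rfl⟩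
    simpa using h2
  · intro v' hv
    have h1 := (hQ v').1 (by simpa using hv)
    obtain ⟨b, e, x, s, i⟩ := v'
    have h2 : x = x0 := h1.2
    simp [h2]
  · intro q hq
    rfl

theorem node_Phi {Λ Ω K : Type} {t T : ℕ} (src : ι → U) (dst : ι → W)
    (σ : K → Equiv.Perm Ω) (π : ι → Equiv.Perm Λ) (k : K) (v : Bool × Slot ι Λ Ω t T) :
    (nodeT src dst (Phi (fun k => carry (σ k) π) k v)).1 = endp src dst (!v.1) v.2.1 := by
  obtain ⟨b, h⟩ := v
  cases b
  · rfl
  · rfl

end MixTAux

open MixTAux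

theorem qT_sum [Fintype ι] (src : ι → U) (dst : ι → W) (a : Nd src dst) :
    ∑ u, qT src dst a u = 1 := by
  classical
  unfold qT
  rw [← Finset.sum_div]
  have h0 := card_pos src dst a
  have h1 : ∑ u : Nd src dst, ((univ.filter (fun p : Bool × ι => endp src dst p.1 p.2 = a.1 ∧
      endp src dst (!p.1) p.2 = u.1)).card : ℝ) =
      (univ.filter (fun p : Bool × ι => endp src dst p.1 p.2 = a.1)).card := by
    rw [← Nat.cast_sum]
    congr 1
    rw [Finset.card_eq_sum_card_fiberwise (s := univ.filter (fun p : Bool × ι =>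
      endp src dst p.1 p.2 = a.1)) (t := (univ : Finset (Nd src dst)))
      (f := fun p : Bool × ι => (⟨endp src dst (!p.1) p.2, ⟨(!p.1, p.2), rfl⟩⟩ : Nd src dst))
      (fun _ _ => Finset.mem_coe.2 (Finset.mem_univ _))]
    refine Finset.sum_congr rfl fun u _ => ?_
    rw [Finset.filter_filter]
    congr 1
    refine Finset.filter_congr fun p _ => ?_
    rw [Subtype.ext_iff]
  have h2 : ((univ.filter (fun p : Bool × ι => endp src dst p.1 p.2 = a.1)).card : ℝ) ≠ 0 := by
    exact_mod_cast h0.ne'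
  convert div_self h2

theorem nodeT_cloud {Λ Ω : Type} {t T : ℕ} (src : ι → U) (dst : ι → W)
    (v v' : Bool × Slot ι Λ Ω t T) (h : cloud src dst v = cloud src dst v') :
    nodeT src dst v = nodeT src dst v' :=
  Subtype.ext (congrArg Prod.fst h)

theorem cloud_card {Λ Ω : Type} {t T : ℕ} [Fintype ι] [Fintype Λ] [Fintype Ω] [Nonempty Ω]
    [DecidableEq U] [DecidableEq W] [DecidableEq Λ] [DecidableEq Ω]
    (ht : 1 ≤ t) (src : ι → U) (dst : ι → W) (v : Bool × Slot ι Λ Ω t T) :
    T ≤ (univ.filter (fun v' : Bool × Slot ι Λ Ω t T =>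
      cloud src dst v' = cloud src dst v)).card := by
  classical
  have h1 : (univ.image (fun i : Fin T => ((v.1, (v.2.1, (v.2.2.1, (v.2.2.2.1, i)))) :
      Bool × Slot ι Λ Ω t T))) ⊆ univ.filter (fun v' : Bool × Slot ι Λ Ω t T =>
      cloud src dst v' = cloud src dst v) := by
    intro w hw
    obtain ⟨i, _, rfl⟩ := Finset.mem_image.1 hw
    rw [Finset.mem_filter]
    exact ⟨Finset.mem_univ _, rfl⟩
  have h2 := Finset.card_le_card h1
  rw [Finset.card_image_of_injective] at h2
  · simpa using h2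
  · intro i i' hi
    simpa using hi

theorem cloud_mix {Λ Ω K : Type} {t T : ℕ} [Fintype ι] [Fintype Λ] [Fintype Ω]
    [DecidableEq U] [DecidableEq W] [DecidableEq Λ] [DecidableEq Ω]
    (src : ι → U) (dst : ι → W) (σ : K → Equiv.Perm Ω) (π : ι → Equiv.Perm Λ) (k : K)
    (v : Bool × Slot ι Λ Ω t T) (u : Nd src dst) :
    ((univ.filter (fun v' : Bool × Slot ι Λ Ω t T => cloud src dst v' = cloud src dst v ∧
      nodeT src dst (Phi (fun k => carry (σ k) π) k v') = u)).card : ℝ) =
    (univ.filter (fun v' : Bool × Slot ι Λ Ω t T => cloud src dst v' = cloud src dst v)).card *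
      qT src dst (nodeT src dst v) u := by
  classical
  have hc : ∀ v' : Bool × Slot ι Λ Ω t T, cloud src dst v' = cloud src dst v ↔
      endp src dst v'.1 v'.2.1 = (nodeT src dst v).1 ∧ v'.2.2.1 = v.2.2.1 := fun v' =>
    Prod.ext_iff
  have h1 := card_aux (t := t) (T := T)
    (fun p : Bool × ι => endp src dst p.1 p.2 = (nodeT src dst v).1) v.2.2.1
    (fun v' : Bool × Slot ι Λ Ω t T => cloud src dst v' = cloud src dst v) hc
  have h2 := card_aux (t := t) (T := T)
    (fun p : Bool × ι => endp src dst p.1 p.2 = (nodeT src dst v).1 ∧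
      endp src dst (!p.1) p.2 = u.1) v.2.2.1
    (fun v' : Bool × Slot ι Λ Ω t T => cloud src dst v' = cloud src dst v ∧
      nodeT src dst (Phi (fun k => carry (σ k) π) k v') = u) (fun v' => by
        rw [hc, Subtype.ext_iff, node_Phi]
        tauto)
  have h0 := card_pos src dst (nodeT src dst v)
  have h3 : ((univ.filter (fun p : Bool × ι =>
      endp src dst p.1 p.2 = (nodeT src dst v).1)).card : ℝ) ≠ 0 := by
    exact_mod_cast h0.ne'
  unfold qT
  rw [h1, h2, Nat.cast_mul, Nat.cast_mul]
  have key : ∀ a b N : ℝ, b ≠ 0 → a * N = b * N * (a / b) := by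
    intro a b N hb
    field_simp
  convert key _ _ _ h3
  rfl

end Pool.Agent.CovT
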