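import Mathlib
import Pool.Agent.Lib.CovT.MixT
import Pool.Agent.Lib.CovT.Tests

/-!
# CovT.ProfT (0.7 h): the sum of the weights of all partial labelings

`P325d.profile_sum` with `A := Option Ω`, `base := cs (cloud src dst) b`: the sum is at most
`∏ c, (num c + 1) ^ (|Ω| + 1)`; every cloud `c` has `num c = 0` or `num c ≥ T`
(`cloud_card`; `num (cs cl b) (cl (b, h)) = num cl (cl (b, h))` because clouds know the side,
`cloud_side`), so the factor is at most `exp (num c)`, and the sum of all `num c` is `|Slot|`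
(compare `P325d.profile_bound` in `Pool/Agent/Lib/P325d/Round.lean`).
-/

open Finset

namespace Pool.Agent.CovT

open Pool.Agent.P325f1f.Dich Pool.Agent.P325d

/-- The number of half-edges of a cloud is at most the number of its slots. -/
theorem ProfT_num {H C : Type} [Fintype H] [DecidableEq C] {cl : Bool × H → C}
    (hs : ∀ v v', cl v = cl v' → v.1 = v'.1) (b : Bool) (h : H) :
    (univ.filter (fun v : Bool × H => cl v = cl (b, h))).card ≤ num (cs cl b) (cs cl b h) := by
  unfold num
  refine card_le_card_of_injOn Prod.snd (fun v hv => ?_) (fun v hv v' hv' hvv' => ?_)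
  · have hv1 : cl v = cl (b, h) := (mem_filter.1 hv).2
    have h1 : v.1 = b := hs _ _ hv1
    have h2 : (b, v.2) = v := Prod.ext h1.symm rfl
    refine mem_filter.2 ⟨mem_univ _, ?_⟩
    show cl (b, v.2) = cl (b, h)
    rw [h2, hv1]
  · have hv1 : v.1 = b := hs _ _ (mem_filter.1 hv).2
    have hv1' : v'.1 = b := hs _ _ (mem_filter.1 hv').2
    exact Prod.ext (hv1.trans hv1'.symm) hvv'

theorem prof_T {U W Λ ι Ω : Type} {t T : ℕ} [Fintype U] [Fintype W] [Fintype ι] [Fintype Λ]
    [Fintype Ω] [Nonempty Ω] [DecidableEq U] [DecidableEq W] [DecidableEq Λ] [DecidableEq Ω]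
    [DecidableEq (Slot ι Λ Ω t T)] (ht : 1 ≤ t) (src : ι → U) (dst : ι → W)
    (hT : ∀ y : ℕ, T ≤ y → ((y : ℝ) + 1) ^ (Fintype.card Ω + 1) ≤ Real.exp y) (b : Bool) :
    ∑ g : Slot ι Λ Ω t T → Option Ω, ∏ h, freq (cs (cloud src dst) b) g
      (cs (cloud src dst) b h) (g h) ≤ Real.exp (Fintype.card (Slot ι Λ Ω t T)) := by
  refine (profile_sum (A := Option Ω) (cs (cloud src dst) b)).trans ?_
  have h1 : (Fintype.card (Slot ι Λ Ω t T) : ℝ) =
      ∑ v : (U ⊕ W) × (Λ → Ω), (num (cs (cloud (Λ := Λ) (Ω := Ω) (t := t) (T := T) src dst) b) v : ℝ) := by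
    have h2 : ∑ v : (U ⊕ W) × (Λ → Ω),
        num (cs (cloud (Λ := Λ) (Ω := Ω) (t := t) (T := T) src dst) b) v =
        Fintype.card (Slot ι Λ Ω t T) := by
      unfold num
      rw [← Finset.card_eq_sum_card_fiberwise
        (f := cs (cloud (Λ := Λ) (Ω := Ω) (t := t) (T := T) src dst) b) (s := univ)
        (t := univ) (fun _ _ => by simp), card_univ]
    rw [← Nat.cast_sum, h2]
  rw [h1, Real.exp_sum]
  refine prod_le_prod (fun v _ => by positivity) (fun v _ => ?_)
  rw [Fintype.card_option]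
  rcases Nat.eq_zero_or_pos (num (cs (cloud (Λ := Λ) (Ω := Ω) (t := t) (T := T) src dst) b) v)
    with h0 | hpos
  · rw [h0]
    simp
  · apply hT
    obtain ⟨h, hh⟩ := card_pos.1 hpos
    have hh' : cs (cloud src dst) b h = v := (mem_filter.1 hh).2
    rw [← hh']
    exact (cloud_card ht src dst (b, h)).trans
      (ProfT_num (cl := cloud src dst) (cloud_side src dst) b h)

end Pool.Agent.CovT
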