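import Mathlib
import Pool.Agent.Lib.CovT.BadT
import Pool.Agent.Lib.CovT.LLN
import Pool.Agent.Lib.CovT.MixT
import Pool.Agent.Lib.CovT.ProfT
import Pool.Agent.Lib.CovT.Consts

/-!
# The union bound over the constraints of the instance
-/

open Finset

namespace Pool.Agent.CovT

open Pool.Agent.P325f1f.Dich Pool.Agent.P325d

/-- The law of large numbers holds for the routing. -/
def Lln {V C D K : Type} [Fintype K] [Fintype V] [Fintype D] [DecidableEq D] {cl : V → C}
    (Φ : K → V → V) (node : V → D) (q : D → D → ℝ) (m : ℕ) (ε : ℝ) (r : Rout K V C cl) : Prop :=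
  ∀ l ∈ words K m, ∀ A B : Finset D,
      ((univ.filter (fun v => node v ∈ A ∧ node (wact (nbr Φ r) l v) ∈ B)).card : ℝ) ≤
        (∑ a ∈ A, ∑ b ∈ B, (univ.filter (fun v => node v = a)).card * qpow q m a b) +
        ε * Fintype.card V

open Classical in
/-- The union bound in abstract form. -/
theorem union_abs {Q K H C D Ω PL PR : Type} [Fintype Q] [Fintype K] [Fintype H] [Fintype Ω]
    [Fintype PL] [Fintype PR] [Fintype D] [Fintype C] [DecidableEq K] [DecidableEq C]
    [DecidableEq Ω] [DecidableEq H] [DecidableEq D] [Nonempty K] [Nonempty H]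
    {cl : Bool × H → C} (hs : ∀ v v', cl v = cl v' → v.1 = v'.1)
    (s : K → PL) (d : K → PR) (σ : K → Equiv.Perm Ω) (φ : Q → K → Equiv.Perm H)
    (node : Bool × H → D) (hnode : ∀ v v', cl v = cl v' → node v = node v') (q : D → D → ℝ)
    (hq0 : ∀ a b, 0 ≤ q a b) (hq1 : ∀ a, ∑ b, q a b = 1)
    (hq : ∀ p k v u, ((univ.filter (fun v' => cl v' = cl v ∧
      node (Phi (φ p) k v') = u)).card : ℝ) =
      (univ.filter (fun v' => cl v' = cl v)).card * q (node v) u)
    (T : ℕ) (hT : ∀ v, T ≤ (univ.filter (fun v' => cl v' = cl v)).card)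
    (m : ℕ) (hm : 1 ≤ m) (hmT : m < T) (ε δ : ℝ) (hε : 0 < ε) (hδ : 0 < δ)
    (hT2 : 2 * (m : ℝ) ^ 3 / (T - m) ≤ ε / 2)
    (hL : ∑ g : H → Option Ω, ∏ h, freq (cs cl false) g (cs cl false h) (g h) ≤
      Real.exp (Fintype.card H))
    (hR : ∑ g : H → Option Ω, ∏ h, freq (cs cl true) g (cs cl true h) (g h) ≤
      Real.exp (Fintype.card H))
    (g c1 i : ℝ) (hg : 1 ≤ g) (hi : 1 ≤ i) (hn : (Fintype.card H : ℝ) = i * g * T)
    (hD : (Fintype.card D : ℝ) ≤ 2 * i) (hQc : (Fintype.card Q : ℝ) ≤ Real.exp (i * g))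
    (hc1 : c1 = 2 * ε ^ 2 / (1024 * m ^ 2 * Fintype.card K)) (hc1' : c1 ≤ 4)
    (hT3 : m * Real.log (Fintype.card K) + 4 ≤ c1 / 2 * T) (hT4 : 2 ≤ c1 / 2 * T) :
    ((univ.filter (fun r : Rout K (Bool × H) C cl => ∃ p : Q,
      ¬ Good s d σ (φ p) ((4 * Fintype.card K + (Fintype.card PL + Fintype.card PR) + 4) *
        Fintype.card H) δ r ∨ ¬ Lln (Phi (φ p)) node q m ε r)).card : ℝ) ≤
      Real.exp (-(c1 / 4 * T * i)) * Fintype.card (Rout K (Bool × H) C cl) := by
  set N : ℝ := ((Fintype.card (Rout K (Bool × H) C cl) : ℕ) : ℝ) with hN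
  have hN0 : 0 ≤ N := Nat.cast_nonneg _
  set n : ℝ := ((Fintype.card H : ℕ) : ℝ) with hnn
  set k : ℝ := ((Fintype.card K : ℕ) : ℝ) with hk
  have hk1 : 1 ≤ k := by
    rw [hk]
    exact_mod_cast Fintype.card_pos
  have hk0 : 0 < k := by linarith
  have hT1 : (1 : ℝ) ≤ T := by exact_mod_cast (by omega : 1 ≤ T)
  have hig : 1 ≤ i * g := by
    calc (1 : ℝ) = 1 * 1 := by ring
      _ ≤ i * g := mul_le_mul hi hg (by norm_num) (by linarith)
  have hmp : (0 : ℝ) < m := by exact_mod_cast hm
  have hc1p : 0 < c1 := by rw [hc1]; positivity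
  have hnig : i * g ≤ n := by
    rw [hn]
    exact le_mul_of_one_le_right (by linarith) hT1
  -- one constraint
  have h1 : ∀ p : Q, ((univ.filter (fun r : Rout K (Bool × H) C cl =>
      ¬ Good s d σ (φ p) ((4 * k + (Fintype.card PL + Fintype.card PR) + 4) * n) δ r)).card : ℝ) ≤
      Real.exp (1 - 4 * n) * N := by
    intro p
    have h2 := card_not_good (cl := cl) hs s d σ (φ p)
      ((4 * k + (Fintype.card PL + Fintype.card PR) + 4) * n) δ hδ hL hR
    refine h2.trans (le_of_eq ?_)
    congr 2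
    ring
  have h2 : ∀ p : Q, ((univ.filter (fun r : Rout K (Bool × H) C cl =>
      ¬ Lln (Phi (φ p)) node q m ε r)).card : ℝ) ≤
      Real.exp (m * Real.log k + 3 * i - c1 * n) * N := by
    intro p
    have h3 := lln cl (Phi (φ p)) (Phi_Phi (φ p)) (Phi_ne (φ p)) T hT node hnode q hq0 hq1
      (hq p) m hm hmT ε hε hT2
    have h4 : ((univ.filter (fun r : Rout K (Bool × H) C cl =>
        ¬ Lln (Phi (φ p)) node q m ε r)).card : ℝ) ≤
        ((univ.filter (fun r : Rout K (Bool × H) C cl => ∃ l ∈ words K m, ∃ A B : Finset D,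
      (∑ a ∈ A, ∑ b ∈ B, (univ.filter (fun v => node v = a)).card * qpow q m a b) +
        ε * Fintype.card (Bool × H) <
      ((univ.filter (fun v => node v ∈ A ∧
        node (wact (nbr (Phi (φ p)) r) l v) ∈ B)).card : ℝ))).card : ℝ) := by
      norm_cast
      apply card_le_card
      intro r hr
      rw [mem_filter] at hr ⊢
      refine ⟨hr.1, ?_⟩
      have h5 := hr.2
      unfold Lln at h5
      push Not at h5
      exact h5
    refine h4.trans (h3.trans ?_)
    refine mul_le_mul_of_nonneg_right ?_ hN0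
    have hVc : (Fintype.card (Bool × H) : ℝ) = 2 * n := by
      rw [Fintype.card_prod, Fintype.card_bool]
      push_cast
      ring
    have h6 : ε ^ 2 * Fintype.card (Bool × H) / (1024 * m ^ 2 * k) = c1 * n := by
      rw [hVc, hc1]
      ring
    rw [h6]
    have h7 : (k : ℝ) ^ m = Real.exp (m * Real.log k) := by
      rw [Real.exp_nat_mul, Real.exp_log hk0]
    have h8 : (4 : ℝ) ^ Fintype.card D ≤ Real.exp (3 * i) := by
      have h9 : (4 : ℝ) ≤ Real.exp (3 / 2) := by
        have h10 := Real.quadratic_le_exp_of_nonneg (x := 3 / 2) (by norm_num)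
        have h11 : (4 : ℝ) = Real.exp (Real.log 4) := (Real.exp_log (by norm_num)).symm
        rw [h11]
        apply Real.exp_le_exp.2
        have h12 : Real.log 4 = 2 * Real.log 2 := by
          rw [show (4 : ℝ) = 2 ^ 2 by norm_num, Real.log_pow]
          norm_num
        have := Real.log_two_lt_d9
        linarith
      calc (4 : ℝ) ^ Fintype.card D ≤ (Real.exp (3 / 2)) ^ Fintype.card D :=
            pow_le_pow_left₀ (by norm_num) h9 _
        _ = Real.exp (Fintype.card D * (3 / 2)) := by rw [← Real.exp_nat_mul]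
        _ ≤ Real.exp (3 * i) := Real.exp_le_exp.2 (by linarith)
    rw [h7]
    calc Real.exp (m * Real.log k) * 4 ^ Fintype.card D * Real.exp (-(c1 * n))
        ≤ Real.exp (m * Real.log k) * Real.exp (3 * i) * Real.exp (-(c1 * n)) := by gcongr
      _ = Real.exp (m * Real.log k + 3 * i - c1 * n) := by
          rw [← Real.exp_add, ← Real.exp_add]
          congr 1
  -- all constraints
  have h3 : ((univ.filter (fun r : Rout K (Bool × H) C cl => ∃ p : Q,
      ¬ Good s d σ (φ p) ((4 * k + (Fintype.card PL + Fintype.card PR) + 4) * n) δ r ∨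
        ¬ Lln (Phi (φ p)) node q m ε r)).card : ℝ) ≤
      ∑ p : Q, (Real.exp (1 - 4 * n) * N + Real.exp (m * Real.log k + 3 * i - c1 * n) * N) := by
    have h4 : (univ.filter (fun r : Rout K (Bool × H) C cl => ∃ p : Q,
      ¬ Good s d σ (φ p) ((4 * k + (Fintype.card PL + Fintype.card PR) + 4) * n) δ r ∨
        ¬ Lln (Phi (φ p)) node q m ε r)) ⊆ (univ : Finset Q).biUnion (fun p =>
          (univ.filter (fun r : Rout K (Bool × H) C cl =>
      ¬ Good s d σ (φ p) ((4 * k + (Fintype.card PL + Fintype.card PR) + 4) * n) δ r)) ∪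
          (univ.filter (fun r : Rout K (Bool × H) C cl =>
      ¬ Lln (Phi (φ p)) node q m ε r))) := by
      intro r hr
      rw [mem_filter] at hr
      obtain ⟨_, p, hp⟩ := hr
      rw [mem_biUnion]
      refine ⟨p, mem_univ _, ?_⟩
      rw [mem_union, mem_filter, mem_filter]
      rcases hp with hp | hp
      · exact Or.inl ⟨mem_univ _, hp⟩
      · exact Or.inr ⟨mem_univ _, hp⟩
    have h5 := (card_le_card h4).trans card_biUnion_le
    calc _ ≤ ((∑ p : Q, ((univ.filter (fun r : Rout K (Bool × H) C cl =>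
      ¬ Good s d σ (φ p) ((4 * k + (Fintype.card PL + Fintype.card PR) + 4) * n) δ r)) ∪
          (univ.filter (fun r : Rout K (Bool × H) C cl =>
      ¬ Lln (Phi (φ p)) node q m ε r))).card : ℕ) : ℝ) := by exact_mod_cast h5
      _ ≤ _ := by
        rw [Nat.cast_sum]
        refine sum_le_sum (fun p _ => ?_)
        refine (Nat.cast_le.2 (card_union_le _ _)).trans ?_
        rw [Nat.cast_add]
        exact add_le_add (h1 p) (h2 p)
  refine h3.trans ?_
  rw [sum_const, card_univ, nsmul_eq_mul]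
  have h4 : (Fintype.card Q : ℝ) * (Real.exp (1 - 4 * n) * N +
      Real.exp (m * Real.log k + 3 * i - c1 * n) * N) ≤
      Real.exp (i * g) * (Real.exp (1 - 4 * n) * N +
      Real.exp (m * Real.log k + 3 * i - c1 * n) * N) :=
    mul_le_mul_of_nonneg_right hQc (by positivity)
  refine h4.trans ?_
  have h5 : Real.exp (i * g) * Real.exp (1 - 4 * n) ≤ Real.exp (-(c1 / 2 * n)) := by
    rw [← Real.exp_add]
    apply Real.exp_le_exp.2
    have e1 : c1 / 2 * n ≤ 2 * n := by
      apply mul_le_mul_of_nonneg_right _ (by linarith)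
      linarith
    linarith
  have h6 : Real.exp (i * g) * Real.exp (m * Real.log k + 3 * i - c1 * n) ≤
      Real.exp (-(c1 / 2 * n)) := by
    rw [← Real.exp_add]
    apply Real.exp_le_exp.2
    have h7 : (m * Real.log k + 4) * (i * g) ≤ c1 / 2 * T * (i * g) :=
      mul_le_mul_of_nonneg_right hT3 (by linarith)
    have h8 : 0 ≤ m * Real.log k := mul_nonneg hmp.le (Real.log_nonneg hk1)
    have h9 : m * Real.log k ≤ m * Real.log k * (i * g) := le_mul_of_one_le_right h8 hig
    have h10 : i ≤ i * g := le_mul_of_one_le_right (by linarith) hg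
    have e1 : c1 * n = 2 * (c1 / 2 * T * (i * g)) := by rw [hn]; ring
    have e2 : c1 / 2 * n = c1 / 2 * T * (i * g) := by rw [hn]; ring
    have e3 : (m * Real.log k + 4) * (i * g) = m * Real.log k * (i * g) + 4 * (i * g) := by ring
    rw [e1, e2]
    linarith
  have h7 : 2 * Real.exp (-(c1 / 2 * n)) ≤ Real.exp (-(c1 / 4 * T * i)) := by
    have h8 : (2 : ℝ) ≤ Real.exp 1 := by
      have := Real.add_one_le_exp (1 : ℝ)
      linarith
    calc 2 * Real.exp (-(c1 / 2 * n)) ≤ Real.exp 1 * Real.exp (-(c1 / 2 * n)) := by gcongr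
      _ = Real.exp (1 - c1 / 2 * n) := by rw [← Real.exp_add]; congr 1
      _ ≤ _ := by
        apply Real.exp_le_exp.2
        have h9 : T * i ≤ n := by
          rw [hn]
          have : i * 1 * T ≤ i * g * T := by gcongr
          linarith
        have h10 : 2 ≤ c1 / 2 * (T * i) := by
          have : c1 / 2 * T * 1 ≤ c1 / 2 * T * i := by gcongr
          linarith
        have h11 : c1 / 2 * (T * i) ≤ c1 / 2 * n := by gcongr
        have e1 : c1 / 4 * T * i = (c1 / 2 * (T * i)) / 2 := by ring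
        rw [e1]
        linarith
  calc Real.exp (i * g) * (Real.exp (1 - 4 * n) * N +
      Real.exp (m * Real.log k + 3 * i - c1 * n) * N)
      = (Real.exp (i * g) * Real.exp (1 - 4 * n) +
        Real.exp (i * g) * Real.exp (m * Real.log k + 3 * i - c1 * n)) * N := by ring
    _ ≤ (2 * Real.exp (-(c1 / 2 * n))) * N := by
        refine mul_le_mul_of_nonneg_right ?_ hN0
        linarith
    _ ≤ Real.exp (-(c1 / 4 * T * i)) * N := mul_le_mul_of_nonneg_right h7 hN0

end Pool.Agent.CovT
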