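import Mathlib
import Pool.Agent.Lib.CovT.InstS
import Pool.Agent.Lib.CovT.UnionT
import Pool.Agent.Lib.CovT.DensC
import Pool.Agent.Lib.CovT.EndsT

/-!
# The hard half
-/

open Finset

namespace Pool.Agent.CovT

open Pool.Agent.P325f1f.Dich Pool.Agent.P325d

/-- The constants of the reduction. -/
structure Cst (PL PR K : Type) [Fintype PL] [Fintype PR] [Fintype K] (t : ℕ) (b : ℝ) where
  Ω : Type
  fΩ : Fintype Ω
  nΩ : Nonempty Ω
  σ : K → Equiv.Perm Ω
  hσ : ∀ k ω, σ k (σ k ω) = ω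
  m : ℕ
  hred : ∀ l : List K, l ≠ [] → l.length ≤ 2 * (m + 1) → Red l →
    ∀ ω, wact (fun k ω => σ k ω) l ω ≠ ω
  W0 : ℝ
  L : ℝ
  θ : ℝ
  R : ℝ
  ε : ℝ
  hW0 : W0 = 8 * (4 * Fintype.card K + 2 * ((Fintype.card PL : ℝ) + Fintype.card PR) + 4) /
    (b * Fintype.card K)
  hL : L = 16 * ((4 * Fintype.card K + ((Fintype.card PL : ℝ) + Fintype.card PR) + 4) +
    ((Fintype.card PL : ℝ) + Fintype.card PR) * (W0 + 1)) / (b * Fintype.card K)
  hW0p : 0 < W0
  hLp : 0 < L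
  hθ : 0 < θ
  hθ1 : θ ≤ 1
  hθL : 3 * θ ≤ Real.exp (-L) / 2
  hR : R = 1 / (θ ^ 2) ^ (4 * t)
  hε : 0 < ε
  hε1 : ε ≤ 1
  hbig : ((Fintype.card PL : ℝ) + Fintype.card PR) ^ 2 * (R ^ 2 +
        (Fintype.card K : ℝ) ^ (m + 1) * Fintype.card Ω * ε) <
      (b * Fintype.card K / 8) * (2 : ℝ) ^ ((m : ℝ) * (b * Fintype.card K / 8) / Fintype.card K)

theorem exists_cst (PL PR K : Type) [Fintype PL] [Fintype PR] [Fintype K] [Nonempty K] (t : ℕ)
    (b : ℝ) (hb : 0 < b) : Nonempty (Cst PL PR K t b) := by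
  have hk : (0 : ℝ) < Fintype.card K := by exact_mod_cast Fintype.card_pos
  set P : ℝ := (Fintype.card PL : ℝ) + Fintype.card PR with hP
  have hP0 : 0 ≤ P := by rw [hP]; positivity
  obtain ⟨W0, hW0⟩ : ∃ W0 : ℝ, W0 = 8 * (4 * Fintype.card K + 2 * P + 4) /
    (b * Fintype.card K) := ⟨_, rfl⟩
  have hW0p : 0 < W0 := by rw [hW0]; positivity
  obtain ⟨L, hL⟩ : ∃ L : ℝ, L = 16 * ((4 * Fintype.card K + P + 4) + P * (W0 + 1)) /
    (b * Fintype.card K) := ⟨_, rfl⟩
  have hLp : 0 < L := by rw [hL]; positivity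
  obtain ⟨θ, hθe⟩ : ∃ θ : ℝ, θ = Real.exp (-L) / 6 := ⟨_, rfl⟩
  have hexp : Real.exp (-L) ≤ 1 := Real.exp_le_one_iff.2 (by linarith)
  have hθ : 0 < θ := by rw [hθe]; positivity
  obtain ⟨R, hR⟩ : ∃ R : ℝ, R = 1 / (θ ^ 2) ^ (4 * t) := ⟨_, rfl⟩
  obtain ⟨m, hm⟩ := exists_m (P ^ 2 * (R ^ 2 + 1)) (b * Fintype.card K / 8) (Fintype.card K)
    (by positivity) hk
  obtain ⟨Ω, f1, f2, σ, hσ, hred⟩ := exists_sigma K (2 * (m + 1))
  have hΩ : (0 : ℝ) < Fintype.card Ω := by exact_mod_cast Fintype.card_pos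
  have hkm : (1 : ℝ) ≤ (Fintype.card K : ℝ) ^ (m + 1) := by
    apply one_le_pow₀
    exact_mod_cast Fintype.card_pos
  have hΩ1 : (1 : ℝ) ≤ Fintype.card Ω := by exact_mod_cast Fintype.card_pos
  obtain ⟨ε, hε⟩ : ∃ ε : ℝ, ε = 1 / ((Fintype.card K : ℝ) ^ (m + 1) * Fintype.card Ω) := ⟨_, rfl⟩
  refine ⟨⟨Ω, f1, f2, σ, hσ, m, hred, W0, L, θ, R, ε, hW0, hL, hW0p, hLp, hθ, ?_, ?_, hR, ?_, ?_,
    ?_⟩⟩
  · rw [hθe]; linarith
  · rw [hθe]; linarith
  · rw [hε]; positivity
  · rw [hε, div_le_one (by positivity)]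
    calc (1 : ℝ) = 1 * 1 := by ring
      _ ≤ _ := mul_le_mul hkm hΩ1 (by norm_num) (by positivity)
  · have h1 : (Fintype.card K : ℝ) ^ (m + 1) * Fintype.card Ω * ε = 1 := by
      rw [hε]
      field_simp
    rw [h1]
    exact hm

open Classical in
theorem hard_aux (PL PR K : Type) [Fintype PL] [Fintype PR] [Fintype K] [Nonempty K]
    (s : K → PL) (d : K → PR) (t : ℕ) (ht : 1 ≤ t) (b : ℝ) (hb : 0 < b) (c : Cst PL PR K t b) :
    ∃ (a : ℝ) (T₀ : ℕ), 0 < a ∧ ∀ T : ℕ, T₀ ≤ T → 1 ≤ T ∧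
      letI := c.fΩ
      ∀ (U W Λ ι : Type) [Fintype U] [Fintype W] [Fintype Λ] [DecidableEq Λ] [Nonempty Λ]
        [Fintype ι] [Nonempty ι] (src : ι → U) (dst : ι → W),
        ∃ Bad : Finset (Rout K (Bool × Slot ι Λ c.Ω t T) ((U ⊕ W) × (Λ → c.Ω)) (cloud src dst)),
          (Bad.card : ℝ) ≤ Real.exp (-(a * T * Fintype.card ι)) * Fintype.card
            (Rout K (Bool × Slot ι Λ c.Ω t T) ((U ⊕ W) × (Λ → c.Ω)) (cloud src dst)) ∧
          ∀ (r : Rout K (Bool × Slot ι Λ c.Ω t T) ((U ⊕ W) × (Λ → c.Ω)) (cloud src dst))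
            (perm : ι → Equiv.Perm Λ), r ∉ Bad → (Game.mk src dst perm).value ≤ a →
            (coverGame s d c.σ (Game.mk src dst perm) r).value ≤
              ((Fintype.card PL : ℝ) + Fintype.card PR) / Fintype.card K + b := by
  obtain ⟨Ω, fΩ, nΩ, σ, hσ, m, hred, W0, L, θ, R, ε, hW0, hL, hW0p, hLp, hθ, hθ1, hθL, hR, hε,
    hε1, hbig⟩ := c
  dsimp only
  have hk : (0 : ℝ) < Fintype.card K := by exact_mod_cast Fintype.card_pos
  have hk1 : (1 : ℝ) ≤ Fintype.card K := by exact_mod_cast Fintype.card_pos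
  obtain ⟨M, hM0, hM⟩ := dens_light Ω t ht θ hθ hθ1
  have hmp : (0 : ℝ) < ((m + 1 : ℕ) : ℝ) := by positivity
  obtain ⟨c1, hc1⟩ : ∃ c1 : ℝ, c1 = 2 * ε ^ 2 / (1024 * ((m + 1 : ℕ) : ℝ) ^ 2 * Fintype.card K) :=
    ⟨_, rfl⟩
  have hc1p : 0 < c1 := by rw [hc1]; positivity
  have hc14 : c1 ≤ 4 := by
    rw [hc1, div_le_iff₀ (by positivity)]
    have h1 : ε ^ 2 ≤ 1 := pow_le_one₀ hε.le hε1
    have h2 : (1 : ℝ) ≤ ((m + 1 : ℕ) : ℝ) ^ 2 := by
      apply one_le_pow₀
      push_cast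
      linarith [(Nat.cast_nonneg m : (0 : ℝ) ≤ m)]
    have h3 : (1 : ℝ) ≤ ((m + 1 : ℕ) : ℝ) ^ 2 * Fintype.card K := by
      calc (1 : ℝ) = 1 * 1 := by ring
        _ ≤ _ := mul_le_mul h2 hk1 (by norm_num) (by positivity)
    nlinarith
  obtain ⟨T₀, hT₀⟩ := exists_T0 (Fintype.card Ω) m ε (c1 / 2)
    (((m + 1 : ℕ) : ℝ) * Real.log (Fintype.card K) + 4) (c1 / 2) hε (by positivity) (by positivity)
  have hδ : 0 < Real.exp (-L) := Real.exp_pos _
  refine ⟨min (c1 / 4) (Real.exp (-L) / (2 * (M + 1))), T₀, lt_min (by positivity) (by positivity),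
    fun T hT => ?_⟩
  obtain ⟨hT1, hTexp, hTm, hT2, hT3, hT4⟩ := hT₀ T hT
  refine ⟨hT1, ?_⟩
  intro U W Λ ι _ _ _ _ _ _ _ src dst
  have hne : Nonempty (Slot ι Λ Ω t T) := by
    obtain ⟨e⟩ := ‹Nonempty ι›
    obtain ⟨ω⟩ := nΩ
    exact ⟨(e, fun _ => ω, fun _ => (⟨0, ht⟩, ω), ⟨0, hT1⟩)⟩
  -- the size of the alphabet
  have hΩ2 : 2 ≤ Fintype.card Ω := by
    obtain ⟨ω⟩ := nΩ
    obtain ⟨k⟩ := ‹Nonempty K›
    have h1 := hred [k] (by simp) (by simp; omega) trivial ω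
    have h2 : 1 < Fintype.card Ω := Fintype.one_lt_card_iff.2 ⟨_, _, h1⟩
    omega
  set g : ℕ := Fintype.card (Λ → Ω) * Fintype.card (Λ → Fin t × Ω) with hg
  have hgc : Fintype.card (Slot ι Λ Ω t T) = Fintype.card ι * g * T := by
    rw [hg]
    show Fintype.card (ι × (Λ → Ω) × (Λ → Fin t × Ω) × Fin T) = _
    rw [Fintype.card_prod, Fintype.card_prod, Fintype.card_prod, Fintype.card_fin]
    ring
  have hg4 : 4 ^ Fintype.card Λ ≤ g := by
    rw [hg, Fintype.card_fun, Fintype.card_fun, Fintype.card_prod, Fintype.card_fin]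
    have h1 : 2 ^ Fintype.card Λ ≤ Fintype.card Ω ^ Fintype.card Λ := Nat.pow_le_pow_left hΩ2 _
    have h2 : 2 ^ Fintype.card Λ ≤ (t * Fintype.card Ω) ^ Fintype.card Λ :=
      Nat.pow_le_pow_left (by nlinarith) _
    calc 4 ^ Fintype.card Λ = 2 ^ Fintype.card Λ * 2 ^ Fintype.card Λ := by
          rw [← mul_pow]; norm_num
      _ ≤ _ := Nat.mul_le_mul h1 h2
  have hg1 : (1 : ℝ) ≤ g := by
    have : 1 ≤ g := le_trans (Nat.one_le_pow _ _ (by norm_num)) hg4
    exact_mod_cast this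
  have hi1 : (1 : ℝ) ≤ Fintype.card ι := by exact_mod_cast Fintype.card_pos
  have hperm : (Fintype.card (ι → Equiv.Perm Λ) : ℝ) ≤ Real.exp (Fintype.card ι * g) := by
    rw [Fintype.card_fun, Fintype.card_perm]
    push_cast
    rw [Real.exp_nat_mul]
    refine pow_le_pow_left₀ (Nat.cast_nonneg _) ((factorial_le_exp _).trans ?_) _
    apply Real.exp_le_exp.2
    exact_mod_cast hg4
  have hs : ∀ v v' : Bool × Slot ι Λ Ω t T, cloud src dst v = cloud src dst v' → v.1 = v'.1 :=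
    cloud_side src dst
  refine ⟨univ.filter (fun r : Rout K (Bool × Slot ι Λ Ω t T) ((U ⊕ W) × (Λ → Ω))
      (cloud src dst) => ∃ p : ι → Equiv.Perm Λ,
      ¬ Good s d σ (fun k => carry (σ k) p) ((4 * Fintype.card K + (Fintype.card PL +
        Fintype.card PR) + 4) * Fintype.card (Slot ι Λ Ω t T)) (Real.exp (-L)) r ∨
      ¬ Lln (Phi (fun k => carry (σ k) p)) (nodeT src dst) (qT src dst) (m + 1) ε r), ?_, ?_⟩
  · have key := union_abs (Q := ι → Equiv.Perm Λ) (cl := cloud (Λ := Λ) (Ω := Ω) (t := t)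
      (T := T) src dst) hs s d σ (fun p k => carry (σ k) p) (nodeT src dst) (nodeT_cloud src dst)
      (qT src dst) (qT_nonneg src dst) (qT_sum src dst)
      (fun p k v u => by
        have := cloud_mix src dst σ p k v u
        convert this)
      T (fun v => by
        have := cloud_card ht src dst v
        convert this) (m + 1) (by omega) hTm ε (Real.exp (-L)) hε hδ hT2
      (by
        have := prof_T (Λ := Λ) (Ω := Ω) ht src dst hTexp false
        convert this)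
      (by
        have := prof_T (Λ := Λ) (Ω := Ω) ht src dst hTexp true
        convert this)
      (g : ℝ) c1 (Fintype.card ι : ℝ) hg1 hi1 (by rw [hgc]; push_cast; ring)
      (by
        have := card_Nd src dst
        exact_mod_cast this)
      hperm hc1 hc14 hT3 hT4
    refine (le_of_eq (by congr!)).trans (key.trans ?_)
    refine mul_le_mul_of_nonneg_right ?_ (Nat.cast_nonneg _)
    apply Real.exp_le_exp.2
    have h1 : min (c1 / 4) (Real.exp (-L) / (2 * (M + 1))) ≤ c1 / 4 := min_le_left _ _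
    have h2 : (0 : ℝ) ≤ (T : ℝ) * Fintype.card ι := by positivity
    have h3 := mul_le_mul_of_nonneg_right h1 h2
    linarith
  · intro r perm hr hv
    have hr' := fun p => (not_exists.1 (fun h => hr (mem_filter.2 ⟨mem_univ _, h⟩))) p
    have hr2 := hr' perm
    rw [not_or, not_not, not_not] at hr2
    obtain ⟨hgood, hll⟩ := hr2
    set I : Game U W Λ ι := Game.mk src dst perm with hI
    have hv0 : 3 * θ + M * I.value ≤ Real.exp (-L) := by
      have h1 : M * I.value ≤ Real.exp (-L) / 2 := by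
        have h2 : I.value ≤ Real.exp (-L) / (2 * (M + 1)) := hv.trans (min_le_right _ _)
        have h3 : M * I.value ≤ M * (Real.exp (-L) / (2 * (M + 1))) :=
          mul_le_mul_of_nonneg_left h2 hM0
        refine h3.trans ?_
        have h4 : M * (Real.exp (-L) / (2 * (M + 1))) = (M / (M + 1)) * (Real.exp (-L) / 2) := by
          field_simp
        rw [h4]
        have h5 : M / (M + 1) ≤ 1 := by
          rw [div_le_one (by linarith)]
          linarith
        have h6 : (0 : ℝ) ≤ Real.exp (-L) / 2 := by positivity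
        nlinarith
      linarith
    have hn : (0 : ℝ) < Fintype.card (Slot ι Λ Ω t T) := by exact_mod_cast Fintype.card_pos
    refine Real.iSup_le (fun p => ?_) (by positivity)
    obtain ⟨x, y⟩ := p
    have hη : 0 < (θ ^ 2) ^ (4 * t) := by positivity
    have key := inst_abs (cl := cloud (Λ := Λ) (Ω := Ω) (t := t) (T := T) src dst) hs s d σ hσ
      (fun k => carry (σ k) perm) r (nodeT src dst)
      ((4 * Fintype.card K + (Fintype.card PL + Fintype.card PR) + 4) *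
        Fintype.card (Slot ι Λ Ω t T)) (Real.exp (-L)) W0 (b * Fintype.card K / 8) R ε
      (by positivity) hδ hW0p (by positivity) hε.le m hred hgood
      (fun bb z c a => nmean src dst bb z c.1 a ≤ (θ ^ 2) ^ (4 * t))
      (fun bb z u => univ.filter (fun ω => (θ ^ 2) ^ (4 * t) < nmean src dst bb z u.1 ω))
      (fun bb z u => by rw [hR]; exact heavy_card src dst bb z u.1 _ hη)
      (fun bb z h a hna => by
        rw [mem_filter]
        exact ⟨mem_univ _, not_le.1 hna⟩)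
      (nodeT_cloud src dst)
      (fun x y kL kR hk => by
        have h1 := hM U W Λ ι PL PR K I T hT1 s d σ x y kL kR hk
        refine h1.trans ?_
        exact mul_le_mul_of_nonneg_right hv0 (by positivity))
      hbig (qT src dst) (qT_nonneg src dst) (qT_sum src dst) hll
      (fun p h => x (p, h)) (fun p h => y (p, h))
    have h2 := final_le (Fintype.card K) ((Fintype.card PL : ℝ) + Fintype.card PR) b
      (Fintype.card (Slot ι Λ Ω t T)) _ hk1 (by positivity) hb hn W0 L hW0 hL key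
    unfold Game.satFrac
    have hm : (Fintype.card (K × Slot ι Λ Ω t T) : ℝ) =
        Fintype.card K * Fintype.card (Slot ι Λ Ω t T) := by
      rw [Fintype.card_prod]
      push_cast
      ring
    rw [hm, div_le_iff₀ (by positivity)]
    refine le_trans (le_of_eq ?_) h2
    congr 1

end Pool.Agent.CovT
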